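import Mathlib

/-!
Finite sets with an action of a finite group (given as homomorphisms into permutation groups) are
classified by the numbers of fixed points of subgroups.
-/

namespace Pool.Agent.Helper94

open Equiv

section basics

variable {H : Type} [Group H]

/-- equivalence of actions -/
def ActIso {X Y : Type} (a : H →* Perm X) (b : H →* Perm Y) : Prop :=
  ∃ e : X ≃ Y, ∀ h x, e (a h x) = b h (e x)

/-- number of fixed points of a subgroup -/
noncomputable def fixN {X : Type} (a : H →* Perm X) (J : Subgroup H) : ℕ :=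
  Nat.card {x : X // ∀ g ∈ J, a g x = x}

lemma ActIso.symm {X Y : Type} {a : H →* Perm X} {b : H →* Perm Y} (h : ActIso a b) :
    ActIso b a := by
  obtain ⟨e, he⟩ := h
  refine ⟨e.symm, fun h x => ?_⟩
  rw [Equiv.symm_apply_eq, he, Equiv.apply_symm_apply]

lemma ActIso.fixN_eq {X Y : Type} {a : H →* Perm X} {b : H →* Perm Y} (h : ActIso a b)
    (J : Subgroup H) : fixN a J = fixN b J := by
  obtain ⟨e, he⟩ := h
  unfold fixN
  refine Nat.card_congr (e.subtypeEquiv (fun x => ?_))
  constructor
  · intro hx g hg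
    rw [← he, hx g hg]
  · intro hx g hg
    apply e.injective
    rw [he, hx g hg]

/-- restriction to an invariant subset -/
def subAct {X : Type} (a : H →* Perm X) (P : X → Prop) (hP : ∀ g x, P (a g x) ↔ P x) :
    H →* Perm {x // P x} where
  toFun g := (a g).subtypePerm (fun x => (hP g x))
  map_one' := by
    ext x
    simp
  map_mul' g h := by
    apply Equiv.ext
    intro x
    apply Subtype.ext
    change (a (g * h)) x = a g (a h x)
    rw [map_mul]
    rfl

lemma subAct_apply {X : Type} (a : H →* Perm X) (P : X → Prop) (hP : ∀ g x, P (a g x) ↔ P x)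
    (g : H) (x : {x // P x}) : ((subAct a P hP g x : {x // P x}) : X) = a g x := rfl

/-- disjoint union of two actions -/
def sumAct {X Y : Type} (a : H →* Perm X) (b : H →* Perm Y) : H →* Perm (X ⊕ Y) :=
  (Equiv.Perm.sumCongrHom X Y).comp (a.prod b)

lemma sumAct_inl {X Y : Type} (a : H →* Perm X) (b : H →* Perm Y) (g : H) (x : X) :
    sumAct a b g (Sum.inl x) = Sum.inl (a g x) := rfl

lemma sumAct_inr {X Y : Type} (a : H →* Perm X) (b : H →* Perm Y) (g : H) (y : Y) :
    sumAct a b g (Sum.inr y) = Sum.inr (b g y) := rfl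

lemma fixN_sumAct {X Y : Type} [Finite X] [Finite Y] (a : H →* Perm X) (b : H →* Perm Y)
    (J : Subgroup H) : fixN (sumAct a b) J = fixN a J + fixN b J := by
  unfold fixN
  rw [← Nat.card_sum]
  refine Nat.card_congr ((Equiv.subtypeSum).trans (Equiv.sumCongr ?_ ?_))
  · refine Equiv.subtypeEquivRight (fun x => ?_)
    simp only [sumAct_inl, Sum.inl.injEq]
  · refine Equiv.subtypeEquivRight (fun x => ?_)
    simp only [sumAct_inr, Sum.inr.injEq]

lemma not_inv {X : Type} {a : H →* Perm X} {P : X → Prop} (hP : ∀ g x, P (a g x) ↔ P x) :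
    ∀ g x, ¬ P (a g x) ↔ ¬ P x := fun g x => not_congr (hP g x)

lemma fixN_split {X : Type} [Finite X] (a : H →* Perm X) (P : X → Prop)
    (hP : ∀ g x, P (a g x) ↔ P x) (J : Subgroup H) :
    fixN a J = fixN (subAct a P hP) J + fixN (subAct a (fun x => ¬ P x) (not_inv hP)) J := by
  classical
  rw [← fixN_sumAct]
  apply ActIso.fixN_eq
  refine ActIso.symm ⟨Equiv.sumCompl P, ?_⟩
  intro h x
  cases x with
  | inl x => rfl
  | inr x => rfl

/-- Gluing equivariant bijections. -/
lemma glue {X Y : Type} (a : H →* Perm X) (b : H →* Perm Y) (P : X → Prop)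
    (hP : ∀ g x, P (a g x) ↔ P x) (Q : Y → Prop) (hQ : ∀ g y, Q (b g y) ↔ Q y)
    (e0 : {x // P x} ≃ {y // Q y})
    (he0 : ∀ h x, e0 (subAct a P hP h x) = subAct b Q hQ h (e0 x))
    (h1 : ActIso (subAct a (fun x => ¬ P x) (not_inv hP))
      (subAct b (fun x => ¬ Q x) (not_inv hQ))) :
    ∃ e : X ≃ Y, (∀ h x, e (a h x) = b h (e x)) ∧ ∀ x (hx : P x), e x = e0 ⟨x, hx⟩ := by
  classical
  obtain ⟨e1, he1⟩ := h1
  refine ⟨(Equiv.sumCompl P).symm.trans ((Equiv.sumCongr e0 e1).trans (Equiv.sumCompl Q)), ?_, ?_⟩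
  · intro h x
    by_cases hx : P x
    · have hx' : P (a h x) := (hP h x).2 hx
      simp only [Equiv.trans_apply]
      rw [Equiv.sumCompl_symm_apply_of_pos hx, Equiv.sumCompl_symm_apply_of_pos hx']
      simp only [Equiv.sumCongr_apply, Sum.map_inl, Equiv.sumCompl_apply_inl]
      have := he0 h ⟨x, hx⟩
      have h2 : subAct a P hP h ⟨x, hx⟩ = ⟨a h x, hx'⟩ := rfl
      rw [h2] at this
      rw [this]
      rfl
    · have hx' : ¬ P (a h x) := fun hh => hx ((hP h x).1 hh)
      simp only [Equiv.trans_apply]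
      rw [Equiv.sumCompl_symm_apply_of_neg hx, Equiv.sumCompl_symm_apply_of_neg hx']
      simp only [Equiv.sumCongr_apply, Sum.map_inr, Equiv.sumCompl_apply_inr]
      have := he1 h ⟨x, hx⟩
      have h2 : subAct a (fun x => ¬ P x) (not_inv hP) h ⟨x, hx⟩ = ⟨a h x, hx'⟩ := rfl
      rw [h2] at this
      rw [this]
      rfl
  · intro x hx
    simp only [Equiv.trans_apply]
    rw [Equiv.sumCompl_symm_apply_of_pos hx]
    rfl

/-- stabilizer of a point -/
def stab {X : Type} (a : H →* Perm X) (x : X) : Subgroup H :=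
  (MulAction.stabilizer (Perm X) x).comap a

lemma mem_stab {X : Type} (a : H →* Perm X) (x : X) (g : H) : g ∈ stab a x ↔ a g x = x :=
  Iff.rfl

lemma fixN_pos_iff {X : Type} [Finite X] (a : H →* Perm X) (J : Subgroup H) :
    0 < fixN a J ↔ ∃ x, J ≤ stab a x := by
  unfold fixN
  rw [Nat.card_pos_iff]
  constructor
  · rintro ⟨⟨x, hx⟩, _⟩
    exact ⟨x, fun g hg => hx g hg⟩
  · rintro ⟨x, hx⟩
    exact ⟨⟨x, fun g hg => hx hg⟩, inferInstance⟩

lemma fixN_bot {X : Type} (a : H →* Perm X) : fixN a ⊥ = Nat.card X := by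
  unfold fixN
  refine Nat.card_congr (Equiv.subtypeUnivEquiv (fun x => ?_))
  intro g hg
  rw [Subgroup.mem_bot] at hg
  rw [hg, map_one]
  rfl

/-- the orbit of a point -/
def orb {X : Type} (a : H →* Perm X) (x : X) : X → Prop := fun z => ∃ g, a g x = z

lemma orb_inv {X : Type} (a : H →* Perm X) (x : X) : ∀ g z, orb a x (a g z) ↔ orb a x z := by
  intro g z
  constructor
  · rintro ⟨k, hk⟩
    refine ⟨g⁻¹ * k, ?_⟩
    rw [map_mul, Perm.mul_apply, hk, map_inv]
    exact Equiv.symm_apply_apply _ _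
  · rintro ⟨k, hk⟩
    refine ⟨g * k, ?_⟩
    rw [map_mul, Perm.mul_apply, hk]

/-- orbits with equal stabilizers are isomorphic -/
lemma orb_iso {X Y : Type} (a : H →* Perm X) (b : H →* Perm Y) (x : X) (y : Y)
    (hst : stab a x = stab b y) :
    ActIso (subAct a (orb a x) (orb_inv a x)) (subAct b (orb b y) (orb_inv b y)) := by
  classical
  have key : ∀ g k : H, a g x = a k x ↔ b g y = b k y := by
    intro g k
    have h1 : a g x = a k x ↔ k⁻¹ * g ∈ stab a x := by
      rw [mem_stab, map_mul, map_inv, Perm.mul_apply, Perm.inv_eq_iff_eq]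
    have h2 : b g y = b k y ↔ k⁻¹ * g ∈ stab b y := by
      rw [mem_stab, map_mul, map_inv, Perm.mul_apply, Perm.inv_eq_iff_eq]
    rw [h1, h2, hst]
  let f : {z // orb a x z} → {z // orb b y z} := fun z => ⟨b z.2.choose y, ⟨_, rfl⟩⟩
  have hf : ∀ (z : {z // orb a x z}) (g : H), a g x = z → (f z : Y) = b g y := by
    intro z g hg
    change b z.2.choose y = b g y
    rw [← key, z.2.choose_spec, hg]
  have hinj : Function.Injective f := by
    intro z z' hzz
    obtain ⟨g, hg⟩ := z.2
    obtain ⟨g', hg'⟩ := z'.2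
    have h1 := hf z g hg
    have h2 := hf z' g' hg'
    apply Subtype.ext
    rw [← hg, ← hg', key, ← h1, ← h2, hzz]
  have hsurj : Function.Surjective f := by
    rintro ⟨w, g, hg⟩
    refine ⟨⟨a g x, ⟨g, rfl⟩⟩, ?_⟩
    apply Subtype.ext
    rw [hf _ g rfl, hg]
  refine ⟨Equiv.ofBijective f ⟨hinj, hsurj⟩, ?_⟩
  intro h z
  obtain ⟨g, hg⟩ := z.2
  apply Subtype.ext
  change (f (subAct a (orb a x) (orb_inv a x) h z) : Y) = b h (f z)
  rw [hf z g hg, hf _ (h * g) (by rw [map_mul, Perm.mul_apply, hg, subAct_apply]), map_mul,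
    Perm.mul_apply]

end basics

/-- Burnside: finite sets with an action of a finite group are classified by fixed point numbers. -/
theorem actIso_of_fixN {H : Type} [Group H] [Finite H] : ∀ (n : ℕ) (X Y : Type) [Finite X]
    [Finite Y] (a : H →* Perm X) (b : H →* Perm Y), Nat.card X = n →
    (∀ J, fixN a J = fixN b J) → ActIso a b := by
  intro n
  induction n using Nat.strong_induction_on with
  | _ n ih =>
    intro X Y _ _ a b hn hJ
    have hXY : Nat.card X = Nat.card Y := by
      rw [← fixN_bot a, ← fixN_bot b, hJ]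
    rcases isEmpty_or_nonempty X with hX | hX
    · have hY : IsEmpty Y := by
        rw [← Finite.card_eq_zero_iff, ← hXY, Finite.card_eq_zero_iff]
        exact hX
      exact ⟨Equiv.equivOfIsEmpty X Y, fun h x => (hX.false x).elim⟩
    · obtain ⟨x, hx⟩ := Finite.exists_max (fun x : X => Nat.card (stab a x))
      have h1 : 0 < fixN b (stab a x) := by
        rw [← hJ, fixN_pos_iff]
        exact ⟨x, le_refl _⟩
      obtain ⟨y, hy⟩ := (fixN_pos_iff b _).1 h1
      have h2 : 0 < fixN a (stab b y) := by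
        rw [hJ, fixN_pos_iff]
        exact ⟨y, le_refl _⟩
      obtain ⟨x', hx'⟩ := (fixN_pos_iff a _).1 h2
      have hst : stab a x = stab b y := by
        apply Subgroup.eq_of_le_of_card_ge hy
        calc Nat.card (stab b y) ≤ Nat.card (stab a x') :=
              Nat.card_le_card_of_injective _ (Subgroup.inclusion_injective hx')
          _ ≤ Nat.card (stab a x) := hx x'
      have hiso := orb_iso a b x y hst
      have hcompl : ActIso (subAct a (fun z => ¬ orb a x z) (not_inv (orb_inv a x)))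
          (subAct b (fun z => ¬ orb b y z) (not_inv (orb_inv b y))) := by
        apply ih (Nat.card {z // ¬ orb a x z})
        · rw [← hn]
          exact Finite.card_subtype_lt (x := x) (not_not.2 ⟨1, by rw [map_one]; rfl⟩)
        · rfl
        · intro J
          have e1 := fixN_split a (orb a x) (orb_inv a x) J
          have e2 := fixN_split b (orb b y) (orb_inv b y) J
          have e3 := hiso.fixN_eq J
          have e4 := hJ J
          omega
      obtain ⟨e0, he0⟩ := hiso
      obtain ⟨e, he, _⟩ := glue a b (orb a x) (orb_inv a x) (orb b y) (orb_inv b y) e0 he0 hcompl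
      exact ⟨e, he⟩

end Pool.Agent.Helper94
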