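import Mathlib

/-!
Definitions: flexible stability in permutations, amalgamated free products.
-/

namespace Pool.Agent.Helper94

open Equiv

/-- Normalized Hamming distance of two permutations of a finite set. -/
noncomputable def permDist {X : Type} (σ τ : Perm X) : ℝ :=
  (Nat.card {x : X // σ x ≠ τ x} : ℝ) / (Nat.card X : ℝ)

/-- Regard `X` as a subset of `Y` through `ι`. The permutation `ρ` of `X` agrees with the
permutation `τ` of `Y` on `X ∩ τ⁻¹(X)`. -/
def IsRestriction {X Y : Type} (ι : X ↪ Y) (τ : Perm Y) (ρ : Perm X) : Prop :=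
  ∀ x x' : X, τ (ι x) = ι x' → ρ x = x'

/-- The condition of flexible stability in permutations, for the family `g : S → G`. -/
def FlexPStableOn {G : Type} [Group G] (S : Type) (g : S → G) : Prop :=
  ∀ ε : ℝ, 0 < ε → ∃ δ : ℝ, 0 < δ ∧ ∃ E : Finset (FreeGroup S),
    (∀ e ∈ E, FreeGroup.lift g e = 1) ∧
    ∀ (X : Type) [Finite X] [Nonempty X] (φ : FreeGroup S →* Perm X),
      (∀ e ∈ E, permDist (φ e) 1 ≤ δ) →
      ∃ (Y : Type) (_ : Finite Y) (ι : X ↪ Y) (ψ : G →* Perm Y),
        (Nat.card Y : ℝ) ≤ (1 + ε) * (Nat.card X : ℝ) ∧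
        ∀ (s : S) (ρ : Perm X), IsRestriction ι (ψ (g s)) ρ →
          permDist (φ (FreeGroup.of s)) ρ ≤ ε

/-- Flexible stability in permutations of a finitely generated group. -/
def FlexPStable (G : Type) [Group G] : Prop :=
  Group.FG G ∧ ∀ (S : Type) [Finite S] (g : S → G), Subgroup.closure (Set.range g) = ⊤ →
    FlexPStableOn S g

/-- Stability in permutations: every sequence of maps into finite symmetric groups that is
asymptotically multiplicative is asymptotically close to a sequence of homomorphisms. -/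
def PStable (G : Type) [Group G] : Prop :=
  ∀ (X : ℕ → Type) [∀ n, Finite (X n)] [∀ n, Nonempty (X n)] (φ : ∀ n, G → Perm (X n)),
    (∀ a b : G, Filter.Tendsto (fun n => permDist (φ n a * φ n b) (φ n (a * b)))
      Filter.atTop (nhds 0)) →
    ∃ ψ : ∀ n, G →* Perm (X n),
      ∀ a : G, Filter.Tendsto (fun n => permDist (φ n a) (ψ n a)) Filter.atTop (nhds 0)

/-- `g` lies in the finite residual of `G`: every homomorphism from `G` to a finite group maps
`g` to `1`. -/
def InRes (G : Type) [Group G] (g : G) : Prop :=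
  ∀ (Q : Type) [Group Q] [Finite Q] (f : G →* Q), f g = 1

/-- The amalgamated free product of `G₁` and `G₂` along `i₁ : H → G₁` and `i₂ : H → G₂`. -/
abbrev Amalgam {G₁ G₂ H : Type} [Group G₁] [Group G₂] [Group H] (i₁ : H →* G₁) (i₂ : H →* G₂) :
    Type :=
  Monoid.Coprod G₁ G₂ ⧸ Subgroup.normalClosure
    (Set.range (fun h : H => Monoid.Coprod.inl (i₁ h) * (Monoid.Coprod.inr (i₂ h))⁻¹ :
      H → Monoid.Coprod G₁ G₂))

end Pool.Agent.Helper94
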