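import Mathlib
import Pool.Agent.Helper94.Marks
import Pool.Agent.Helper94.StabDefs

/-!
Matching the restrictions to a common finite subgroup of finite sets with actions of two groups.
-/

namespace Pool.Agent.Helper94

open Equiv

/-- A finite set with an action of `G`. -/
structure FAct (G : Type) [Group G] where
  X : Type
  fin : Finite X
  a : G →* Perm X

/-- fixed point vector of the restriction to `H` -/
noncomputable def marks {G H : Type} [Group G] [Group H] (i : H →* G) (A : FAct G) :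
    Subgroup H → ℕ := fun J => fixN (A.a.comp i) J

section W

variable {G H : Type} [Group G] [Group H]

/-- action on functions -/
def funAct {Q : Type} [Group Q] (q : G →* Q) (A : Type) : G →* Perm (Q → A) where
  toFun g :=
    { toFun := fun f y => f (y * q g)
      invFun := fun f y => f (y * (q g)⁻¹)
      left_inv := fun f => by funext y; simp
      right_inv := fun f => by funext y; simp }
  map_one' := by
    ext f
    simp
  map_mul' g g' := by
    apply Equiv.ext
    intro f
    funext y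
    change f (y * q (g * g')) = f (y * q g * q g')
    rw [map_mul, mul_assoc]

lemma funAct_apply {Q : Type} [Group Q] (q : G →* Q) (A : Type) (g : G) (f : Q → A) (y : Q) :
    funAct q A g f y = f (y * q g) := rfl

lemma fixN_funAct {Q : Type} [Group Q] [Finite Q] (q : G →* Q) (A : Type) [Finite A]
    (i : H →* G) (J : Subgroup H) :
    fixN ((funAct q A).comp i) J = Nat.card A ^ (J.map (q.comp i)).index := by
  unfold fixN
  rw [Subgroup.index, ← Nat.card_fun]
  refine Nat.card_congr ?_
  refine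
    { toFun := fun f => Quotient.lift f.1 ?_
      invFun := fun F => ⟨fun y => F (QuotientGroup.mk y), ?_⟩
      left_inv := fun f => rfl
      right_inv := fun F => ?_ }
  · intro y y' hyy
    have h1 : y⁻¹ * y' ∈ J.map (q.comp i) := QuotientGroup.leftRel_apply.1 hyy
    obtain ⟨h, hh, hq⟩ := h1
    have h2 := congrFun (f.2 h hh) y
    have h3 : (funAct q A (i h)) f.1 y = f.1 (y * q (i h)) := rfl
    have h4 : q (i h) = y⁻¹ * y' := hq
    change (funAct q A (i h)) f.1 y = f.1 y at h2
    rw [h3, h4, mul_inv_cancel_left] at h2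
    exact h2.symm
  · intro h hh
    funext y
    change F (QuotientGroup.mk (y * q (i h))) = F (QuotientGroup.mk y)
    congr 1
    rw [QuotientGroup.eq]
    refine ⟨h⁻¹, J.inv_mem hh, ?_⟩
    simp
  · funext z
    induction z using Quotient.inductionOn
    rfl

/-- Embedding an action into a function action, with complement. -/
lemma exists_compl (i : H →* G) (A : FAct G) {F : Type} [Group F] [Finite F] (f : G →* F)
    (B : Type) [Finite B] (emb : A.X ↪ B) :
    ∃ C : FAct G, ∀ J : Subgroup H, marks i A J + marks i C J =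
      Nat.card B ^ (J.map ((f.prod A.a).comp i)).index := by
  classical
  have : Finite A.X := A.fin
  let P : ((F × Perm A.X) → B) → Prop := fun φ => ∃ x : A.X, φ = fun y => emb (y.2 x)
  have hP : ∀ g φ, P (funAct (f.prod A.a) B g φ) ↔ P φ := by
    intro g φ
    constructor
    · rintro ⟨x, hx⟩
      refine ⟨A.a g⁻¹ x, ?_⟩
      funext y
      have h1 := congrFun hx (y * (f.prod A.a) g⁻¹)
      rw [funAct_apply, mul_assoc, ← map_mul, inv_mul_cancel, map_one, mul_one] at h1
      rw [h1]
      rfl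
    · rintro ⟨x, hx⟩
      refine ⟨A.a g x, ?_⟩
      funext y
      rw [funAct_apply, hx]
      rfl
  refine ⟨⟨{φ // ¬ P φ}, inferInstance, subAct _ (fun φ => ¬ P φ) (not_inv hP)⟩, ?_⟩
  intro J
  rw [← fixN_funAct (f.prod A.a) B i J,
    fixN_split ((funAct (f.prod A.a) B).comp i) P (fun g φ => hP (i g) φ) J]
  congr 1
  unfold marks
  apply ActIso.fixN_eq
  let e : A.X → {φ // P φ} := fun x => ⟨fun y => emb (y.2 x), ⟨x, rfl⟩⟩
  have he : Function.Bijective e := by
    constructor
    · intro x x' hxx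
      have := congrFun (Subtype.ext_iff.1 hxx) 1
      exact emb.injective this
    · rintro ⟨φ, x, hx⟩
      exact ⟨x, Subtype.ext hx.symm⟩
  refine ⟨Equiv.ofBijective e he, ?_⟩
  intro h x
  apply Subtype.ext
  funext y
  rfl

/-- A finite quotient detecting all detectable elements of a finite subgroup. -/
lemma exists_detect [Finite H] (i : H →* G) :
    ∃ (F : Type) (_ : Group F) (_ : Finite F) (f : G →* F), ∀ h : H,
      f (i h) = 1 ↔ InRes G (i h) := by
  classical
  have h1 : ∀ h : {h : H // ¬ InRes G (i h)}, ∃ (Q : Type) (_ : Group Q) (_ : Finite Q)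
      (f : G →* Q), f (i h) ≠ 1 := by
    rintro ⟨h, hh⟩
    unfold InRes at hh
    push Not at hh
    obtain ⟨Q, g1, g2, f, hf⟩ := hh
    exact ⟨Q, g1, g2, f, hf⟩
  choose Q g1 g2 f hf using h1
  refine ⟨∀ h, Q h, inferInstance, inferInstance, MonoidHom.pi f, ?_⟩
  intro h
  constructor
  · intro hh
    by_contra hc
    exact hf ⟨h, hc⟩ (congrFun hh ⟨h, hc⟩)
  · intro hh
    exact hh _ (MonoidHom.pi f)

end W

lemma card_map_eq {H Q₁ Q₂ : Type} [Group H] [Group Q₁] [Group Q₂]
    (f₁ : H →* Q₁) (f₂ : H →* Q₂) (h : ∀ x, f₁ x = 1 ↔ f₂ x = 1) (J : Subgroup H) :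
    Nat.card (J.map f₁) = Nat.card (J.map f₂) := by
  have e1 : J.map f₁ = (f₁.comp J.subtype).range := by
    rw [MonoidHom.range_comp, Subgroup.range_subtype]
  have e2 : J.map f₂ = (f₂.comp J.subtype).range := by
    rw [MonoidHom.range_comp, Subgroup.range_subtype]
  rw [e1, e2, ← Subgroup.index_ker, ← Subgroup.index_ker]
  congr 1
  ext x
  rw [MonoidHom.mem_ker, MonoidHom.mem_ker]
  exact h x

section two

variable {G₁ G₂ H : Type} [Group G₁] [Group G₂] [Group H] [Finite H]

/-- Any two finite actions can be completed to actions with the same restriction to `H`. -/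
theorem exists_match (i₁ : H →* G₁) (i₂ : H →* G₂)
    (hres : ∀ h, InRes G₁ (i₁ h) ↔ InRes G₂ (i₂ h)) (A₁ : FAct G₁) (A₂ : FAct G₂) :
    ∃ (B₁ : FAct G₁) (B₂ : FAct G₂), ∀ J : Subgroup H,
      marks i₁ A₁ J + marks i₁ B₁ J = marks i₂ A₂ J + marks i₂ B₂ J := by
  classical
  obtain ⟨F₁, _, _, f₁, hf₁⟩ := exists_detect i₁
  obtain ⟨F₂, _, _, f₂, hf₂⟩ := exists_detect i₂
  have : Finite A₁.X := A₁.fin
  have : Finite A₂.X := A₂.fin
  have := Fintype.ofFinite A₁.X
  have := Fintype.ofFinite A₂.X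
  set n₁ := Nat.card (F₁ × Perm A₁.X) with hn₁
  set n₂ := Nat.card (F₂ × Perm A₂.X) with hn₂
  have hn₁pos : 0 < n₁ := Nat.card_pos
  have hn₂pos : 0 < n₂ := Nat.card_pos
  set c := Fintype.card A₁.X + Fintype.card A₂.X + 1 with hc
  have hc1 : Fintype.card A₁.X ≤ c ^ n₂ := by
    calc Fintype.card A₁.X ≤ c := by omega
      _ ≤ c ^ n₂ := Nat.le_self_pow hn₂pos.ne' c
  have hc2 : Fintype.card A₂.X ≤ c ^ n₁ := by
    calc Fintype.card A₂.X ≤ c := by omega
      _ ≤ c ^ n₁ := Nat.le_self_pow hn₁pos.ne' c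
  obtain ⟨emb₁⟩ := Function.Embedding.nonempty_of_card_le
    (α := A₁.X) (β := Fin (c ^ n₂)) (by simpa using hc1)
  obtain ⟨emb₂⟩ := Function.Embedding.nonempty_of_card_le
    (α := A₂.X) (β := Fin (c ^ n₁)) (by simpa using hc2)
  obtain ⟨B₁, hB₁⟩ := exists_compl i₁ A₁ f₁ (Fin (c ^ n₂)) emb₁
  obtain ⟨B₂, hB₂⟩ := exists_compl i₂ A₂ f₂ (Fin (c ^ n₁)) emb₂
  refine ⟨B₁, B₂, fun J => ?_⟩
  rw [hB₁, hB₂, Nat.card_eq_fintype_card, Nat.card_eq_fintype_card, Fintype.card_fin,
    Fintype.card_fin, ← pow_mul, ← pow_mul]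
  congr 1
  have hker : ∀ x : H, ((f₁.prod A₁.a).comp i₁) x = 1 ↔ ((f₂.prod A₂.a).comp i₂) x = 1 := by
    intro x
    have k1 : ((f₁.prod A₁.a).comp i₁) x = 1 ↔ InRes G₁ (i₁ x) := by
      constructor
      · intro hx
        rw [← hf₁]
        exact congrArg Prod.fst hx
      · intro hx
        exact hx _ (f₁.prod A₁.a)
    have k2 : ((f₂.prod A₂.a).comp i₂) x = 1 ↔ InRes G₂ (i₂ x) := by
      constructor
      · intro hx
        rw [← hf₂]
        exact congrArg Prod.fst hx
      · intro hx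
        exact hx _ (f₂.prod A₂.a)
    rw [k1, k2, hres]
  have hcard := card_map_eq ((f₁.prod A₁.a).comp i₁) ((f₂.prod A₂.a).comp i₂) hker J
  have e1 := Subgroup.card_mul_index (J.map ((f₁.prod A₁.a).comp i₁))
  have e2 := Subgroup.card_mul_index (J.map ((f₂.prod A₂.a).comp i₂))
  rw [← hn₁] at e1
  rw [← hn₂] at e2
  rw [hcard] at e1
  rw [← e1, ← e2]
  ring

end two

end Pool.Agent.Helper94
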