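import Mathlib
import Pool.Agent.Helper94.Match

/-!
Linear bound on the size of the sets needed to match restrictions.
-/

namespace Pool.Agent.Helper94

open Equiv

section sums

variable {G H : Type} [Group G] [Group H]

/-- disjoint union -/
def FAct.add (A B : FAct G) : FAct G :=
  haveI := A.fin
  haveI := B.fin
  ⟨A.X ⊕ B.X, inferInstance, sumAct A.a B.a⟩

/-- empty set -/
def FAct.empty : FAct G := ⟨Empty, inferInstance, 1⟩

lemma marks_add (i : H →* G) (A B : FAct G) (J : Subgroup H) :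
    marks i (A.add B) J = marks i A J + marks i B J := by
  have := A.fin
  have := B.fin
  unfold marks
  rw [← fixN_sumAct]
  rfl

lemma marks_empty (i : H →* G) (J : Subgroup H) : marks i FAct.empty J = 0 := by
  unfold marks fixN
  have : IsEmpty {x : (FAct.empty (G := G)).X // ∀ g ∈ J, ((FAct.empty (G := G)).a.comp i) g x = x} :=
    ⟨fun x => x.1.elim⟩
  exact Nat.card_of_isEmpty

lemma card_add (A B : FAct G) : Nat.card (A.add B).X = Nat.card A.X + Nat.card B.X := by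
  have := A.fin
  have := B.fin
  exact Nat.card_sum

lemma card_empty : Nat.card (FAct.empty (G := G)).X = 0 := by
  have : IsEmpty (FAct.empty (G := G)).X := ⟨fun x => x.elim⟩
  exact Nat.card_of_isEmpty

end sums

section two

variable {G₁ G₂ H : Type} [Group G₁] [Group G₂] [Group H] [Finite H]

/-- Matching pairs of fixed point vectors. -/
def matchSub (i₁ : H →* G₁) (i₂ : H →* G₂) :
    AddSubmonoid ((Subgroup H → ℕ) × (Subgroup H → ℕ)) where
  carrier := {x | ∃ (R₁ : FAct G₁) (R₂ : FAct G₂), ∀ J,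
    x.1 J + marks i₁ R₁ J = x.2 J + marks i₂ R₂ J}
  zero_mem' := ⟨FAct.empty, FAct.empty, fun J => by simp [marks_empty]⟩
  add_mem' := by
    rintro x y ⟨R₁, R₂, hR⟩ ⟨S₁, S₂, hS⟩
    refine ⟨R₁.add S₁, R₂.add S₂, fun J => ?_⟩
    have h1 := hR J
    have h2 := hS J
    rw [marks_add, marks_add]
    simp only [Prod.fst_add, Prod.snd_add, Pi.add_apply]
    omega

lemma matchSub_subtractive (i₁ : H →* G₁) (i₂ : H →* G₂)
    (hres : ∀ h, InRes G₁ (i₁ h) ↔ InRes G₂ (i₂ h)) :
    ∀ x ∈ matchSub i₁ i₂, ∀ y, x + y ∈ matchSub i₁ i₂ → y ∈ matchSub i₁ i₂ := by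
  rintro x ⟨R₁, R₂, hR⟩ y ⟨S₁, S₂, hS⟩
  obtain ⟨B₁, B₂, hB⟩ := exists_match i₁ i₂ hres R₁ R₂
  refine ⟨S₁.add B₁, S₂.add B₂, fun J => ?_⟩
  have h1 := hR J
  have h2 := hS J
  have h3 := hB J
  rw [marks_add, marks_add]
  simp only [Prod.fst_add, Prod.snd_add, Pi.add_apply] at h2
  omega

theorem matchSub_fg (i₁ : H →* G₁) (i₂ : H →* G₂)
    (hres : ∀ h, InRes G₁ (i₁ h) ↔ InRes G₂ (i₂ h)) : (matchSub i₁ i₂).FG :=
  AddSubmonoid.fg_of_subtractive (matchSub_subtractive i₁ i₂ hres)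

/-- Linear bound for matching. -/
theorem exists_bound (i₁ : H →* G₁) (i₂ : H →* G₂)
    (hres : ∀ h, InRes G₁ (i₁ h) ↔ InRes G₂ (i₂ h)) [Fintype (Subgroup H)] :
    ∃ C : ℕ, ∀ x ∈ matchSub i₁ i₂, ∃ (R₁ : FAct G₁) (R₂ : FAct G₂),
      (∀ J, x.1 J + marks i₁ R₁ J = x.2 J + marks i₂ R₂ J) ∧
      Nat.card R₁.X + Nat.card R₂.X ≤ C * ∑ J, (x.1 J + x.2 J) := by
  classical
  obtain ⟨S, hS⟩ := matchSub_fg i₁ i₂ hres
  have hmem : ∀ x ∈ S, x ∈ matchSub i₁ i₂ := fun x hx => by
    rw [← hS]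
    exact AddSubmonoid.subset_closure hx
  have hch : ∀ x : {x // x ∈ S}, ∃ (R₁ : FAct G₁) (R₂ : FAct G₂),
      ∀ J, x.1.1 J + marks i₁ R₁ J = x.1.2 J + marks i₂ R₂ J := fun x => hmem x.1 x.2
  choose R₁ R₂ hR using hch
  refine ⟨∑ x : {x // x ∈ S}, (Nat.card (R₁ x).X + Nat.card (R₂ x).X), ?_⟩
  set C := ∑ x : {x // x ∈ S}, (Nat.card (R₁ x).X + Nat.card (R₂ x).X) with hC
  intro x hx
  rw [← hS] at hx
  induction hx using AddSubmonoid.closure_induction with
  | mem x hx =>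
    by_cases h0 : x = 0
    · refine ⟨FAct.empty, FAct.empty, fun J => ?_, ?_⟩
      · rw [h0, marks_empty, marks_empty]
        rfl
      · rw [card_empty, card_empty]
        exact Nat.zero_le _
    · refine ⟨R₁ ⟨x, hx⟩, R₂ ⟨x, hx⟩, hR ⟨x, hx⟩, ?_⟩
      have h1 : Nat.card (R₁ ⟨x, hx⟩).X + Nat.card (R₂ ⟨x, hx⟩).X ≤ C := by
        rw [hC]
        exact Finset.single_le_sum (f := fun x : {x // x ∈ S} =>
          (Nat.card (R₁ x).X + Nat.card (R₂ x).X)) (fun _ _ => Nat.zero_le _)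
          (Finset.mem_univ (⟨x, hx⟩ : {x // x ∈ S}))
      have h2 : 1 ≤ ∑ J, (x.1 J + x.2 J) := by
        by_contra hcon
        apply h0
        have h3 : ∑ J, (x.1 J + x.2 J) = 0 := by omega
        rw [Finset.sum_eq_zero_iff] at h3
        ext J
        · have := h3 J (Finset.mem_univ _)
          simp only [Prod.fst_zero, Pi.zero_apply]
          omega
        · have := h3 J (Finset.mem_univ _)
          simp only [Prod.snd_zero, Pi.zero_apply]
          omega
      calc _ ≤ C := h1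
        _ = C * 1 := (mul_one _).symm
        _ ≤ _ := Nat.mul_le_mul_left _ h2
  | zero =>
    refine ⟨FAct.empty, FAct.empty, fun J => ?_, ?_⟩
    · rw [marks_empty, marks_empty]
      rfl
    · rw [card_empty, card_empty]
      exact Nat.zero_le _
  | add x y _ _ ihx ihy =>
    obtain ⟨A₁, A₂, hA, hAc⟩ := ihx
    obtain ⟨B₁, B₂, hB, hBc⟩ := ihy
    refine ⟨A₁.add B₁, A₂.add B₂, fun J => ?_, ?_⟩
    · have h1 := hA J
      have h2 := hB J
      rw [marks_add, marks_add]
      simp only [Prod.fst_add, Prod.snd_add, Pi.add_apply]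
      omega
    · rw [card_add, card_add]
      have e : ∑ J, ((x + y).1 J + (x + y).2 J) =
          ∑ J, (x.1 J + x.2 J) + ∑ J, (y.1 J + y.2 J) := by
        rw [← Finset.sum_add_distrib]
        apply Finset.sum_congr rfl
        intro J _
        simp only [Prod.fst_add, Prod.snd_add, Pi.add_apply]
        omega
      rw [e, mul_add]
      omega

end two

end Pool.Agent.Helper94
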