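import Mathlib
import Pool.Agent.Helper94.Bounded

/-!
Gluing almost matching actions of two groups.
-/

namespace Pool.Agent.Helper94

open Equiv

section partialIso

variable {H : Type} [Group H]

/-- image of a subset under an injection -/
def imgP {X Z : Type} (κ : X ↪ Z) (P : X → Prop) : Z → Prop := fun z => ∃ x, P x ∧ κ x = z

lemma imgP_inv {X Z : Type} (α : H →* Perm Z) (κ : X ↪ Z) (P : X → Prop)
    (hP : ∀ h x, P x → ∃ y, P y ∧ α h (κ x) = κ y) :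
    ∀ h z, imgP κ P (α h z) ↔ imgP κ P z := by
  intro h z
  constructor
  · rintro ⟨x, hx, hxz⟩
    obtain ⟨y, hy, hy2⟩ := hP h⁻¹ x hx
    refine ⟨y, hy, ?_⟩
    rw [← hy2, hxz, map_inv]
    exact Equiv.symm_apply_apply _ _
  · rintro ⟨x, hx, hxz⟩
    obtain ⟨y, hy, hy2⟩ := hP h x hx
    exact ⟨y, hy, by rw [← hy2, hxz]⟩

/-- the subset as a type is equivalent to its image -/
noncomputable def imgEquiv {X Z : Type} (κ : X ↪ Z) (P : X → Prop) :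
    {x // P x} ≃ {z // imgP κ P z} :=
  Equiv.ofBijective (fun x => ⟨κ x.1, x.1, x.2, rfl⟩)
    ⟨fun x x' h => Subtype.ext (κ.injective (Subtype.ext_iff.1 h)),
      fun ⟨_, x, hx, hz⟩ => ⟨⟨x, hx⟩, Subtype.ext hz⟩⟩

lemma imgEquiv_apply {X Z : Type} (κ : X ↪ Z) (P : X → Prop) (x : {x // P x}) :
    (imgEquiv κ P x : Z) = κ x.1 := rfl

variable {X Z₁ Z₂ : Type} (α₁ : H →* Perm Z₁) (α₂ : H →* Perm Z₂) (κ₁ : X ↪ Z₁) (κ₂ : X ↪ Z₂)
  (P : X → Prop)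

/-- The two invariant subsets are isomorphic. -/
lemma img_iso (hP : ∀ h x, P x → ∃ y, P y ∧ α₁ h (κ₁ x) = κ₁ y ∧ α₂ h (κ₂ x) = κ₂ y)
    (h₁ : ∀ h z, imgP κ₁ P (α₁ h z) ↔ imgP κ₁ P z)
    (h₂ : ∀ h z, imgP κ₂ P (α₂ h z) ↔ imgP κ₂ P z) :
    ∀ h z, ((imgEquiv κ₁ P).symm.trans (imgEquiv κ₂ P)) (subAct α₁ _ h₁ h z) =
      subAct α₂ _ h₂ h (((imgEquiv κ₁ P).symm.trans (imgEquiv κ₂ P)) z) := by
  intro h z
  obtain ⟨x, rfl⟩ := (imgEquiv κ₁ P).surjective z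
  obtain ⟨y, hy, hy1, hy2⟩ := hP h x.1 x.2
  have e1 : subAct α₁ _ h₁ h (imgEquiv κ₁ P x) = imgEquiv κ₁ P ⟨y, hy⟩ := Subtype.ext hy1
  rw [e1, Equiv.trans_apply, Equiv.trans_apply, Equiv.symm_apply_apply, Equiv.symm_apply_apply]
  exact Subtype.ext hy2.symm

lemma extend_iso [Finite H] [Finite Z₁] [Finite Z₂]
    (hP : ∀ h x, P x → ∃ y, P y ∧ α₁ h (κ₁ x) = κ₁ y ∧ α₂ h (κ₂ x) = κ₂ y)
    (hfix : ∀ J, fixN α₁ J = fixN α₂ J) :
    ∃ e : Z₁ ≃ Z₂, (∀ h z, e (α₁ h z) = α₂ h (e z)) ∧ ∀ x, P x → e (κ₁ x) = κ₂ x := by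
  have h₁ := imgP_inv α₁ κ₁ P (fun h x hx => by
    obtain ⟨y, hy, hy1, _⟩ := hP h x hx
    exact ⟨y, hy, hy1⟩)
  have h₂ := imgP_inv α₂ κ₂ P (fun h x hx => by
    obtain ⟨y, hy, _, hy2⟩ := hP h x hx
    exact ⟨y, hy, hy2⟩)
  have hi := img_iso α₁ α₂ κ₁ κ₂ P hP h₁ h₂
  have hc : ActIso (subAct α₁ (fun z => ¬ imgP κ₁ P z) (not_inv h₁))
      (subAct α₂ (fun z => ¬ imgP κ₂ P z) (not_inv h₂)) := by
    apply actIso_of_fixN _ _ _ _ _ rfl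
    intro J
    have e1 := fixN_split α₁ _ h₁ J
    have e2 := fixN_split α₂ _ h₂ J
    have e3 := ActIso.fixN_eq (⟨_, hi⟩ : ActIso (subAct α₁ _ h₁) (subAct α₂ _ h₂)) J
    have e4 := hfix J
    omega
  obtain ⟨e, he, he2⟩ := glue α₁ α₂ _ h₁ _ h₂ _ hi hc
  refine ⟨e, he, fun x hx => ?_⟩
  have h3 : imgP κ₁ P (κ₁ x) := ⟨x, hx, rfl⟩
  rw [he2 _ h3]
  have h4 : (⟨κ₁ x, h3⟩ : {z // imgP κ₁ P z}) = imgEquiv κ₁ P ⟨x, hx⟩ := rfl
  rw [h4, Equiv.trans_apply, Equiv.symm_apply_apply]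
  rfl

end partialIso

lemma fixN_le_card {H X : Type} [Group H] [Finite X] (a : H →* Perm X) (J : Subgroup H) :
    fixN a J ≤ Nat.card X :=
  Nat.card_le_card_of_injective _ Subtype.val_injective

section core

variable {G₁ G₂ H : Type} [Group G₁] [Group G₂] [Group H] [Finite H]

/-- Core gluing statement with a linear bound. -/
theorem exists_core (i₁ : H →* G₁) (i₂ : H →* G₂)
    (hres : ∀ h, InRes G₁ (i₁ h) ↔ InRes G₂ (i₂ h)) :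
    ∃ C : ℕ, ∀ (A₁ : FAct G₁) (A₂ : FAct G₂) (X : Type) (κ₁ : X ↪ A₁.X) (κ₂ : X ↪ A₂.X)
      (P : X → Prop)
      (_ : ∀ h x, P x → ∃ y, P y ∧ A₁.a (i₁ h) (κ₁ x) = κ₁ y ∧ A₂.a (i₂ h) (κ₂ x) = κ₂ y),
      ∃ (Z : Type) (_ : Finite Z) (j₁ : A₁.X ↪ Z) (j₂ : A₂.X ↪ Z) (b₁ : G₁ →* Perm Z)
        (b₂ : G₂ →* Perm Z), (∀ g y, b₁ g (j₁ y) = j₁ (A₁.a g y)) ∧
        (∀ g y, b₂ g (j₂ y) = j₂ (A₂.a g y)) ∧ (∀ x, P x → j₁ (κ₁ x) = j₂ (κ₂ x)) ∧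
        (∀ h, b₁ (i₁ h) = b₂ (i₂ h)) ∧
        Nat.card Z + 2 * C * Nat.card {x // P x} ≤
          Nat.card A₁.X + C * (Nat.card A₁.X + Nat.card A₂.X) := by
  classical
  have := Fintype.ofFinite (Subgroup H)
  obtain ⟨C, hC⟩ := exists_bound i₁ i₂ hres
  refine ⟨C * Fintype.card (Subgroup H), ?_⟩
  intro A₁ A₂ X κ₁ κ₂ P hP
  have := A₁.fin
  have := A₂.fin
  set α₁ := A₁.a.comp i₁ with hα₁
  set α₂ := A₂.a.comp i₂ with hα₂
  have hP' : ∀ h x, P x → ∃ y, P y ∧ α₁ h (κ₁ x) = κ₁ y ∧ α₂ h (κ₂ x) = κ₂ y := hP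
  have h₁ := imgP_inv α₁ κ₁ P (fun h x hx => by
    obtain ⟨y, hy, hy1, _⟩ := hP' h x hx
    exact ⟨y, hy, hy1⟩)
  have h₂ := imgP_inv α₂ κ₂ P (fun h x hx => by
    obtain ⟨y, hy, _, hy2⟩ := hP' h x hx
    exact ⟨y, hy, hy2⟩)
  have hi := img_iso α₁ α₂ κ₁ κ₂ P hP' h₁ h₂
  set x₁ : Subgroup H → ℕ := fixN (subAct α₁ (fun z => ¬ imgP κ₁ P z) (not_inv h₁)) with hx₁
  set x₂ : Subgroup H → ℕ := fixN (subAct α₂ (fun z => ¬ imgP κ₂ P z) (not_inv h₂)) with hx₂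
  have e1 : ∀ J, marks i₁ A₁ J = fixN (subAct α₁ _ h₁) J + x₁ J := fun J => fixN_split α₁ _ h₁ J
  have e2 : ∀ J, marks i₂ A₂ J = fixN (subAct α₂ _ h₂) J + x₂ J := fun J => fixN_split α₂ _ h₂ J
  have e3 : ∀ J, fixN (subAct α₁ _ h₁) J = fixN (subAct α₂ _ h₂) J := fun J =>
    ActIso.fixN_eq (⟨_, hi⟩ : ActIso (subAct α₁ _ h₁) (subAct α₂ _ h₂)) J
  have hmem : ((x₁, x₂) : (Subgroup H → ℕ) × (Subgroup H → ℕ)) ∈ matchSub i₁ i₂ := by
    obtain ⟨B₁, B₂, hB⟩ := exists_match i₁ i₂ hres A₁ A₂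
    refine ⟨B₁, B₂, fun J => ?_⟩
    have := hB J
    have := e1 J
    have := e2 J
    have := e3 J
    simp only
    omega
  obtain ⟨R₁, R₂, hR, hRc⟩ := hC _ hmem
  have := R₁.fin
  have := R₂.fin
  have hfix : ∀ J, fixN ((sumAct A₁.a R₁.a).comp i₁) J = fixN ((sumAct A₂.a R₂.a).comp i₂) J := by
    intro J
    have k1 : fixN ((sumAct A₁.a R₁.a).comp i₁) J = marks i₁ A₁ J + marks i₁ R₁ J :=
      marks_add i₁ A₁ R₁ J
    have k2 : fixN ((sumAct A₂.a R₂.a).comp i₂) J = marks i₂ A₂ J + marks i₂ R₂ J :=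
      marks_add i₂ A₂ R₂ J
    have := hR J
    have := e1 J
    have := e2 J
    have := e3 J
    simp only at *
    omega
  obtain ⟨e, he, heP⟩ := extend_iso ((sumAct A₁.a R₁.a).comp i₁) ((sumAct A₂.a R₂.a).comp i₂)
    (κ₁.trans Function.Embedding.inl) (κ₂.trans Function.Embedding.inl) P (by
      intro h x hx
      obtain ⟨y, hy, hy1, hy2⟩ := hP h x hx
      refine ⟨y, hy, ?_, ?_⟩
      · exact congrArg Sum.inl hy1
      · exact congrArg Sum.inl hy2) hfix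
  refine ⟨A₁.X ⊕ R₁.X, inferInstance, Function.Embedding.inl,
    Function.Embedding.inl.trans e.symm.toEmbedding, sumAct A₁.a R₁.a,
    (e.symm.permCongrHom.toMonoidHom).comp (sumAct A₂.a R₂.a), ?_, ?_, ?_, ?_, ?_⟩
  · intro g y
    rfl
  · intro g y
    change e.symm ((sumAct A₂.a R₂.a g) (e (e.symm (Sum.inl y)))) = e.symm (Sum.inl (A₂.a g y))
    rw [Equiv.apply_symm_apply]
    rfl
  · intro x hx
    have := heP x hx
    change e (Sum.inl (κ₁ x)) = Sum.inl (κ₂ x) at this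
    change Sum.inl (κ₁ x) = e.symm (Sum.inl (κ₂ x))
    rw [← this, Equiv.symm_apply_apply]
  · intro h
    apply Equiv.ext
    intro z
    change sumAct A₁.a R₁.a (i₁ h) z = e.symm ((sumAct A₂.a R₂.a (i₂ h)) (e z))
    rw [Equiv.eq_symm_apply]
    exact he h z
  · have hs : ∑ J, (x₁ J + x₂ J) ≤ Fintype.card (Subgroup H) *
        (Nat.card {z // ¬ imgP κ₁ P z} + Nat.card {z // ¬ imgP κ₂ P z}) := by
      calc ∑ J, (x₁ J + x₂ J) ≤ ∑ _J : Subgroup H,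
            (Nat.card {z // ¬ imgP κ₁ P z} + Nat.card {z // ¬ imgP κ₂ P z}) := by
            apply Finset.sum_le_sum
            intro J _
            exact add_le_add (fixN_le_card _ _) (fixN_le_card _ _)
        _ = _ := by rw [Finset.sum_const, Finset.card_univ, smul_eq_mul]
    have c1 : Nat.card A₁.X = Nat.card {x // P x} + Nat.card {z // ¬ imgP κ₁ P z} := by
      rw [Nat.card_congr (imgEquiv κ₁ P), ← Nat.card_sum]
      exact Nat.card_congr (Equiv.sumCompl _).symm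
    have c2 : Nat.card A₂.X = Nat.card {x // P x} + Nat.card {z // ¬ imgP κ₂ P z} := by
      rw [Nat.card_congr (imgEquiv κ₂ P), ← Nat.card_sum]
      exact Nat.card_congr (Equiv.sumCompl _).symm
    have c3 : Nat.card R₁.X ≤ C * Fintype.card (Subgroup H) *
        (Nat.card {z // ¬ imgP κ₁ P z} + Nat.card {z // ¬ imgP κ₂ P z}) := by
      calc Nat.card R₁.X ≤ Nat.card R₁.X + Nat.card R₂.X := Nat.le_add_right _ _
        _ ≤ C * ∑ J, (x₁ J + x₂ J) := hRc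
        _ ≤ C * (Fintype.card (Subgroup H) *
          (Nat.card {z // ¬ imgP κ₁ P z} + Nat.card {z // ¬ imgP κ₂ P z})) :=
            Nat.mul_le_mul_left _ hs
        _ = _ := by ring
    rw [Nat.card_sum]
    set K := C * Fintype.card (Subgroup H)
    set p := Nat.card {x // P x}
    set d₁ := Nat.card {z // ¬ imgP κ₁ P z}
    set d₂ := Nat.card {z // ¬ imgP κ₂ P z}
    rw [c1, c2]
    nlinarith [c3]

end core

end Pool.Agent.Helper94
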