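import Mathlib
import Pool.Agent.Helper94.StabDefs

/-!
Counting estimates for words, independence of the generating set.
-/

namespace Pool.Agent.Helper94

open Equiv

section words

variable {S X Y : Type}

/-- number of bad points for a word -/
noncomputable def bad [Finite X] (φ : FreeGroup S →* Perm X) (ψ : FreeGroup S →* Perm Y)
    (ι : X ↪ Y) (w : FreeGroup S) : ℕ :=
  Nat.card {x : X // ψ w (ι x) ≠ ι (φ w x)}

lemma card_le_of_imp [Finite X] {P Q : X → Prop} (h : ∀ x, P x → Q x) :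
    Nat.card {x // P x} ≤ Nat.card {x // Q x} :=
  Nat.card_le_card_of_injective (fun x => (⟨x.1, h x.1 x.2⟩ : {x // Q x})) (by
    intro x x' hx
    exact Subtype.ext (Subtype.mk.inj hx))

lemma card_or_le [Finite X] (P Q : X → Prop) :
    Nat.card {x // P x ∨ Q x} ≤ Nat.card {x // P x} + Nat.card {x // Q x} := by
  classical
  rw [← Nat.card_sum]
  refine Nat.card_le_card_of_surjective
    (Sum.elim (fun x => ⟨x.1, Or.inl x.2⟩) (fun x => ⟨x.1, Or.inr x.2⟩)) ?_
  rintro ⟨x, hx | hx⟩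
  · exact ⟨Sum.inl ⟨x, hx⟩, rfl⟩
  · exact ⟨Sum.inr ⟨x, hx⟩, rfl⟩

lemma card_perm_eq (σ : Perm X) (P : X → Prop) :
    Nat.card {x // P (σ x)} = Nat.card {x // P x} :=
  Nat.card_congr (σ.subtypeEquiv (fun _ => Iff.rfl))

lemma bad_one [Finite X] (φ : FreeGroup S →* Perm X) (ψ : FreeGroup S →* Perm Y) (ι : X ↪ Y) :
    bad φ ψ ι 1 = 0 := by
  unfold bad
  rw [Nat.card_eq_zero]
  left
  constructor
  rintro ⟨x, hx⟩
  apply hx
  rw [map_one, map_one]
  rfl

lemma bad_mul [Finite X] (φ : FreeGroup S →* Perm X) (ψ : FreeGroup S →* Perm Y) (ι : X ↪ Y)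
    (v w : FreeGroup S) : bad φ ψ ι (v * w) ≤ bad φ ψ ι v + bad φ ψ ι w := by
  unfold bad
  calc Nat.card {x : X // ψ (v * w) (ι x) ≠ ι (φ (v * w) x)}
      ≤ Nat.card {x : X // ψ v (ι (φ w x)) ≠ ι (φ v (φ w x)) ∨ ψ w (ι x) ≠ ι (φ w x)} := by
        apply card_le_of_imp
        intro x hx
        by_contra hcon
        push Not at hcon
        apply hx
        rw [map_mul, map_mul, Perm.mul_apply, Perm.mul_apply, hcon.2, hcon.1]
    _ ≤ Nat.card {x : X // ψ v (ι (φ w x)) ≠ ι (φ v (φ w x))} +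
        Nat.card {x : X // ψ w (ι x) ≠ ι (φ w x)} := card_or_le _ _
    _ = _ := by
        congr 1
        exact card_perm_eq (φ w) (fun x => ψ v (ι x) ≠ ι (φ v x))

lemma bad_inv [Finite X] (φ : FreeGroup S →* Perm X) (ψ : FreeGroup S →* Perm Y) (ι : X ↪ Y)
    (w : FreeGroup S) : bad φ ψ ι w⁻¹ = bad φ ψ ι w := by
  unfold bad
  rw [← card_perm_eq (φ w) (fun x => ψ w⁻¹ (ι x) ≠ ι (φ w⁻¹ x))]
  refine Nat.card_congr (Equiv.subtypeEquivRight (fun x => not_congr ?_))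
  have h1 : φ w⁻¹ (φ w x) = x := by
    rw [map_inv]
    exact Equiv.symm_apply_apply _ _
  rw [h1, map_inv]
  constructor
  · intro h
    rw [← h]
    exact Equiv.apply_symm_apply (ψ w) _
  · intro h
    rw [← h]
    exact Equiv.symm_apply_apply (ψ w) _

/-- A uniform bound for each word. -/
lemma exists_word_bound (w : FreeGroup S) : ∃ L : ℕ, ∀ (X Y : Type) [Finite X]
    (φ : FreeGroup S →* Perm X) (ψ : FreeGroup S →* Perm Y) (ι : X ↪ Y) (B : ℝ),
    (∀ s, (bad φ ψ ι (FreeGroup.of s) : ℝ) ≤ B) → 0 ≤ B → (bad φ ψ ι w : ℝ) ≤ L * B := by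
  induction w using FreeGroup.induction_on with
  | C1 =>
    refine ⟨0, ?_⟩
    intro X Y _ φ ψ ι B _ _
    rw [bad_one]
    simp
  | of s =>
    refine ⟨1, ?_⟩
    intro X Y _ φ ψ ι B hB _
    rw [Nat.cast_one, one_mul]
    exact hB s
  | inv_of s _ =>
    refine ⟨1, ?_⟩
    intro X Y _ φ ψ ι B hB _
    rw [bad_inv, Nat.cast_one, one_mul]
    exact hB s
  | mul v w hv hw =>
    obtain ⟨L₁, h₁⟩ := hv
    obtain ⟨L₂, h₂⟩ := hw
    refine ⟨L₁ + L₂, ?_⟩
    intro X Y _ φ ψ ι B hB hB0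
    have := h₁ X Y φ ψ ι B hB hB0
    have := h₂ X Y φ ψ ι B hB hB0
    have h3 : (bad φ ψ ι (v * w) : ℝ) ≤ bad φ ψ ι v + bad φ ψ ι w := by
      exact_mod_cast bad_mul φ ψ ι v w
    push_cast
    linarith

end words

/-- Working form of the definition. -/
def FlexOn' {G : Type} [Group G] (S : Type) (g : S → G) : Prop :=
  ∀ ε : ℝ, 0 < ε → ∃ δ : ℝ, 0 < δ ∧ ∃ E : Finset (FreeGroup S),
    (∀ e ∈ E, FreeGroup.lift g e = 1) ∧
    ∀ (X : Type) [Finite X] [Nonempty X] (φ : FreeGroup S →* Perm X),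
      (∀ e ∈ E, (Nat.card {x : X // φ e x ≠ x} : ℝ) ≤ δ * Nat.card X) →
      ∃ (Y : Type) (_ : Finite Y) (ι : X ↪ Y) (ψ : G →* Perm Y),
        (Nat.card Y : ℝ) ≤ (1 + ε) * (Nat.card X : ℝ) ∧
        ∀ (s : S), (bad φ (ψ.comp (FreeGroup.lift g)) ι (FreeGroup.of s) : ℝ) ≤ ε * Nat.card X

lemma exists_restriction {X Y : Type} [Finite X] (ι : X ↪ Y) (τ : Perm Y) :
    ∃ ρ : Perm X, ∀ x x' : X, τ (ι x) = ι x' → ρ x = x' := by
  classical
  let p : X → Prop := fun x => ∃ x', τ (ι x) = ι x'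
  let q : X → Prop := fun x' => ∃ x, τ (ι x) = ι x'
  let f : {x // p x} → {x // q x} := fun x => ⟨x.2.choose, x.1, x.2.choose_spec⟩
  have hf : ∀ x : {x // p x}, τ (ι x) = ι (f x) := fun x => x.2.choose_spec
  have hbij : Function.Bijective f := by
    constructor
    · intro x x' hxx
      apply Subtype.ext
      apply ι.injective
      apply τ.injective
      rw [hf, hf, hxx]
    · rintro ⟨x', x, hx⟩
      refine ⟨⟨x, x', hx⟩, ?_⟩
      apply Subtype.ext
      apply ι.injective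
      rw [← hf, hx]
  let e : {x // p x} ≃ {x // q x} := Equiv.ofBijective f hbij
  refine ⟨e.extendSubtype, ?_⟩
  intro x x' hxx
  rw [Equiv.extendSubtype_apply_of_mem e x ⟨x', hxx⟩]
  apply ι.injective
  change ι (f ⟨x, ⟨x', hxx⟩⟩) = ι x'
  rw [← hf]
  exact hxx

lemma permDist_one_le {X : Type} [Finite X] [Nonempty X] (σ : Perm X) (δ : ℝ) :
    permDist σ 1 ≤ δ ↔ (Nat.card {x : X // σ x ≠ x} : ℝ) ≤ δ * Nat.card X := by
  unfold permDist
  have : (0 : ℝ) < Nat.card X := by exact_mod_cast Nat.card_pos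
  rw [div_le_iff₀ this]
  rfl

lemma flexOn_of_flexOn' {G S : Type} [Group G] (g : S → G) (h : FlexOn' S g) :
    FlexPStableOn S g := by
  intro ε hε
  obtain ⟨δ, hδ, E, hE, hmain⟩ := h ε hε
  refine ⟨δ, hδ, E, hE, ?_⟩
  intro X _ _ φ hφ
  obtain ⟨Y, hY, ι, ψ, h1, h2⟩ := hmain X φ (fun e he => (permDist_one_le _ _).1 (hφ e he))
  refine ⟨Y, hY, ι, ψ, h1, ?_⟩
  intro s ρ hρ
  have hX : (0 : ℝ) < Nat.card X := by exact_mod_cast Nat.card_pos
  unfold permDist
  rw [div_le_iff₀ hX]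
  refine le_trans ?_ (h2 s)
  unfold bad
  norm_cast
  apply card_le_of_imp
  intro x hx hcon
  apply hx
  rw [MonoidHom.comp_apply, FreeGroup.lift_apply_of] at hcon
  exact (hρ x _ hcon).symm

lemma flexOn'_of_flexOn {G S : Type} [Group G] (g : S → G) (h : FlexPStableOn S g) :
    FlexOn' S g := by
  intro ε hε
  obtain ⟨δ, hδ, E, hE, hmain⟩ := h (ε / 2) (by linarith)
  refine ⟨δ, hδ, E, hE, ?_⟩
  intro X _ _ φ hφ
  obtain ⟨Y, hY, ι, ψ, h1, h2⟩ := hmain X φ (fun e he => (permDist_one_le _ _).2 (hφ e he))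
  have hX : (0 : ℝ) < Nat.card X := by exact_mod_cast Nat.card_pos
  refine ⟨Y, hY, ι, ψ, ?_, ?_⟩
  · refine h1.trans ?_
    apply mul_le_mul_of_nonneg_right _ hX.le
    linarith
  · intro s
    obtain ⟨ρ, hρ⟩ := exists_restriction ι (ψ (g s))
    have h3 := h2 s ρ hρ
    unfold permDist at h3
    rw [div_le_iff₀ hX] at h3
    have h4 : bad φ (ψ.comp (FreeGroup.lift g)) ι (FreeGroup.of s) ≤
        Nat.card {x : X // φ (FreeGroup.of s) x ≠ ρ x} +
        Nat.card {x : X // ¬ ∃ x', ψ (g s) (ι x) = ι x'} := by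
      unfold bad
      refine le_trans ?_ (card_or_le _ _)
      apply card_le_of_imp
      intro x hx
      by_contra hcon
      push Not at hcon
      obtain ⟨hc1, x', hc2⟩ := hcon
      apply hx
      rw [MonoidHom.comp_apply, FreeGroup.lift_apply_of, hc1, hc2, hρ x x' hc2]
    have h5 : Nat.card {x : X // ¬ ∃ x', ψ (g s) (ι x) = ι x'} + Nat.card X ≤ Nat.card Y := by
      rw [← Nat.card_sum]
      refine Nat.card_le_card_of_injective
        (Sum.elim (fun x => ψ (g s) (ι x.1)) (fun x => ι x)) ?_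
      refine Function.Injective.sumElim ?_ ι.injective ?_
      · intro x x' hxx
        exact Subtype.ext (ι.injective ((ψ (g s)).injective hxx))
      · intro x x' hxx
        exact x.2 ⟨x', hxx⟩
    have h6 : (Nat.card {x : X // ¬ ∃ x', ψ (g s) (ι x) = ι x'} : ℝ) + Nat.card X ≤
        Nat.card Y := by exact_mod_cast h5
    have h7 : (bad φ (ψ.comp (FreeGroup.lift g)) ι (FreeGroup.of s) : ℝ) ≤
        Nat.card {x : X // φ (FreeGroup.of s) x ≠ ρ x} +
        Nat.card {x : X // ¬ ∃ x', ψ (g s) (ι x) = ι x'} := by exact_mod_cast h4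
    nlinarith

end Pool.Agent.Helper94
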