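import Mathlib
import Pool.Agent.Helper94.Core
import Pool.Agent.Helper94.Words

/-!
Flexible stability in permutations of amalgamated free products over finite groups.
-/

namespace Pool.Agent.Helper94

open Equiv

/-- Independence of the generating family. -/
lemma flexOn'_indep {G S T : Type} [Group G] [Finite T] (g : S → G) (t : T → G)
    (hg : Subgroup.closure (Set.range g) = ⊤) (ht : Subgroup.closure (Set.range t) = ⊤)
    (h : FlexOn' S g) : FlexOn' T t := by
  classical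
  have := Fintype.ofFinite T
  rw [← FreeGroup.lift_surjective_iff_closure_range_eq_top] at hg ht
  choose w hw using fun s : S => ht (g s)
  choose v hv using fun x : T => hg (t x)
  let θ : FreeGroup S →* FreeGroup T := FreeGroup.lift w
  have hθ : (FreeGroup.lift t).comp θ = FreeGroup.lift g := by
    apply FreeGroup.ext_hom
    intro s
    rw [MonoidHom.comp_apply, FreeGroup.lift_apply_of, FreeGroup.lift_apply_of, hw]
  choose L hL using fun x : T => exists_word_bound (v x)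
  intro ε hε
  set M : ℝ := ∑ x : T, (L x : ℝ) with hM
  have hM0 : 0 ≤ M := Finset.sum_nonneg (fun x _ => Nat.cast_nonneg _)
  have hLM : ∀ x, (L x : ℝ) ≤ M := fun x =>
    Finset.single_le_sum (f := fun x => (L x : ℝ)) (fun y _ => Nat.cast_nonneg _)
      (Finset.mem_univ x)
  set ε' : ℝ := ε / (2 * (M + 1)) with hε'
  have hM1 : 0 < 2 * (M + 1) := by linarith
  have hε'0 : 0 < ε' := div_pos hε hM1
  have hε'eq : ε' * (2 * (M + 1)) = ε := div_mul_cancel₀ _ hM1.ne'
  have hMε : 0 ≤ M * ε' := mul_nonneg hM0 hε'0.le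
  obtain ⟨δ, hδ, E, hE, hmain⟩ := h ε' hε'0
  refine ⟨min δ (ε / 2), lt_min hδ (by linarith),
    E.image θ ∪ Finset.univ.image (fun x : T => (θ (v x))⁻¹ * FreeGroup.of x), ?_, ?_⟩
  · intro e he
    rw [Finset.mem_union, Finset.mem_image, Finset.mem_image] at he
    rcases he with ⟨e', he', rfl⟩ | ⟨x, _, rfl⟩
    · have : FreeGroup.lift t (θ e') = ((FreeGroup.lift t).comp θ) e' := rfl
      rw [this, hθ, hE e' he']
    · rw [map_mul, map_inv, FreeGroup.lift_apply_of]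
      have : FreeGroup.lift t (θ (v x)) = ((FreeGroup.lift t).comp θ) (v x) := rfl
      rw [this, hθ, hv, inv_mul_cancel]
  · intro X _ _ φ hφ
    have hX : (0 : ℝ) < Nat.card X := by exact_mod_cast Nat.card_pos
    obtain ⟨Y, hY, ι, ψ, h1, h2⟩ := hmain X (φ.comp θ) (by
      intro e he
      refine (hφ (θ e) (Finset.mem_union_left _ (Finset.mem_image_of_mem _ he))).trans ?_
      exact mul_le_mul_of_nonneg_right (min_le_left _ _) hX.le)
    refine ⟨Y, hY, ι, ψ, ?_, ?_⟩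
    · refine h1.trans ?_
      apply mul_le_mul_of_nonneg_right _ hX.le
      nlinarith
    · intro x
      have h3 := hL x X Y (φ.comp θ) (ψ.comp (FreeGroup.lift g)) ι (ε' * Nat.card X) h2
        (mul_nonneg hε'0.le hX.le)
      have h4 := hφ ((θ (v x))⁻¹ * FreeGroup.of x)
        (Finset.mem_union_right _ (Finset.mem_image_of_mem _ (Finset.mem_univ x)))
      have h5 : bad φ (ψ.comp (FreeGroup.lift t)) ι (FreeGroup.of x) ≤
          bad (φ.comp θ) (ψ.comp (FreeGroup.lift g)) ι (v x) +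
          Nat.card {y : X // φ ((θ (v x))⁻¹ * FreeGroup.of x) y ≠ y} := by
        unfold bad
        refine le_trans ?_ (card_or_le _ _)
        apply card_le_of_imp
        intro y hy
        by_contra hcon
        push Not at hcon
        obtain ⟨hc1, hc2⟩ := hcon
        apply hy
        have hc3 : φ (FreeGroup.of x) y = φ (θ (v x)) y := by
          rw [map_mul, Perm.mul_apply, map_inv, Perm.inv_eq_iff_eq] at hc2
          exact hc2
        rw [hc3]
        rw [MonoidHom.comp_apply, MonoidHom.comp_apply, hv] at hc1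
        rw [MonoidHom.comp_apply, FreeGroup.lift_apply_of, hc1]
      have h6 : (bad φ (ψ.comp (FreeGroup.lift t)) ι (FreeGroup.of x) : ℝ) ≤
          bad (φ.comp θ) (ψ.comp (FreeGroup.lift g)) ι (v x) +
          Nat.card {y : X // φ ((θ (v x))⁻¹ * FreeGroup.of x) y ≠ y} := by exact_mod_cast h5
      have h7 : min δ (ε / 2) * (Nat.card X : ℝ) ≤ ε / 2 * Nat.card X :=
        mul_le_mul_of_nonneg_right (min_le_right _ _) hX.le
      have h8 : (L x : ℝ) * (ε' * Nat.card X) ≤ ε / 2 * Nat.card X := by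
        rw [← mul_assoc]
        apply mul_le_mul_of_nonneg_right _ hX.le
        have := mul_le_mul_of_nonneg_right (hLM x) hε'0.le
        nlinarith
      calc _ ≤ _ := h6
        _ ≤ ε / 2 * Nat.card X + ε / 2 * Nat.card X := add_le_add (h3.trans h8) (h4.trans h7)
        _ = ε * Nat.card X := by ring

section amalg

variable {G₁ G₂ H : Type} [Group G₁] [Group G₂] [Group H]

/-- first factor -/
def am₁ (i₁ : H →* G₁) (i₂ : H →* G₂) : G₁ →* Amalgam i₁ i₂ :=
  (QuotientGroup.mk' _).comp Monoid.Coprod.inl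

/-- second factor -/
def am₂ (i₁ : H →* G₁) (i₂ : H →* G₂) : G₂ →* Amalgam i₁ i₂ :=
  (QuotientGroup.mk' _).comp Monoid.Coprod.inr

lemma am_eq (i₁ : H →* G₁) (i₂ : H →* G₂) (h : H) : am₁ i₁ i₂ (i₁ h) = am₂ i₁ i₂ (i₂ h) := by
  change (QuotientGroup.mk' _) (Monoid.Coprod.inl (i₁ h)) =
    (QuotientGroup.mk' _) (Monoid.Coprod.inr (i₂ h))
  rw [← mul_inv_eq_one, ← map_inv, ← map_mul]
  exact (QuotientGroup.eq_one_iff _).2 (Subgroup.subset_normalClosure ⟨h, rfl⟩)

/-- universal property -/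
def amLift (i₁ : H →* G₁) (i₂ : H →* G₂) {K : Type} [Group K] (b₁ : G₁ →* K) (b₂ : G₂ →* K)
    (hb : ∀ h, b₁ (i₁ h) = b₂ (i₂ h)) : Amalgam i₁ i₂ →* K :=
  QuotientGroup.lift _ (Monoid.Coprod.lift b₁ b₂) (by
    have : Subgroup.normalClosure
      (Set.range (fun h : H => Monoid.Coprod.inl (i₁ h) * (Monoid.Coprod.inr (i₂ h))⁻¹ :
        H → Monoid.Coprod G₁ G₂)) ≤ (Monoid.Coprod.lift b₁ b₂).ker := by
      apply Subgroup.normalClosure_le_normal
      rintro _ ⟨h, rfl⟩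
      change (Monoid.Coprod.lift b₁ b₂) _ = 1
      rw [map_mul, map_inv, Monoid.Coprod.lift_apply_inl, Monoid.Coprod.lift_apply_inr, hb,
        mul_inv_cancel]
    intro x hx
    exact this hx)

lemma amLift_am₁ (i₁ : H →* G₁) (i₂ : H →* G₂) {K : Type} [Group K] (b₁ : G₁ →* K)
    (b₂ : G₂ →* K) (hb : ∀ h, b₁ (i₁ h) = b₂ (i₂ h)) (x : G₁) :
    amLift i₁ i₂ b₁ b₂ hb (am₁ i₁ i₂ x) = b₁ x := rfl

lemma amLift_am₂ (i₁ : H →* G₁) (i₂ : H →* G₂) {K : Type} [Group K] (b₁ : G₁ →* K)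
    (b₂ : G₂ →* K) (hb : ∀ h, b₁ (i₁ h) = b₂ (i₂ h)) (x : G₂) :
    amLift i₁ i₂ b₁ b₂ hb (am₂ i₁ i₂ x) = b₂ x := rfl

lemma closure_am (i₁ : H →* G₁) (i₂ : H →* G₂) {S₁ S₂ : Type} (g₁ : S₁ → G₁) (g₂ : S₂ → G₂)
    (h₁ : Subgroup.closure (Set.range g₁) = ⊤) (h₂ : Subgroup.closure (Set.range g₂) = ⊤) :
    Subgroup.closure (Set.range (Sum.elim (am₁ i₁ i₂ ∘ g₁) (am₂ i₁ i₂ ∘ g₂))) = ⊤ := by
  rw [eq_top_iff]
  have k1 : (am₁ i₁ i₂).range ≤
      Subgroup.closure (Set.range (Sum.elim (am₁ i₁ i₂ ∘ g₁) (am₂ i₁ i₂ ∘ g₂))) := by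
    rw [MonoidHom.range_eq_map, ← h₁, MonoidHom.map_closure]
    apply Subgroup.closure_mono
    rintro _ ⟨_, ⟨s, rfl⟩, rfl⟩
    exact ⟨Sum.inl s, rfl⟩
  have k2 : (am₂ i₁ i₂).range ≤
      Subgroup.closure (Set.range (Sum.elim (am₁ i₁ i₂ ∘ g₁) (am₂ i₁ i₂ ∘ g₂))) := by
    rw [MonoidHom.range_eq_map, ← h₂, MonoidHom.map_closure]
    apply Subgroup.closure_mono
    rintro _ ⟨_, ⟨s, rfl⟩, rfl⟩
    exact ⟨Sum.inr s, rfl⟩
  have k3 : (⊤ : Subgroup (Amalgam i₁ i₂)) = (am₁ i₁ i₂).range ⊔ (am₂ i₁ i₂).range := by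
    have e1 : (am₁ i₁ i₂).range =
        (MonoidHom.range (Monoid.Coprod.inl : G₁ →* Monoid.Coprod G₁ G₂)).map
          (QuotientGroup.mk' (Subgroup.normalClosure
      (Set.range (fun h : H => Monoid.Coprod.inl (i₁ h) * (Monoid.Coprod.inr (i₂ h))⁻¹ :
        H → Monoid.Coprod G₁ G₂)))) := by
      rw [← MonoidHom.range_comp]
      rfl
    have e2 : (am₂ i₁ i₂).range =
        (MonoidHom.range (Monoid.Coprod.inr : G₂ →* Monoid.Coprod G₁ G₂)).map
          (QuotientGroup.mk' (Subgroup.normalClosure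
      (Set.range (fun h : H => Monoid.Coprod.inl (i₁ h) * (Monoid.Coprod.inr (i₂ h))⁻¹ :
        H → Monoid.Coprod G₁ G₂)))) := by
      rw [← MonoidHom.range_comp]
      rfl
    rw [e1, e2, ← Subgroup.map_sup, Monoid.Coprod.range_inl_sup_range_inr,
      ← MonoidHom.range_eq_map]
    exact (MonoidHom.range_eq_top.2 (QuotientGroup.mk'_surjective _)).symm
  rw [k3]
  exact sup_le k1 k2

end amalg

end Pool.Agent.Helper94
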