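import Mathlib
import Pool.Agent.Helper94.Main

/-!
Flexible stability in permutations of amalgamated free products over finite groups: main estimate.
-/

namespace Pool.Agent.Helper94

open Equiv

lemma card_not_forall_le {X ι : Type} [Finite X] [Fintype ι] (Q : ι → X → Prop) :
    Nat.card {x // ¬ ∀ i, Q i x} ≤ ∑ i, Nat.card {x // ¬ Q i x} := by
  classical
  have := Fintype.ofFinite X
  have e1 : Nat.card {x // ¬ ∀ i, Q i x} =
      ((Finset.univ : Finset ι).biUnion (fun i => Finset.univ.filter (fun x => ¬ Q i x))).card := by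
    rw [Nat.card_eq_fintype_card, Fintype.card_subtype]
    congr 1
    ext x
    simp
  rw [e1]
  refine Finset.card_biUnion_le.trans (le_of_eq ?_)
  apply Finset.sum_congr rfl
  intro i _
  rw [Nat.card_eq_fintype_card, Fintype.card_subtype]

lemma card_pred_add {X : Type} [Finite X] (P : X → Prop) :
    Nat.card {x // P x} + Nat.card {x // ¬ P x} = Nat.card X := by
  classical
  rw [← Nat.card_sum]
  exact Nat.card_congr (Equiv.sumCompl P)

section

variable {G₁ G₂ H : Type} [Group G₁] [Group G₂] [Group H] [Finite H]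

/-- Main estimate. -/
theorem flexOn'_amalgam (i₁ : H →* G₁) (i₂ : H →* G₂)
    (hres : ∀ h, InRes G₁ (i₁ h) ↔ InRes G₂ (i₂ h)) {S₁ S₂ : Type}
    (g₁ : S₁ → G₁) (g₂ : S₂ → G₂)
    (hg₁ : Subgroup.closure (Set.range g₁) = ⊤) (hg₂ : Subgroup.closure (Set.range g₂) = ⊤)
    (hf₁ : FlexOn' S₁ g₁) (hf₂ : FlexOn' S₂ g₂) :
    FlexOn' (S₁ ⊕ S₂) (Sum.elim (am₁ i₁ i₂ ∘ g₁) (am₂ i₁ i₂ ∘ g₂)) := by
  classical
  have := Fintype.ofFinite H
  obtain ⟨C, hC⟩ := exists_core i₁ i₂ hres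
  rw [← FreeGroup.lift_surjective_iff_closure_range_eq_top] at hg₁ hg₂
  choose u hu using fun h : H => hg₁ (i₁ h)
  choose v hv using fun h : H => hg₂ (i₂ h)
  choose L₁ hL₁ using fun h : H => exists_word_bound (u h)
  choose L₂ hL₂ using fun h : H => exists_word_bound (v h)
  let a₁ : FreeGroup S₁ →* FreeGroup (S₁ ⊕ S₂) := FreeGroup.map Sum.inl
  let a₂ : FreeGroup S₂ →* FreeGroup (S₁ ⊕ S₂) := FreeGroup.map Sum.inr
  set g : S₁ ⊕ S₂ → Amalgam i₁ i₂ := Sum.elim (am₁ i₁ i₂ ∘ g₁) (am₂ i₁ i₂ ∘ g₂) with hgdef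
  have ha₁ : ∀ w, FreeGroup.lift g (a₁ w) = am₁ i₁ i₂ (FreeGroup.lift g₁ w) := by
    have : (FreeGroup.lift g).comp a₁ = (am₁ i₁ i₂).comp (FreeGroup.lift g₁) := by
      apply FreeGroup.ext_hom
      intro s
      simp [a₁, hgdef]
    intro w
    exact DFunLike.congr_fun this w
  have ha₂ : ∀ w, FreeGroup.lift g (a₂ w) = am₂ i₁ i₂ (FreeGroup.lift g₂ w) := by
    have : (FreeGroup.lift g).comp a₂ = (am₂ i₁ i₂).comp (FreeGroup.lift g₂) := by
      apply FreeGroup.ext_hom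
      intro s
      simp [a₂, hgdef]
    intro w
    exact DFunLike.congr_fun this w
  intro ε hε
  set n : ℝ := (Fintype.card H : ℝ) with hn
  set L : ℝ := ∑ h : H, ((L₁ h : ℝ) + (L₂ h : ℝ)) with hL
  have hn0 : 0 ≤ n := Nat.cast_nonneg _
  have hL0 : 0 ≤ L := Finset.sum_nonneg (fun x _ => by positivity)
  have hC0 : (0 : ℝ) ≤ C := Nat.cast_nonneg _
  set K : ℝ := (1 + n) * (L + n) with hK
  have hK0 : 0 ≤ K := by positivity
  set M : ℝ := 1 + 2 * C + (2 * C + 2) * K with hM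
  have hM0 : 0 < M := by positivity
  set ε' : ℝ := ε / M with hε'
  have hε'0 : 0 < ε' := div_pos hε hM0
  have hε'eq : ε' * M = ε := div_mul_cancel₀ _ hM0.ne'
  obtain ⟨δ₁, hδ₁, E₁, hE₁, hmain₁⟩ := hf₁ ε' hε'0
  obtain ⟨δ₂, hδ₂, E₂, hE₂, hmain₂⟩ := hf₂ ε' hε'0
  refine ⟨min ε' (min δ₁ δ₂), lt_min hε'0 (lt_min hδ₁ hδ₂),
    (E₁.image a₁ ∪ E₂.image a₂) ∪ Finset.univ.image (fun h : H => (a₂ (v h))⁻¹ * a₁ (u h)),
    ?_, ?_⟩
  · intro e he
    rw [Finset.mem_union, Finset.mem_union, Finset.mem_image, Finset.mem_image,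
      Finset.mem_image] at he
    rcases he with (⟨e', he', rfl⟩ | ⟨e', he', rfl⟩) | ⟨h, _, rfl⟩
    · rw [ha₁, hE₁ e' he', map_one]
    · rw [ha₂, hE₂ e' he', map_one]
    · rw [map_mul, map_inv, ha₁, ha₂, hu, hv, am_eq, inv_mul_cancel]
  · intro X _ _ φ hφ
    have hX : (0 : ℝ) < Nat.card X := by exact_mod_cast Nat.card_pos
    set N : ℝ := (Nat.card X : ℝ) with hN
    set δ : ℝ := min ε' (min δ₁ δ₂) with hδdef
    have hδε : δ ≤ ε' := min_le_left _ _
    have hδδ₁ : δ ≤ δ₁ := (min_le_right _ _).trans (min_le_left _ _)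
    have hδδ₂ : δ ≤ δ₂ := (min_le_right _ _).trans (min_le_right _ _)
    obtain ⟨Y₁, hY₁, κ₁, ψ₁, hc₁, hb₁⟩ := hmain₁ X (φ.comp a₁) (by
      intro e he
      refine (hφ (a₁ e) (Finset.mem_union_left _ (Finset.mem_union_left _
        (Finset.mem_image_of_mem _ he)))).trans ?_
      exact mul_le_mul_of_nonneg_right hδδ₁ hX.le)
    obtain ⟨Y₂, hY₂, κ₂, ψ₂, hc₂, hb₂⟩ := hmain₂ X (φ.comp a₂) (by
      intro e he
      refine (hφ (a₂ e) (Finset.mem_union_left _ (Finset.mem_union_right _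
        (Finset.mem_image_of_mem _ he)))).trans ?_
      exact mul_le_mul_of_nonneg_right hδδ₂ hX.le)
    -- good points
    let Q : H → X → Prop := fun h x => ψ₁ (i₁ h) (κ₁ x) = κ₁ (φ (a₁ (u h)) x) ∧
      ψ₂ (i₂ h) (κ₂ x) = κ₂ (φ (a₂ (v h)) x) ∧ φ (a₁ (u h)) x = φ (a₂ (v h)) x
    let G0 : X → Prop := fun x => ∀ h, Q h x
    let P : X → Prop := fun x => G0 x ∧ ∀ k, G0 (φ (a₁ (u k)) x)
    have hQ : ∀ h, (Nat.card {x // ¬ Q h x} : ℝ) ≤
        (L₁ h + L₂ h) * (ε' * N) + δ * N := by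
      intro h
      have b1 := hL₁ h X Y₁ (φ.comp a₁) (ψ₁.comp (FreeGroup.lift g₁)) κ₁ (ε' * N) hb₁
        (by positivity)
      have b2 := hL₂ h X Y₂ (φ.comp a₂) (ψ₂.comp (FreeGroup.lift g₂)) κ₂ (ε' * N) hb₂
        (by positivity)
      have b3 := hφ ((a₂ (v h))⁻¹ * a₁ (u h)) (Finset.mem_union_right _
        (Finset.mem_image_of_mem _ (Finset.mem_univ h)))
      have b4 : Nat.card {x // ¬ Q h x} ≤
          bad (φ.comp a₁) (ψ₁.comp (FreeGroup.lift g₁)) κ₁ (u h) +
          (bad (φ.comp a₂) (ψ₂.comp (FreeGroup.lift g₂)) κ₂ (v h) +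
          Nat.card {x : X // φ ((a₂ (v h))⁻¹ * a₁ (u h)) x ≠ x}) := by
        unfold bad
        refine le_trans ?_ (add_le_add_right (card_or_le _ _) _)
        refine le_trans ?_ (card_or_le _ _)
        apply card_le_of_imp
        intro x hx
        by_contra hcon
        push Not at hcon
        obtain ⟨hc1, hc2, hc3⟩ := hcon
        apply hx
        refine ⟨?_, ?_, ?_⟩
        · rw [MonoidHom.comp_apply, hu] at hc1
          exact hc1
        · rw [MonoidHom.comp_apply, hv] at hc2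
          exact hc2
        · rw [map_mul, Perm.mul_apply, map_inv, Perm.inv_eq_iff_eq] at hc3
          exact hc3
      have b5 : (Nat.card {x // ¬ Q h x} : ℝ) ≤
          bad (φ.comp a₁) (ψ₁.comp (FreeGroup.lift g₁)) κ₁ (u h) +
          (bad (φ.comp a₂) (ψ₂.comp (FreeGroup.lift g₂)) κ₂ (v h) +
          Nat.card {x : X // φ ((a₂ (v h))⁻¹ * a₁ (u h)) x ≠ x}) := by exact_mod_cast b4
      linarith
    have hG0 : (Nat.card {x // ¬ G0 x} : ℝ) ≤ (L + n) * (ε' * N) := by
      have c1 : (Nat.card {x // ¬ G0 x} : ℝ) ≤ ∑ h : H, (Nat.card {x // ¬ Q h x} : ℝ) := by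
        exact_mod_cast card_not_forall_le Q
      have c2 : ∑ h : H, (Nat.card {x // ¬ Q h x} : ℝ) ≤
          ∑ h : H, (((L₁ h : ℝ) + L₂ h) * (ε' * N) + δ * N) :=
        Finset.sum_le_sum (fun h _ => hQ h)
      have c3 : ∑ h : H, (((L₁ h : ℝ) + L₂ h) * (ε' * N) + δ * N) =
          L * (ε' * N) + n * (δ * N) := by
        rw [Finset.sum_add_distrib, ← Finset.sum_mul, Finset.sum_const, Finset.card_univ,
          nsmul_eq_mul]
      have c4 : n * (δ * N) ≤ n * (ε' * N) := by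
        apply mul_le_mul_of_nonneg_left _ hn0
        exact mul_le_mul_of_nonneg_right hδε hX.le
      linarith
    have hPc : (Nat.card {x // ¬ P x} : ℝ) ≤ K * ε' * N := by
      have c1 : Nat.card {x // ¬ P x} ≤ Nat.card {x // ¬ G0 x} +
          ∑ k : H, Nat.card {x // ¬ G0 (φ (a₁ (u k)) x)} := by
        refine le_trans ?_ (add_le_add_right (card_not_forall_le
          (fun k x => G0 (φ (a₁ (u k)) x))) _)
        refine le_trans ?_ (card_or_le _ _)
        apply card_le_of_imp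
        intro x hx
        exact not_and_or.1 hx
      have c2 : ∀ k : H, Nat.card {x // ¬ G0 (φ (a₁ (u k)) x)} = Nat.card {x // ¬ G0 x} :=
        fun k => card_perm_eq (φ (a₁ (u k))) (fun x => ¬ G0 x)
      simp only [c2, Finset.sum_const, Finset.card_univ, smul_eq_mul] at c1
      have c3 : (Nat.card {x // ¬ P x} : ℝ) ≤ Nat.card {x // ¬ G0 x} +
          n * Nat.card {x // ¬ G0 x} := by
        rw [hn]
        exact_mod_cast c1
      have c4 : n * (Nat.card {x // ¬ G0 x} : ℝ) ≤ n * ((L + n) * (ε' * N)) :=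
        mul_le_mul_of_nonneg_left hG0 hn0
      have c5 : K * ε' * N = (L + n) * (ε' * N) + n * ((L + n) * (ε' * N)) := by
        rw [hK]; ring
      linarith
    obtain ⟨Z, hZ, j₁, j₂, b₁, b₂, hj₁, hj₂, hjP, hbb, hcard⟩ :=
      hC ⟨Y₁, hY₁, ψ₁⟩ ⟨Y₂, hY₂, ψ₂⟩ X κ₁ κ₂ P (by
        intro h x hx
        refine ⟨φ (a₁ (u h)) x, ⟨hx.2 h, ?_⟩, (hx.1 h).1, ?_⟩
        · intro k
          have d1 : κ₁ (φ (a₁ (u k)) (φ (a₁ (u h)) x)) = κ₁ (φ (a₁ (u (k * h))) x) := by
            rw [← (hx.2 h k).1, ← (hx.1 h).1, ← (hx.1 (k * h)).1, map_mul, map_mul]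
            rfl
          rw [κ₁.injective d1]
          exact hx.2 (k * h)
        · rw [(hx.1 h).2.2]
          exact (hx.1 h).2.1)
    refine ⟨Z, hZ, κ₁.trans j₁, amLift i₁ i₂ b₁ b₂ hbb, ?_, ?_⟩
    · have c1 : (Nat.card Z : ℝ) + 2 * C * Nat.card {x // P x} ≤
          Nat.card Y₁ + C * (Nat.card Y₁ + Nat.card Y₂) := by exact_mod_cast hcard
      have c2 : (Nat.card {x // P x} : ℝ) + Nat.card {x // ¬ P x} = N := by
        rw [hN]
        exact_mod_cast card_pred_add P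
      have c3 : (C : ℝ) * (Nat.card Y₁ + Nat.card Y₂) ≤ C * ((1 + ε') * N + (1 + ε') * N) :=
        mul_le_mul_of_nonneg_left (add_le_add hc₁ hc₂) hC0
      have c4 : (2 * C : ℝ) * Nat.card {x // P x} = 2 * C * N - 2 * C * Nat.card {x // ¬ P x} := by
        rw [← c2]; ring
      have c5 : (2 * C : ℝ) * Nat.card {x // ¬ P x} ≤ 2 * C * (K * ε' * N) :=
        mul_le_mul_of_nonneg_left hPc (by positivity)
      have c6 : (1 + ε) * N = N + (1 + 2 * C + (2 * C + 2) * K) * (ε' * N) := by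
        rw [← hM, ← hε'eq]; ring
      have c7 : 0 ≤ K * (ε' * N) := by positivity
      have c8 : (C : ℝ) * ((1 + ε') * N + (1 + ε') * N) = 2 * C * N + 2 * C * (ε' * N) := by ring
      have c9 : (2 * C : ℝ) * (K * ε' * N) = 2 * C * K * (ε' * N) := by ring
      have c10 : (1 + ε') * N = N + ε' * N := by ring
      have c11 : N + (1 + 2 * C + (2 * C + 2) * K) * (ε' * N) =
          N + ε' * N + 2 * C * (ε' * N) + 2 * C * K * (ε' * N) + 2 * (K * (ε' * N)) := by ring
      rw [c6, c11]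
      rw [c8] at c3
      rw [c9] at c5
      rw [c10] at hc₁
      linarith
    · rintro (s | s)
      · have c1 := hb₁ s
        have c2 : bad φ ((amLift i₁ i₂ b₁ b₂ hbb).comp (FreeGroup.lift g)) (κ₁.trans j₁)
            (FreeGroup.of (Sum.inl s)) ≤
            bad (φ.comp a₁) (ψ₁.comp (FreeGroup.lift g₁)) κ₁ (FreeGroup.of s) := by
          unfold bad
          apply card_le_of_imp
          intro x hx hcon
          apply hx
          rw [MonoidHom.comp_apply, FreeGroup.lift_apply_of] at hcon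
          rw [MonoidHom.comp_apply, FreeGroup.lift_apply_of]
          change b₁ (g₁ s) (j₁ (κ₁ x)) = j₁ (κ₁ (φ (FreeGroup.of (Sum.inl s)) x))
          rw [hj₁]
          congr 1
        have c3 : (bad φ ((amLift i₁ i₂ b₁ b₂ hbb).comp (FreeGroup.lift g)) (κ₁.trans j₁)
            (FreeGroup.of (Sum.inl s)) : ℝ) ≤
            bad (φ.comp a₁) (ψ₁.comp (FreeGroup.lift g₁)) κ₁ (FreeGroup.of s) := by
          exact_mod_cast c2
        have c4 : ε * N = (1 + 2 * C + (2 * C + 2) * K) * (ε' * N) := by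
          rw [← hM, ← hε'eq]; ring
        have c5 : 0 ≤ (2 * C + (2 * C + 2) * K) * (ε' * N) := by positivity
        linarith
      · have c1 := hb₂ s
        have c2 : bad φ ((amLift i₁ i₂ b₁ b₂ hbb).comp (FreeGroup.lift g)) (κ₁.trans j₁)
            (FreeGroup.of (Sum.inr s)) ≤
            bad (φ.comp a₂) (ψ₂.comp (FreeGroup.lift g₂)) κ₂ (FreeGroup.of s) +
            (Nat.card {x // ¬ P x} + Nat.card {x // ¬ P (φ (FreeGroup.of (Sum.inr s)) x)}) := by
          unfold bad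
          refine le_trans ?_ (add_le_add_right (card_or_le _ _) _)
          refine le_trans ?_ (card_or_le _ _)
          apply card_le_of_imp
          intro x hx
          by_contra hcon
          push Not at hcon
          obtain ⟨d1, d2, d3⟩ := hcon
          apply hx
          rw [MonoidHom.comp_apply, FreeGroup.lift_apply_of] at d1
          rw [MonoidHom.comp_apply, FreeGroup.lift_apply_of]
          change b₂ (g₂ s) (j₁ (κ₁ x)) = j₁ (κ₁ (φ (FreeGroup.of (Sum.inr s)) x))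
          rw [hjP x d2, hj₂, hjP _ d3]
          congr 1
        have c3 : (bad φ ((amLift i₁ i₂ b₁ b₂ hbb).comp (FreeGroup.lift g)) (κ₁.trans j₁)
            (FreeGroup.of (Sum.inr s)) : ℝ) ≤
            bad (φ.comp a₂) (ψ₂.comp (FreeGroup.lift g₂)) κ₂ (FreeGroup.of s) +
            (Nat.card {x // ¬ P x} + Nat.card {x // ¬ P (φ (FreeGroup.of (Sum.inr s)) x)}) := by
          exact_mod_cast c2
        have c4 : ε * N = (1 + 2 * C + (2 * C + 2) * K) * (ε' * N) := by
          rw [← hM, ← hε'eq]; ring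
        have c5 : 0 ≤ (2 * C + (2 * C) * K) * (ε' * N) := by positivity
        have c6 : (Nat.card {x // ¬ P (φ (FreeGroup.of (Sum.inr s)) x)} : ℝ) =
            Nat.card {x // ¬ P x} := by
          exact_mod_cast card_perm_eq (φ (FreeGroup.of (Sum.inr s))) (fun x => ¬ P x)
        rw [c6] at c3
        have c7 : K * ε' * N = K * (ε' * N) := by ring
        have c8 : (1 + 2 * C + (2 * C + 2) * K) * (ε' * N) =
            ε' * N + 2 * (K * (ε' * N)) + (2 * C + (2 * C) * K) * (ε' * N) := by ring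
        rw [c7] at hPc
        linarith

/-- Flexible stability in permutations passes to amalgamated free products over a finite group
if both factors detect the same elements of the finite group in finite quotients. -/
theorem flexPStable_amalgam (i₁ : H →* G₁) (i₂ : H →* G₂)
    (hres : ∀ h, InRes G₁ (i₁ h) ↔ InRes G₂ (i₂ h))
    (h₁ : FlexPStable G₁) (h₂ : FlexPStable G₂) : FlexPStable (Amalgam i₁ i₂) := by
  obtain ⟨hfg₁, h₁⟩ := h₁
  obtain ⟨hfg₂, h₂⟩ := h₂
  obtain ⟨T₁, hT₁, hT₁f⟩ := Group.fg_iff.1 hfg₁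
  obtain ⟨T₂, hT₂, hT₂f⟩ := Group.fg_iff.1 hfg₂
  have : Finite T₁ := hT₁f
  have : Finite T₂ := hT₂f
  have hr₁ : Subgroup.closure (Set.range (Subtype.val : T₁ → G₁)) = ⊤ := by
    rw [Subtype.range_coe]
    exact hT₁
  have hr₂ : Subgroup.closure (Set.range (Subtype.val : T₂ → G₂)) = ⊤ := by
    rw [Subtype.range_coe]
    exact hT₂
  have k₁ := flexOn'_of_flexOn _ (h₁ T₁ Subtype.val hr₁)
  have k₂ := flexOn'_of_flexOn _ (h₂ T₂ Subtype.val hr₂)
  have k := flexOn'_amalgam i₁ i₂ hres _ _ hr₁ hr₂ k₁ k₂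
  have hcl := closure_am i₁ i₂ (Subtype.val : T₁ → G₁) (Subtype.val : T₂ → G₂) hr₁ hr₂
  refine ⟨?_, ?_⟩
  · rw [Group.fg_iff]
    exact ⟨_, hcl, Set.finite_range _⟩
  · intro S _ g hg
    exact flexOn_of_flexOn' g (flexOn'_indep _ g hcl hg k)

end

end Pool.Agent.Helper94
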