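import Mathlib
import Pool.Agent.Helper94.MainP

/-!
Stability in permutations implies flexible stability in permutations.
-/

namespace Pool.Agent.Helper94

open Equiv Filter

lemma permDist_nonneg {X : Type} (σ τ : Perm X) : 0 ≤ permDist σ τ := by
  unfold permDist
  positivity

lemma permDist_triangle {X : Type} [Finite X] (σ τ ρ : Perm X) :
    permDist σ ρ ≤ permDist σ τ + permDist τ ρ := by
  unfold permDist
  rw [← add_div]
  apply div_le_div_of_nonneg_right _ (Nat.cast_nonneg _)
  have : Nat.card {x // σ x ≠ ρ x} ≤ Nat.card {x // σ x ≠ τ x} + Nat.card {x // τ x ≠ ρ x} := by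
    refine le_trans ?_ (card_or_le _ _)
    apply card_le_of_imp
    intro x hx
    by_contra hcon
    push Not at hcon
    exact hx (hcon.1.trans hcon.2)
  exact_mod_cast this

lemma permDist_comm {X : Type} (σ τ : Perm X) : permDist σ τ = permDist τ σ := by
  unfold permDist
  congr 2
  exact Nat.card_congr (Equiv.subtypeEquivRight (fun x => ne_comm))

lemma permDist_mul_left {X : Type} (σ τ ρ : Perm X) :
    permDist (ρ * σ) (ρ * τ) = permDist σ τ := by
  unfold permDist
  congr 2
  refine Nat.card_congr (Equiv.subtypeEquivRight (fun x => ?_))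
  rw [Perm.mul_apply, Perm.mul_apply]
  exact ρ.injective.ne_iff

theorem flexOn'_of_pStable {G S : Type} [Group G] [Finite S] (g : S → G)
    (hg : Subgroup.closure (Set.range g) = ⊤) (h : PStable G) : FlexOn' S g := by
  classical
  have := Fintype.ofFinite S
  rw [← FreeGroup.lift_surjective_iff_closure_range_eq_top] at hg
  choose σ hσ using hg
  by_contra hcon
  unfold FlexOn' at hcon
  push Not at hcon
  obtain ⟨ε, hε, hcon⟩ := hcon
  have : Countable (FreeGroup S) := by
    have : Countable (List (S × Bool)) := inferInstance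
    exact Function.Surjective.countable (f := FreeGroup.mk) (by
      intro x
      exact ⟨x.toWord, FreeGroup.mk_toWord⟩)
  obtain ⟨f, hf⟩ := exists_surjective_nat (FreeGroup S)
  let E : ℕ → Finset (FreeGroup S) := fun n =>
    ((Finset.range (n + 1)).image f).filter (fun e => FreeGroup.lift g e = 1)
  have hE : ∀ n, ∀ e ∈ E n, FreeGroup.lift g e = 1 := fun n e he => (Finset.mem_filter.1 he).2
  choose X fX nX φ hφ hno using fun n : ℕ => hcon (1 / ((n : ℝ) + 1)) (by positivity) (E n) (hE n)
  have hker : ∀ k : FreeGroup S, FreeGroup.lift g k = 1 →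
      Tendsto (fun n => permDist (φ n k) 1) atTop (nhds 0) := by
    intro k hk
    obtain ⟨j, hj⟩ := hf k
    have h1 : ∀ᶠ n : ℕ in atTop, permDist (φ n k) 1 ≤ 1 / ((n : ℝ) + 1) := by
      filter_upwards [eventually_ge_atTop j] with n hn
      rw [permDist_one_le]
      apply hφ n k
      rw [Finset.mem_filter, Finset.mem_image]
      exact ⟨⟨j, Finset.mem_range.2 (by omega), hj⟩, hk⟩
    refine squeeze_zero' (Eventually.of_forall (fun n => permDist_nonneg _ _)) h1 ?_
    exact tendsto_one_div_add_atTop_nhds_zero_nat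
  obtain ⟨ψ, hψ⟩ := h X (fun n a => φ n (σ a)) (by
    intro a b
    have h1 : ∀ n, permDist (φ n (σ a) * φ n (σ b)) (φ n (σ (a * b))) =
        permDist (φ n ((σ (a * b))⁻¹ * (σ a * σ b))) 1 := by
      intro n
      rw [← permDist_mul_left _ _ (φ n (σ (a * b)))⁻¹, inv_mul_cancel, map_mul, map_mul, map_inv]
    simp only [h1]
    apply hker
    rw [map_mul, map_inv, map_mul, hσ, hσ, hσ, inv_mul_cancel])
  have hs : ∀ s : S, Tendsto (fun n => permDist (φ n (FreeGroup.of s)) (ψ n (g s))) atTop
      (nhds 0) := by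
    intro s
    have h1 : Tendsto (fun n => permDist (φ n ((σ (g s))⁻¹ * FreeGroup.of s)) 1 +
        permDist (φ n (σ (g s))) (ψ n (g s))) atTop (nhds (0 + 0)) := by
      apply Tendsto.add
      · apply hker
        rw [map_mul, map_inv, hσ, FreeGroup.lift_apply_of, inv_mul_cancel]
      · exact hψ (g s)
    rw [add_zero] at h1
    refine squeeze_zero (fun n => permDist_nonneg _ _) (fun n => ?_) h1
    refine (permDist_triangle _ (φ n (σ (g s))) _).trans (add_le_add_left (le_of_eq ?_) _)
    rw [← permDist_mul_left _ _ (φ n (σ (g s)))⁻¹, inv_mul_cancel, map_mul, map_inv]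
  have hall : ∀ᶠ n in atTop, ∀ s : S, permDist (φ n (FreeGroup.of s)) (ψ n (g s)) < ε := by
    rw [eventually_all]
    intro s
    exact (hs s).eventually (gt_mem_nhds hε)
  obtain ⟨n, hn⟩ := hall.exists
  obtain ⟨s, hs1⟩ := hno n (X n) (fX n) (Function.Embedding.refl _) (ψ n) (by
    have : (0 : ℝ) ≤ Nat.card (X n) := Nat.cast_nonneg _
    nlinarith)
  have := hn s
  have hX : (0 : ℝ) < Nat.card (X n) := by exact_mod_cast Nat.card_pos
  unfold permDist at this
  rw [div_lt_iff₀ hX] at this
  have e : bad (φ n) ((ψ n).comp (FreeGroup.lift g)) (Function.Embedding.refl _)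
      (FreeGroup.of s) = Nat.card {x // φ n (FreeGroup.of s) x ≠ ψ n (g s) x} := by
    unfold bad
    refine Nat.card_congr (Equiv.subtypeEquivRight (fun x => ?_))
    rw [MonoidHom.comp_apply, FreeGroup.lift_apply_of]
    exact ne_comm
  rw [e] at hs1
  linarith

theorem flexPStable_of_pStable {G : Type} [Group G] (hfg : Group.FG G) (h : PStable G) :
    FlexPStable G :=
  ⟨hfg, fun _ _ g hg => flexOn_of_flexOn' g (flexOn'_of_pStable g hg h)⟩

end Pool.Agent.Helper94
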