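import Mathlib
import Pool.Agent.Helper94.PStab

/-!
Stability in permutations, finite-subset form.
-/

namespace Pool.Agent.Helper94

open Equiv Filter

/-- Stability in permutations, finite-subset form. -/
def AStab (G : Type) [Group G] : Prop :=
  ∀ (T : Finset G) (ε : ℝ), 0 < ε → ∃ (T' : Finset G) (δ : ℝ), 0 < δ ∧
    ∀ (X : Type) [Finite X] [Nonempty X] (φ : G → Perm X),
      (∀ a ∈ T', ∀ b ∈ T', permDist (φ a * φ b) (φ (a * b)) ≤ δ) →
      ∃ ψ : G →* Perm X, ∀ t ∈ T, permDist (φ t) (ψ t) ≤ ε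

lemma countable_of_fg {G : Type} [Group G] (h : Group.FG G) : Countable G := by
  classical
  obtain ⟨T, hT, hTf⟩ := Group.fg_iff.1 h
  have : Finite T := hTf
  have hr : Subgroup.closure (Set.range (Subtype.val : T → G)) = ⊤ := by
    rw [Subtype.range_coe]
    exact hT
  rw [← FreeGroup.lift_surjective_iff_closure_range_eq_top] at hr
  have : Countable (FreeGroup T) := by
    have : Countable (List (T × Bool)) := inferInstance
    exact Function.Surjective.countable (f := FreeGroup.mk) (by
      intro x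
      exact ⟨x.toWord, FreeGroup.mk_toWord⟩)
  exact hr.countable

theorem aStab_of_pStable {G : Type} [Group G] [Countable G] (h : PStable G) : AStab G := by
  classical
  by_contra hcon
  unfold AStab at hcon
  push Not at hcon
  obtain ⟨T, ε, hε, hcon⟩ := hcon
  obtain ⟨f, hf⟩ := exists_surjective_nat G
  let E : ℕ → Finset G := fun n => (Finset.range (n + 1)).image f
  choose X fX nX φ hφ hno using fun n : ℕ => hcon (E n) (1 / ((n : ℝ) + 1)) (by positivity)
  obtain ⟨ψ, hψ⟩ := h X φ (by
    intro a b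
    obtain ⟨j, hj⟩ := hf a
    obtain ⟨k, hk⟩ := hf b
    have h1 : ∀ᶠ n : ℕ in atTop, permDist (φ n a * φ n b) (φ n (a * b)) ≤ 1 / ((n : ℝ) + 1) := by
      filter_upwards [eventually_ge_atTop j, eventually_ge_atTop k] with n hn1 hn2
      apply hφ n
      · exact Finset.mem_image.2 ⟨j, Finset.mem_range.2 (by omega), hj⟩
      · exact Finset.mem_image.2 ⟨k, Finset.mem_range.2 (by omega), hk⟩
    refine squeeze_zero' (Eventually.of_forall (fun n => permDist_nonneg _ _)) h1 ?_
    exact tendsto_one_div_add_atTop_nhds_zero_nat)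
  have hall : ∀ᶠ n in atTop, ∀ t ∈ T, permDist (φ n t) (ψ n t) < ε := by
    rw [Filter.eventually_all_finset]
    intro t _
    exact (hψ t).eventually (gt_mem_nhds hε)
  obtain ⟨n, hn⟩ := hall.exists
  obtain ⟨t, ht, ht2⟩ := hno n (ψ n)
  exact absurd (hn t ht) (not_lt.2 ht2.le)

theorem pStable_of_aStab {G : Type} [Group G] [Countable G] (h : AStab G) : PStable G := by
  classical
  obtain ⟨f, hf⟩ := exists_surjective_nat G
  let T : ℕ → Finset G := fun n => (Finset.range (n + 1)).image f
  choose T' δ hδ hmain using fun k : ℕ => h (T k) (1 / ((k : ℝ) + 1)) (by positivity)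
  intro X _ _ φ hφ
  -- quality predicate
  let Q : ℕ → ℕ → Prop := fun n k => ∃ ψ : G →* Perm (X n), ∀ t ∈ T k,
    permDist (φ n t) (ψ t) ≤ 1 / ((k : ℝ) + 1)
  have hQ0 : ∀ n, Q n 0 := by
    intro n
    refine ⟨1, fun t _ => ?_⟩
    have : (0 : ℝ) < Nat.card (X n) := by exact_mod_cast Nat.card_pos
    unfold permDist
    rw [div_le_iff₀ this]
    have h1 : Nat.card {x : X n // φ n t x ≠ (1 : G →* Perm (X n)) t x} ≤ Nat.card (X n) :=
      Nat.card_le_card_of_injective _ Subtype.val_injective
    have h2 : (Nat.card {x : X n // φ n t x ≠ (1 : G →* Perm (X n)) t x} : ℝ) ≤ Nat.card (X n) := by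
      exact_mod_cast h1
    simpa using h2
  have hQev : ∀ k, ∀ᶠ n in atTop, Q n k := by
    intro k
    have h1 : ∀ᶠ n in atTop, ∀ a ∈ T' k, ∀ b ∈ T' k,
        permDist (φ n a * φ n b) (φ n (a * b)) < δ k := by
      rw [Filter.eventually_all_finset]
      intro a _
      rw [Filter.eventually_all_finset]
      intro b _
      exact (hφ a b).eventually (gt_mem_nhds (hδ k))
    filter_upwards [h1] with n hn
    exact hmain k (X n) (φ n) (fun a ha b hb => (hn a ha b hb).le)
  let K : ℕ → ℕ := fun n => Nat.findGreatest (Q n) n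
  have hK : ∀ n, Q n (K n) := fun n => Nat.findGreatest_spec (Nat.zero_le n) (hQ0 n)
  choose ψ hψ using hK
  refine ⟨ψ, ?_⟩
  intro a
  obtain ⟨j, hj⟩ := hf a
  rw [Metric.tendsto_atTop]
  intro ε hε
  obtain ⟨m, hm⟩ := exists_nat_one_div_lt hε
  have h1 := hQev (max m j)
  rw [eventually_atTop] at h1
  obtain ⟨n₀, hn₀⟩ := h1
  refine ⟨max n₀ (max m j), ?_⟩
  intro n hn
  have h2 : Q n (max m j) := hn₀ n ((le_max_left _ _).trans hn)
  have h3 : max m j ≤ K n := Nat.le_findGreatest ((le_max_right _ _).trans hn) h2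
  have h4 := hψ n a (Finset.mem_image.2 ⟨j, Finset.mem_range.2 (by
    have := le_max_right m j
    omega), hj⟩)
  rw [Real.dist_eq, sub_zero, abs_of_nonneg (permDist_nonneg _ _)]
  refine lt_of_le_of_lt h4 (lt_of_le_of_lt ?_ hm)
  apply one_div_le_one_div_of_le
  · positivity
  · have h5 : m ≤ K n := (le_max_left _ _).trans h3
    have : (m : ℝ) ≤ K n := by exact_mod_cast h5
    linarith

end Pool.Agent.Helper94
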