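import Mathlib
import Pool.Agent.Helper94.StabDefs

/-!
Definitions: amenability, amalgamated free products, finite trees of groups.
-/

namespace Pool.Agent.Helper94

/-- The Folner condition: amenability of a discrete group. -/
def FolnerAmenable (G : Type) [Group G] : Prop :=
  ∀ (S : Set G) (κ : ℝ), S.Finite → 0 < κ → ∃ F : Set G, F.Finite ∧ F.Nonempty ∧
    ∀ s ∈ S, (Nat.card {f : G // f ∈ F ∧ s * f ∉ F} : ℝ) ≤ κ * Nat.card F

/-- `G`, with `j₁ : G₁ → G` and `j₂ : G₂ → G`, is the pushout (amalgamated free product, if `i₁`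
and `i₂` are injective) of `i₁ : H → G₁` and `i₂ : H → G₂`. -/
def IsAmalgam {G₁ G₂ H G : Type} [Group G₁] [Group G₂] [Group H] [Group G] (i₁ : H →* G₁)
    (i₂ : H →* G₂) (j₁ : G₁ →* G) (j₂ : G₂ →* G) : Prop :=
  j₁.comp i₁ = j₂.comp i₂ ∧ ∀ (K : Type) [Group K] (b₁ : G₁ →* K) (b₂ : G₂ →* K),
    b₁.comp i₁ = b₂.comp i₂ → ∃! b : G →* K, b.comp j₁ = b₁ ∧ b.comp j₂ = b₂

/-- Fundamental groups of finite trees of groups with finite edge groups, whose vertex groups are
finitely generated amenable groups which are stable in permutations. `TreeProduct G 𝓕` says that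
`G` is built in this way and that `𝓕` is the set of the images in `G` of the finite subgroups of
the vertex groups. -/
inductive TreeProduct : (G : Type) → [Group G] → Set (Subgroup G) → Prop
  | vertex (G : Type) [Group G] (hfg : Group.FG G) (ham : FolnerAmenable G)
      (hst : PStable G) : TreeProduct G {J | Finite J}
  | edge {G₁ G₂ H G : Type} [Group G₁] [Group G₂] [Group H] [Group G] [Finite H]
      {𝓕₁ : Set (Subgroup G₁)} {𝓕₂ : Set (Subgroup G₂)} (i₁ : H →* G₁) (i₂ : H →* G₂)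
      (j₁ : G₁ →* G) (j₂ : G₂ →* G) (hG : IsAmalgam i₁ i₂ j₁ j₂)
      (h₁ : TreeProduct G₁ 𝓕₁) (h₂ : TreeProduct G₂ 𝓕₂) (hi₁ : Function.Injective i₁)
      (hi₂ : Function.Injective i₂) (hr₁ : i₁.range ∈ 𝓕₁) (hr₂ : i₂.range ∈ 𝓕₂) :
      TreeProduct G (Subgroup.map j₁ '' 𝓕₁ ∪ Subgroup.map j₂ '' 𝓕₂)

end Pool.Agent.Helper94
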