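import Mathlib
import Pool.Agent.Helper94.TreeDefs

/-!
Hyperfiniteness of finite actions of amenable groups, by a greedy argument.
-/

namespace Pool.Agent.Helper94

open Equiv

section cut

variable {G X : Type} [Group G] [Fintype X] [DecidableEq X] [DecidableEq G]

/-- multiplicity -/
def wt (a : G →* Perm X) (F : Finset G) (c x : X) : ℕ := (F.filter (fun f => a f c = x)).card

lemma sum_wt (a : G →* Perm X) (F : Finset G) (x : X) : ∑ c, wt a F c x = F.card := by
  unfold wt
  simp only [Finset.card_filter]
  rw [Finset.sum_comm]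
  have : ∀ f ∈ F, (∑ c : X, if a f c = x then 1 else 0) = 1 := by
    intro f _
    have h1 : ∀ c : X, (a f c = x) ↔ c = (a f)⁻¹ x := by
      intro c
      rw [Perm.eq_inv_iff_eq]
    simp only [h1]
    rw [Finset.sum_ite_eq' Finset.univ ((a f)⁻¹ x) (fun _ => 1)]
    simp
  rw [Finset.sum_congr rfl this]
  simp

lemma wt_le (a : G →* Perm X) (F : Finset G) (c x : X) : wt a F c x ≤ F.card :=
  Finset.card_filter_le _ _

lemma wt_sub_le (a : G →* Perm X) (F : Finset G) (s : G) (c x : X) :
    wt a F c x - wt a F c (a s x) ≤ (F.filter (fun f => s * f ∉ F ∧ a f c = x)).card := by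
  unfold wt
  rw [Nat.sub_le_iff_le_add]
  have h1 : (F.filter (fun f => a f c = x)).card =
      (F.filter (fun f => s * f ∉ F ∧ a f c = x)).card +
      (F.filter (fun f => s * f ∈ F ∧ a f c = x)).card := by
    rw [← Finset.card_union_of_disjoint]
    · congr 1
      ext f
      simp only [Finset.mem_filter, Finset.mem_union]
      tauto
    · rw [Finset.disjoint_left]
      intro f hf hf'
      rw [Finset.mem_filter] at hf hf'
      exact hf.2.1 hf'.2.1
  rw [h1]
  apply Nat.add_le_add_left
  apply Finset.card_le_card_of_injOn (fun f => s * f)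
  · intro f hf
    simp only [Finset.coe_filter, Set.mem_ofPred_eq] at hf ⊢
    refine ⟨hf.2.1, ?_⟩
    rw [map_mul, Perm.mul_apply, hf.2.2]
  · intro f _ f' _ hff
    exact mul_left_cancel hff

lemma sum_wt_sub_le (a : G →* Perm X) (F : Finset G) (s : G) (x : X) :
    ∑ c, (wt a F c x - wt a F c (a s x)) ≤ (F.filter (fun f => s * f ∉ F)).card := by
  calc ∑ c, (wt a F c x - wt a F c (a s x))
      ≤ ∑ c, (F.filter (fun f => s * f ∉ F ∧ a f c = x)).card :=
        Finset.sum_le_sum (fun c _ => wt_sub_le a F s c x)
    _ = ∑ c, wt a (F.filter (fun f => s * f ∉ F)) c x := by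
        apply Finset.sum_congr rfl
        intro c _
        unfold wt
        rw [Finset.filter_filter]
    _ = _ := sum_wt a _ x

/-- number of edges leaving `Y` inside `X'` -/
def bdry (a : G →* Perm X) (s : G) (X' Y : Finset X) : ℕ :=
  (Y.filter (fun x => a s x ∈ X' \ Y)).card

/-- level set -/
def lev (a : G →* Perm X) (F : Finset G) (X' : Finset X) (c : X) (j : ℕ) : Finset X :=
  X'.filter (fun x => j < wt a F c x)

lemma sum_card_lev (a : G →* Perm X) (F : Finset G) (X' : Finset X) :
    ∑ c, ∑ j ∈ Finset.range F.card, (lev a F X' c j).card = X'.card * F.card := by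
  have h1 : ∀ c, ∑ j ∈ Finset.range F.card, (lev a F X' c j).card = ∑ x ∈ X', wt a F c x := by
    intro c
    unfold lev
    simp only [Finset.card_filter]
    rw [Finset.sum_comm]
    apply Finset.sum_congr rfl
    intro x _
    rw [← Finset.card_filter]
    have : (Finset.range F.card).filter (fun j => j < wt a F c x) =
        Finset.range (wt a F c x) := by
      ext j
      simp only [Finset.mem_filter, Finset.mem_range]
      have := wt_le a F c x
      omega
    rw [this, Finset.card_range]
  simp only [h1]
  rw [Finset.sum_comm]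
  simp only [sum_wt]
  rw [Finset.sum_const, smul_eq_mul]

lemma sum_bdry_lev (a : G →* Perm X) (F : Finset G) (X' : Finset X) (s : G) :
    ∑ c, ∑ j ∈ Finset.range F.card, bdry a s X' (lev a F X' c j) ≤
      X'.card * (F.filter (fun f => s * f ∉ F)).card := by
  have h1 : ∀ c, ∑ j ∈ Finset.range F.card, bdry a s X' (lev a F X' c j) ≤
      ∑ x ∈ X', (wt a F c x - wt a F c (a s x)) := by
    intro c
    have h2 : ∀ j, bdry a s X' (lev a F X' c j) ≤
        (X'.filter (fun x => wt a F c (a s x) ≤ j ∧ j < wt a F c x)).card := by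
      intro j
      apply Finset.card_le_card
      intro x hx
      simp only [lev, Finset.mem_filter, Finset.mem_sdiff, not_and, not_lt] at hx ⊢
      exact ⟨hx.1.1, hx.2.2 hx.2.1, hx.1.2⟩
    calc _ ≤ ∑ j ∈ Finset.range F.card,
        (X'.filter (fun x => wt a F c (a s x) ≤ j ∧ j < wt a F c x)).card :=
          Finset.sum_le_sum (fun j _ => h2 j)
      _ = ∑ x ∈ X', ((Finset.range F.card).filter
          (fun j => wt a F c (a s x) ≤ j ∧ j < wt a F c x)).card := by
          simp only [Finset.card_filter]
          rw [Finset.sum_comm]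
      _ ≤ ∑ x ∈ X', (wt a F c x - wt a F c (a s x)) := by
          apply Finset.sum_le_sum
          intro x _
          rw [← Nat.card_Ico]
          apply Finset.card_le_card
          intro j hj
          simp only [Finset.mem_filter, Finset.mem_Ico] at hj ⊢
          exact hj.2
  calc _ ≤ ∑ c, ∑ x ∈ X', (wt a F c x - wt a F c (a s x)) := Finset.sum_le_sum (fun c _ => h1 c)
    _ = ∑ x ∈ X', ∑ c, (wt a F c x - wt a F c (a s x)) := Finset.sum_comm
    _ ≤ ∑ x ∈ X', (F.filter (fun f => s * f ∉ F)).card :=
        Finset.sum_le_sum (fun x _ => sum_wt_sub_le a F s x)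
    _ = _ := by rw [Finset.sum_const, smul_eq_mul]

/-- A piece with small boundary. -/
lemma exists_piece (a : G →* Perm X) (F S : Finset G) (κ : ℝ) (hF : F.Nonempty)
    (hS : ∀ s ∈ S, ((F.filter (fun f => s * f ∉ F)).card : ℝ) ≤ κ * F.card)
    (X' : Finset X) (hX' : X'.Nonempty) :
    ∃ Y ⊆ X', Y.Nonempty ∧ Y.card ≤ F.card ∧
      (∑ s ∈ S, (bdry a s X' Y : ℝ)) ≤ κ * S.card * Y.card := by
  classical
  by_contra hcon
  push Not at hcon
  have key : ∀ c j, (lev a F X' c j).Nonempty →
      κ * S.card * (lev a F X' c j).card < ∑ s ∈ S, (bdry a s X' (lev a F X' c j) : ℝ) := by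
    intro c j hne
    apply hcon _ (Finset.filter_subset _ _) hne
    -- size bound
    calc (X'.filter (fun x => j < wt a F c x)).card
        ≤ (F.image (fun f => a f c)).card := by
          apply Finset.card_le_card
          intro x hx
          rw [Finset.mem_filter] at hx
          have h0 : 0 < wt a F c x := by omega
          unfold wt at h0
          rw [Finset.card_pos] at h0
          obtain ⟨f, hf⟩ := h0
          rw [Finset.mem_filter] at hf
          exact Finset.mem_image.2 ⟨f, hf.1, hf.2⟩
      _ ≤ F.card := Finset.card_image_le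
  have hle : ∀ c j, κ * S.card * (lev a F X' c j).card ≤
      ∑ s ∈ S, (bdry a s X' (lev a F X' c j) : ℝ) := by
    intro c j
    by_cases hne : (lev a F X' c j).Nonempty
    · exact (key c j hne).le
    · rw [Finset.not_nonempty_iff_eq_empty] at hne
      rw [hne]
      simp [bdry]
  have htot : (0 : ℝ) < (X'.card : ℝ) * F.card := by
    have := hX'.card_pos
    have := hF.card_pos
    positivity
  have hsumN : (∑ c, ∑ j ∈ Finset.range F.card, ((lev a F X' c j).card : ℝ)) =
      X'.card * F.card := by
    exact_mod_cast sum_card_lev a F X'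
  have hex : ∃ c, ∃ j ∈ Finset.range F.card, (lev a F X' c j).Nonempty := by
    by_contra hno
    push Not at hno
    have : (∑ c, ∑ j ∈ Finset.range F.card, ((lev a F X' c j).card : ℝ)) = 0 := by
      apply Finset.sum_eq_zero
      intro c _
      apply Finset.sum_eq_zero
      intro j hj
      have := hno c j hj
      rw [this]
      simp
    rw [this] at hsumN
    linarith
  obtain ⟨c0, j0, hj0, hne0⟩ := hex
  have hlt : (∑ c, ∑ j ∈ Finset.range F.card, κ * S.card * ((lev a F X' c j).card : ℝ)) <
      ∑ c, ∑ j ∈ Finset.range F.card, ∑ s ∈ S, (bdry a s X' (lev a F X' c j) : ℝ) := by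
    apply Finset.sum_lt_sum
    · intro c _
      exact Finset.sum_le_sum (fun j _ => hle c j)
    · refine ⟨c0, Finset.mem_univ _, ?_⟩
      apply Finset.sum_lt_sum
      · intro j _
        exact hle c0 j
      · exact ⟨j0, hj0, key c0 j0 hne0⟩
  have h1 : (∑ c, ∑ j ∈ Finset.range F.card, κ * S.card * ((lev a F X' c j).card : ℝ)) =
      κ * S.card * (X'.card * F.card) := by
    rw [← hsumN, Finset.mul_sum]
    apply Finset.sum_congr rfl
    intro c _
    rw [Finset.mul_sum]
  have h2 : (∑ c, ∑ j ∈ Finset.range F.card, ∑ s ∈ S, (bdry a s X' (lev a F X' c j) : ℝ)) ≤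
      κ * S.card * (X'.card * F.card) := by
    have e1 : (∑ s ∈ S, ∑ c, ∑ j ∈ Finset.range F.card, (bdry a s X' (lev a F X' c j) : ℝ)) =
        ∑ c, ∑ j ∈ Finset.range F.card, ∑ s ∈ S, (bdry a s X' (lev a F X' c j) : ℝ) := by
      rw [Finset.sum_comm]
      apply Finset.sum_congr rfl
      intro c _
      rw [Finset.sum_comm]
    rw [← e1]
    calc _ ≤ ∑ s ∈ S, (X'.card : ℝ) * (κ * F.card) := by
          apply Finset.sum_le_sum
          intro s hs
          have h3 : (∑ c, ∑ j ∈ Finset.range F.card, (bdry a s X' (lev a F X' c j) : ℝ)) ≤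
              X'.card * (F.filter (fun f => s * f ∉ F)).card := by
            exact_mod_cast sum_bdry_lev a F X' s
          refine h3.trans ?_
          exact mul_le_mul_of_nonneg_left (hS s hs) (Nat.cast_nonneg _)
      _ = _ := by
          rw [Finset.sum_const, nsmul_eq_mul]
          ring
  linarith

/-- Greedy partition into small pieces with few edges between different pieces. -/
lemma exists_partition (a : G →* Perm X) (F S : Finset G) (κ : ℝ) (hκ : 0 ≤ κ)
    (hF : F.Nonempty)
    (hS : ∀ s ∈ S, ((F.filter (fun f => s * f ∉ F)).card : ℝ) ≤ κ * F.card)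
    (hinv : ∀ s ∈ S, s⁻¹ ∈ S) : ∀ (n : ℕ) (X' : Finset X), X'.card = n →
    ∃ p : X → X, (∀ x ∈ X', p x ∈ X') ∧
      (∀ c, (X'.filter (fun x => p x = c)).card ≤ F.card) ∧
      (∑ s ∈ S, ((X'.filter (fun x => a s x ∈ X' ∧ p (a s x) ≠ p x)).card : ℝ)) ≤
        2 * κ * S.card * X'.card := by
  intro n
  induction n using Nat.strong_induction_on with
  | _ n ih =>
    intro X' hn
    rcases X'.eq_empty_or_nonempty with hX' | hX'
    · refine ⟨id, fun x hx => hx, fun c => ?_, ?_⟩
      · rw [hX']
        simp
      · rw [hX']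
        simp
    · obtain ⟨Y, hYX, hYne, hYF, hYb⟩ := exists_piece a F S κ hF hS X' hX'
      have hcard : (X' \ Y).card + Y.card = X'.card := Finset.card_sdiff_add_card_eq_card hYX
      have hYpos : 0 < Y.card := hYne.card_pos
      obtain ⟨p, hp1, hp2, hp3⟩ := ih (X' \ Y).card (by omega) (X' \ Y) rfl
      obtain ⟨y₀, hy₀⟩ := hYne
      refine ⟨fun x => if x ∈ Y then y₀ else p x, ?_, ?_, ?_⟩
      · intro x hx
        by_cases hxY : x ∈ Y
        · simp only [hxY, if_true]
          exact hYX hy₀
        · simp only [hxY, if_false]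
          exact (Finset.mem_sdiff.1 (hp1 x (Finset.mem_sdiff.2 ⟨hx, hxY⟩))).1
      · intro c
        by_cases hc : c = y₀
        · refine (Finset.card_le_card ?_).trans hYF
          intro x hx
          rw [Finset.mem_filter] at hx
          by_contra hxY
          have h1 := hx.2
          simp only [hxY, if_false] at h1
          have h2 := hp1 x (Finset.mem_sdiff.2 ⟨hx.1, hxY⟩)
          rw [h1, hc] at h2
          exact (Finset.mem_sdiff.1 h2).2 hy₀
        · refine (Finset.card_le_card ?_).trans (hp2 c)
          intro x hx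
          rw [Finset.mem_filter] at hx
          have hxY : x ∉ Y := by
            intro hxY
            have h1 := hx.2
            simp only [hxY, if_true] at h1
            exact hc h1.symm
          have h1 := hx.2
          simp only [hxY, if_false] at h1
          exact Finset.mem_filter.2 ⟨Finset.mem_sdiff.2 ⟨hx.1, hxY⟩, h1⟩
      · have key : ∀ s ∈ S, ((X'.filter (fun x => a s x ∈ X' ∧
            (if a s x ∈ Y then y₀ else p (a s x)) ≠ (if x ∈ Y then y₀ else p x))).card : ℝ) ≤
            (((X' \ Y).filter (fun x => a s x ∈ X' \ Y ∧ p (a s x) ≠ p x)).card : ℝ) +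
              ((bdry a s X' Y : ℝ) + (bdry a s⁻¹ X' Y : ℝ)) := by
          intro s _
          have h1 : X'.filter (fun x => a s x ∈ X' ∧
              (if a s x ∈ Y then y₀ else p (a s x)) ≠ (if x ∈ Y then y₀ else p x)) ⊆
              ((X' \ Y).filter (fun x => a s x ∈ X' \ Y ∧ p (a s x) ≠ p x)) ∪
              ((Y.filter (fun x => a s x ∈ X' \ Y)) ∪
                (Y.filter (fun x => a s⁻¹ x ∈ X' \ Y)).image (a s⁻¹)) := by
            intro x hx
            rw [Finset.mem_filter] at hx
            obtain ⟨hx1, hx2, hx3⟩ := hx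
            rw [Finset.mem_union, Finset.mem_union]
            by_cases hxY : x ∈ Y
            · right; left
              rw [Finset.mem_filter, Finset.mem_sdiff]
              refine ⟨hxY, hx2, fun hsY => ?_⟩
              simp only [hxY, hsY, if_true] at hx3
              exact hx3 rfl
            · by_cases hsY : a s x ∈ Y
              · right; right
                rw [Finset.mem_image]
                have h2 : a s⁻¹ (a s x) = x := by
                  rw [map_inv]
                  exact Equiv.symm_apply_apply _ _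
                refine ⟨a s x, ?_, h2⟩
                rw [Finset.mem_filter, h2, Finset.mem_sdiff]
                exact ⟨hsY, hx1, hxY⟩
              · left
                simp only [hxY, hsY, if_false] at hx3
                rw [Finset.mem_filter, Finset.mem_sdiff, Finset.mem_sdiff]
                exact ⟨⟨hx1, hxY⟩, ⟨hx2, hsY⟩, hx3⟩
          have h2 := (Finset.card_le_card h1).trans ((Finset.card_union_le _ _).trans
            (Nat.add_le_add_left ((Finset.card_union_le _ _).trans
              (Nat.add_le_add_left Finset.card_image_le _)) _))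
          unfold bdry
          exact_mod_cast h2
        have hsum : ∑ s ∈ S, (bdry a s⁻¹ X' Y : ℝ) = ∑ s ∈ S, (bdry a s X' Y : ℝ) := by
          apply Finset.sum_nbij' (fun s => s⁻¹) (fun s => s⁻¹) hinv hinv
          · intro s _
            exact inv_inv s
          · intro s _
            exact inv_inv s
          · intro s _
            rfl
        have hfin : (∑ s ∈ S, ((((X' \ Y).filter
              (fun x => a s x ∈ X' \ Y ∧ p (a s x) ≠ p x)).card : ℝ) +
              ((bdry a s X' Y : ℝ) + (bdry a s⁻¹ X' Y : ℝ)))) ≤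
            2 * κ * S.card * X'.card := by
          rw [Finset.sum_add_distrib, Finset.sum_add_distrib, hsum]
          have h3 : (X'.card : ℝ) = (X' \ Y).card + Y.card := by exact_mod_cast hcard.symm
          rw [h3]
          have h4 : 2 * κ * S.card * (((X' \ Y).card : ℝ) + Y.card) =
            2 * κ * S.card * ((X' \ Y).card : ℝ) + 2 * (κ * S.card * Y.card) := by ring
          rw [h4]
          linarith
        refine le_trans (Finset.sum_le_sum key) hfin

end cut

/-- Uniform partition statement for a Folner amenable group. -/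
theorem exists_partition_of_amenable {G : Type} [Group G] (hG : FolnerAmenable G)
    (T : Finset G) (κ : ℝ) (hκ : 0 < κ) :
    ∃ M : ℕ, ∀ (X : Type) [Finite X] (a : G →* Perm X), ∃ p : X → X,
      (∀ c, Nat.card {x // p x = c} ≤ M) ∧
      ∀ t ∈ T, (Nat.card {x // p (a t x) ≠ p x} : ℝ) ≤ κ * Nat.card X := by
  classical
  set S : Finset G := T ∪ T.image (fun t => t⁻¹) with hSdef
  have hinv : ∀ s ∈ S, s⁻¹ ∈ S := by
    intro s hs
    rw [hSdef, Finset.mem_union, Finset.mem_image] at hs ⊢
    rcases hs with hs | ⟨t, ht, rfl⟩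
    · exact Or.inr ⟨s, hs, rfl⟩
    · rw [inv_inv]
      exact Or.inl ht
  set κ' : ℝ := κ / (2 * (S.card + 1)) with hκ'
  have hden : (0 : ℝ) < 2 * (S.card + 1) := by positivity
  have hκ'0 : 0 < κ' := div_pos hκ hden
  have hκ'eq : κ' * (2 * (S.card + 1)) = κ := div_mul_cancel₀ _ hden.ne'
  obtain ⟨F0, hF0, hF0ne, hF0b⟩ := hG (S : Set G) κ' S.finite_toSet hκ'0
  set F : Finset G := hF0.toFinset with hF
  have hFne : F.Nonempty := by
    obtain ⟨f, hf⟩ := hF0ne
    exact ⟨f, hF0.mem_toFinset.2 hf⟩
  have hFb : ∀ s ∈ S, ((F.filter (fun f => s * f ∉ F)).card : ℝ) ≤ κ' * F.card := by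
    intro s hs
    have h1 := hF0b s hs
    have e1 : Nat.card {f : G // f ∈ F0 ∧ s * f ∉ F0} = (F.filter (fun f => s * f ∉ F)).card := by
      have e3 : ({f : G | f ∈ F0 ∧ s * f ∉ F0} : Set G) =
          ((F.filter (fun f => s * f ∉ F) : Finset G) : Set G) := by
        ext f
        rw [Finset.coe_filter]
        simp only [Set.mem_ofPred_eq, hF, hF0.mem_toFinset]
      have e4 : Nat.card {f : G // f ∈ F0 ∧ s * f ∉ F0} =
          Set.ncard ({f : G | f ∈ F0 ∧ s * f ∉ F0} : Set G) := rfl
      rw [e4, e3, Set.ncard_coe_finset]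
    have e2 : Nat.card F0 = F.card := by
      rw [Nat.card_coe_set_eq, Set.ncard_eq_toFinset_card F0 hF0]
    rw [e1, e2] at h1
    exact h1
  refine ⟨F.card, ?_⟩
  intro X _ a
  have := Fintype.ofFinite X
  obtain ⟨p, _, hp2, hp3⟩ := exists_partition a F S κ' hκ'0.le hFne hFb hinv _ Finset.univ rfl
  refine ⟨p, ?_, ?_⟩
  · intro c
    have h1 := hp2 c
    rw [Nat.card_eq_fintype_card, Fintype.card_subtype]
    exact h1
  · intro t ht
    have h1 : ((Finset.univ.filter (fun x => a t x ∈ Finset.univ ∧ p (a t x) ≠ p x)).card : ℝ) ≤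
        2 * κ' * S.card * (Finset.univ : Finset X).card := by
      refine le_trans ?_ hp3
      exact Finset.single_le_sum (f := fun s =>
        ((Finset.univ.filter (fun x => a s x ∈ Finset.univ ∧ p (a s x) ≠ p x)).card : ℝ))
        (fun _ _ => Nat.cast_nonneg _) (Finset.mem_union_left _ ht)
    have h2 : Nat.card {x // p (a t x) ≠ p x} =
        (Finset.univ.filter (fun x => a t x ∈ Finset.univ ∧ p (a t x) ≠ p x)).card := by
      rw [Nat.card_eq_fintype_card, Fintype.card_subtype]
      congr 1
      ext x
      simp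
    have h3 : Nat.card X = (Finset.univ : Finset X).card := by
      rw [Nat.card_eq_fintype_card, Finset.card_univ]
    rw [h2, h3]
    refine h1.trans ?_
    have h4 : 2 * κ' * S.card ≤ κ := by
      rw [← hκ'eq]
      nlinarith
    exact mul_le_mul_of_nonneg_right h4 (Nat.cast_nonneg _)

end Pool.Agent.Helper94
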