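import Mathlib

/-!
Proportional selection of small pieces.
-/

namespace Pool.Agent.Helper94

open Finset in
/-- Proportional selection of pieces of bounded size, with labelled points. -/
theorem exists_selection (M : ℕ) (Λ : Type) [Finite Λ] : ∃ K : ℕ, ∀ (X : Type) [Finite X]
    (p : X → X) (ℓ : X → Λ), (∀ c, Nat.card {x // p x = c} ≤ M) →
    ∀ η : ℝ, 0 ≤ η → η ≤ 1 → ∃ I : Set X, ∀ l : Λ,
      |(Nat.card {x // p x ∈ I ∧ ℓ x = l} : ℝ) - η * Nat.card {x // ℓ x = l}| ≤ K := by
  classical
  have := Fintype.ofFinite Λ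
  refine ⟨Fintype.card (Λ → Fin (M + 1)) * M, ?_⟩
  intro X _ p ℓ hp η hη0 hη1
  have := Fintype.ofFinite X
  have hp' : ∀ c, (univ.filter (fun x => p x = c)).card ≤ M := by
    intro c
    have h1 := hp c
    rwa [Nat.card_eq_fintype_card, Fintype.card_subtype] at h1
  have hle : ∀ c l, (univ.filter (fun x => p x = c ∧ ℓ x = l)).card ≤ M := by
    intro c l
    refine (card_le_card ?_).trans (hp' c)
    intro x hx
    rw [mem_filter] at hx ⊢
    exact ⟨hx.1, hx.2.1⟩
  let τ : X → Λ → Fin (M + 1) := fun c l =>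
    ⟨(univ.filter (fun x => p x = c ∧ ℓ x = l)).card, Nat.lt_succ_of_le (hle c l)⟩
  let C : (Λ → Fin (M + 1)) → Finset X := fun v => univ.filter (fun c => τ c = v)
  have hI : ∀ v, ∃ I ⊆ C v, I.card = ⌊η * (C v).card⌋₊ := by
    intro v
    apply exists_subset_card_eq
    have h1 : η * ((C v).card : ℝ) ≤ (C v).card := by
      have : (0 : ℝ) ≤ (C v).card := Nat.cast_nonneg _
      nlinarith
    exact Nat.floor_le_of_le h1
  choose I hIC hIc using hI
  refine ⟨{c | c ∈ I (τ c)}, ?_⟩
  intro l
  have e1 : (Nat.card {x // p x ∈ {c | c ∈ I (τ c)} ∧ ℓ x = l} : ℝ) =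
      ∑ v, ((I v).card : ℝ) * (v l : ℕ) := by
    have h1 : Nat.card {x // p x ∈ {c | c ∈ I (τ c)} ∧ ℓ x = l} =
        ∑ c, if c ∈ I (τ c) then (τ c l : ℕ) else 0 := by
      rw [Nat.card_eq_fintype_card, Fintype.card_subtype,
        card_eq_sum_card_fiberwise (f := p) (t := univ) (fun _ _ => mem_coe.2 (mem_univ _))]
      apply sum_congr rfl
      intro c _
      by_cases hc : c ∈ I (τ c)
      · simp only [hc, if_true]
        change _ = (univ.filter (fun x => p x = c ∧ ℓ x = l)).card
        congr 1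
        ext x
        simp only [mem_filter, mem_univ, true_and, Set.mem_ofPred_eq]
        constructor
        · rintro ⟨⟨_, h2⟩, h3⟩
          exact ⟨h3, h2⟩
        · rintro ⟨h2, h3⟩
          refine ⟨⟨?_, h3⟩, h2⟩
          rw [h2]
          exact hc
      · simp only [hc, if_false, card_eq_zero]
        ext x
        simp only [mem_filter, mem_univ, true_and, Set.mem_ofPred_eq, notMem_empty, iff_false]
        rintro ⟨⟨h1, _⟩, h3⟩
        rw [h3] at h1
        exact hc h1
    rw [h1, ← sum_fiberwise univ τ]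
    push_cast
    apply sum_congr rfl
    intro v _
    have h2 : ∀ c ∈ univ.filter (fun c => τ c = v),
        (if c ∈ I (τ c) then ((τ c l : ℕ) : ℝ) else 0) =
        if c ∈ I v then ((v l : ℕ) : ℝ) else 0 := by
      intro c hc
      rw [(mem_filter.1 hc).2]
    rw [sum_congr rfl h2, ← sum_filter, sum_const, nsmul_eq_mul]
    congr 2
    congr 1
    ext c
    rw [mem_filter]
    constructor
    · exact fun h => h.2
    · exact fun h => ⟨hIC v h, h⟩
  have e2 : (Nat.card {x // ℓ x = l} : ℝ) = ∑ v, ((C v).card : ℝ) * (v l : ℕ) := by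
    have h1 : Nat.card {x // ℓ x = l} = ∑ c, (τ c l : ℕ) := by
      rw [Nat.card_eq_fintype_card, Fintype.card_subtype,
        card_eq_sum_card_fiberwise (f := p) (t := univ) (fun _ _ => mem_coe.2 (mem_univ _))]
      apply sum_congr rfl
      intro c _
      change _ = (univ.filter (fun x => p x = c ∧ ℓ x = l)).card
      congr 1
      ext x
      simp only [mem_filter, mem_univ, true_and]
      exact and_comm
    rw [h1, ← sum_fiberwise univ τ]
    push_cast
    apply sum_congr rfl
    intro v _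
    have h2 : ∀ c ∈ univ.filter (fun c => τ c = v), ((τ c l : ℕ) : ℝ) = ((v l : ℕ) : ℝ) := by
      intro c hc
      rw [(mem_filter.1 hc).2]
    rw [sum_congr rfl h2, sum_const, nsmul_eq_mul]
  rw [e1, e2, mul_sum, ← sum_sub_distrib]
  refine (abs_sum_le_sum_abs _ _).trans ?_
  have h3 : ∀ v ∈ (univ : Finset (Λ → Fin (M + 1))),
      |((I v).card : ℝ) * (v l : ℕ) - η * (((C v).card : ℝ) * (v l : ℕ))| ≤ M := by
    intro v _
    have h4 : ((I v).card : ℝ) * (v l : ℕ) - η * (((C v).card : ℝ) * (v l : ℕ)) =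
        (((I v).card : ℝ) - η * (C v).card) * (v l : ℕ) := by ring
    rw [h4, abs_mul]
    have h5 : |((I v).card : ℝ) - η * (C v).card| ≤ 1 := by
      rw [hIc v, abs_le]
      have h6 : 0 ≤ η * ((C v).card : ℝ) := mul_nonneg hη0 (Nat.cast_nonneg _)
      constructor
      · have := Nat.lt_floor_add_one (η * ((C v).card : ℝ))
        linarith
      · have := Nat.floor_le h6
        linarith
    have h7 : |(((v l : ℕ)) : ℝ)| ≤ M := by
      rw [abs_of_nonneg (Nat.cast_nonneg _)]
      exact_mod_cast Nat.lt_succ_iff.1 (v l).2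
    calc _ ≤ 1 * (M : ℝ) := mul_le_mul h5 h7 (abs_nonneg _) zero_le_one
      _ = M := one_mul _
  refine (sum_le_sum h3).trans ?_
  rw [sum_const, card_univ, nsmul_eq_mul]
  push_cast
  rfl

end Pool.Agent.Helper94
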