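import Mathlib
import Pool.Agent.Helper94.AStab
import Pool.Agent.Helper94.Hyperfin
import Pool.Agent.Helper94.Select

/-!
Proportional deletion for amenable groups which are stable in permutations.
-/

namespace Pool.Agent.Helper94

open Equiv

section nb

variable {G X : Type} [Group G]

/-- number of points at which `b` does not agree with `a` -/
noncomputable def nbad (D : X → Prop) (b : G →* Perm {x // D x}) (a : G →* Perm X) (t : G) : ℕ :=
  Nat.card {x : X // ¬ ∃ h : D x, (b t ⟨x, h⟩ : X) = a t x}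

lemma nbad_one_le [Finite X] (D : X → Prop) (b : G →* Perm {x // D x}) (a : G →* Perm X) (t : G) :
    nbad D b a 1 ≤ nbad D b a t := by
  unfold nbad
  apply card_le_of_imp
  rintro x hx ⟨h, _⟩
  apply hx
  refine ⟨h, ?_⟩
  rw [map_one, map_one]
  rfl

lemma nbad_mul [Finite X] (D : X → Prop) (b : G →* Perm {x // D x}) (a : G →* Perm X) (s t : G) :
    nbad D b a (s * t) ≤ nbad D b a s + nbad D b a t := by
  unfold nbad
  have e := card_perm_eq (a t) (fun x => ¬ ∃ h : D x, (b s ⟨x, h⟩ : X) = a s x)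
  rw [← e]
  refine le_trans ?_ (card_or_le _ _)
  apply card_le_of_imp
  intro x hx
  by_contra hcon
  push Not at hcon
  obtain ⟨⟨h1, h2⟩, h3, h4⟩ := hcon
  apply hx
  refine ⟨h3, ?_⟩
  have h5 : b t ⟨x, h3⟩ = ⟨a t x, h1⟩ := Subtype.ext h4
  rw [map_mul, map_mul, Perm.mul_apply, Perm.mul_apply, h5, h2]

lemma nbad_inv_le [Finite X] (D : X → Prop) (b : G →* Perm {x // D x}) (a : G →* Perm X) (t : G) :
    nbad D b a t⁻¹ ≤ nbad D b a t := by
  unfold nbad
  have e := card_perm_eq (a t) (fun x => ¬ ∃ h : D x, (b t⁻¹ ⟨x, h⟩ : X) = a t⁻¹ x)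
  rw [← e]
  apply card_le_of_imp
  rintro x hx ⟨h1, h2⟩
  apply hx
  have h3 : b t ⟨x, h1⟩ = ⟨a t x, h2 ▸ (b t ⟨x, h1⟩).2⟩ := Subtype.ext h2
  refine ⟨h2 ▸ (b t ⟨x, h1⟩).2, ?_⟩
  rw [← h3, map_inv, map_inv]
  have h4 : (b t)⁻¹ ((b t) ⟨x, h1⟩) = ⟨x, h1⟩ := Equiv.symm_apply_apply _ _
  have h5 : (a t)⁻¹ (a t x) = x := Equiv.symm_apply_apply _ _
  rw [h4, h5]

end nb

/-- Proportional deletion property relative to a family of subgroups. -/
def PDel (G : Type) [Group G] (𝓕 : Set (Subgroup G)) : Prop :=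
  ∃ c : G → ℝ, (∀ t, 0 ≤ c t) ∧ ∀ (T : Finset G) (𝓙 : Finset (Subgroup G)), (∀ J ∈ 𝓙, J ∈ 𝓕) →
    ∀ η ζ : ℝ, 0 < η → η ≤ 1 / 2 → 0 < ζ → ∃ N₀ : ℕ, ∀ (X : Type) [Finite X],
      N₀ ≤ Nat.card X → ∀ a : G →* Perm X, ∃ (D : X → Prop) (b : G →* Perm {x // D x}),
        (∀ t ∈ T, (nbad D b a t : ℝ) ≤ (c t * η + ζ) * Nat.card X) ∧
        (∀ J ∈ 𝓙, |(fixN b J : ℝ) - (1 - η) * fixN a J| ≤ ζ * Nat.card X)

lemma card_le_add_of_imp {X : Type} [Finite X] {P Q R : X → Prop} (h : ∀ x, P x → Q x ∨ R x) :
    (Nat.card {x // P x} : ℝ) ≤ Nat.card {x // Q x} + Nat.card {x // R x} := by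
  exact_mod_cast (card_le_of_imp h).trans (card_or_le Q R)

/-- points of a subset, seen in the big set -/
lemma card_sub_eq {X : Type} [Finite X] (D : X → Prop) (P : {x // D x} → Prop) :
    Nat.card {y : {x // D x} // P y} = Nat.card {x : X // ∃ h : D x, P ⟨x, h⟩} :=
  Nat.card_congr
    { toFun := fun y => ⟨y.1.1, y.1.2, y.2⟩
      invFun := fun x => ⟨⟨x.1, x.2.choose⟩, x.2.choose_spec⟩
      left_inv := fun _ => rfl
      right_inv := fun _ => rfl }

lemma card_abs_le {X : Type} [Finite X] {P Q R : X → Prop} (h : ∀ x, ¬ R x → (P x ↔ Q x)) :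
    |(Nat.card {x // P x} : ℝ) - Nat.card {x // Q x}| ≤ Nat.card {x // R x} := by
  have h1 : (Nat.card {x // P x} : ℝ) ≤ Nat.card {x // Q x} + Nat.card {x // R x} := by
    apply card_le_add_of_imp
    intro x hx
    by_cases hR : R x
    · exact Or.inr hR
    · exact Or.inl ((h x hR).1 hx)
  have h2 : (Nat.card {x // Q x} : ℝ) ≤ Nat.card {x // P x} + Nat.card {x // R x} := by
    apply card_le_add_of_imp
    intro x hx
    by_cases hR : R x
    · exact Or.inr hR
    · exact Or.inl ((h x hR).2 hx)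
  rw [abs_le]
  constructor <;> linarith

lemma card_sub_le {X : Type} [Finite X] (D : X → Prop) (P : {x // D x} → Prop) (Q : X → Prop)
    (h : ∀ y, P y → Q y.1) : Nat.card {y : {x // D x} // P y} ≤ Nat.card {x // Q x} := by
  rw [card_sub_eq]
  apply card_le_of_imp
  rintro x ⟨hx, hp⟩
  exact h _ hp

/-- A labelled selection, summed over the labels. -/
lemma selection_sum {X Λ : Type} [Finite X] [Fintype Λ] (B : X → Prop) (ℓ : X → Λ) (η K : ℝ)
    (h : ∀ l : Λ, |(Nat.card {x // B x ∧ ℓ x = l} : ℝ) - η * Nat.card {x // ℓ x = l}| ≤ K)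
    (hK : 0 ≤ K) (R : Λ → Prop) :
    |(Nat.card {x // ¬ B x ∧ R (ℓ x)} : ℝ) - (1 - η) * Nat.card {x // R (ℓ x)}| ≤
      Fintype.card Λ * K := by
  classical
  have := Fintype.ofFinite X
  have e1 : (Nat.card {x // R (ℓ x)} : ℝ) = ∑ l : Λ, if R l then
      (Nat.card {x // ℓ x = l} : ℝ) else 0 := by
    have h1 : Nat.card {x // R (ℓ x)} = ∑ l : Λ, if R l then Nat.card {x // ℓ x = l} else 0 := by
      rw [Nat.card_eq_fintype_card, Fintype.card_subtype,
        Finset.card_eq_sum_card_fiberwise (f := ℓ) (t := Finset.univ)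
          (fun _ _ => Finset.mem_coe.2 (Finset.mem_univ _))]
      apply Finset.sum_congr rfl
      intro l _
      by_cases hl : R l
      · simp only [hl, if_true]
        rw [Nat.card_eq_fintype_card, Fintype.card_subtype]
        congr 1
        ext x
        simp only [Finset.mem_filter, Finset.mem_univ, true_and]
        constructor
        · exact fun h => h.2
        · intro h
          exact ⟨h ▸ hl, h⟩
      · simp only [hl, if_false, Finset.card_eq_zero]
        ext x
        simp only [Finset.mem_filter, Finset.mem_univ, true_and, Finset.notMem_empty, iff_false]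
        rintro ⟨h1, h2⟩
        rw [h2] at h1
        exact hl h1
    rw [h1]
    push_cast
    rfl
  have e2 : (Nat.card {x // ¬ B x ∧ R (ℓ x)} : ℝ) = ∑ l : Λ, if R l then
      ((Nat.card {x // ℓ x = l} : ℝ) - Nat.card {x // B x ∧ ℓ x = l}) else 0 := by
    have h1 : Nat.card {x // ¬ B x ∧ R (ℓ x)} =
        ∑ l : Λ, if R l then Nat.card {x // ¬ B x ∧ ℓ x = l} else 0 := by
      rw [Nat.card_eq_fintype_card, Fintype.card_subtype,
        Finset.card_eq_sum_card_fiberwise (f := ℓ) (t := Finset.univ)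
          (fun _ _ => Finset.mem_coe.2 (Finset.mem_univ _))]
      apply Finset.sum_congr rfl
      intro l _
      by_cases hl : R l
      · simp only [hl, if_true]
        rw [Nat.card_eq_fintype_card, Fintype.card_subtype]
        congr 1
        ext x
        simp only [Finset.mem_filter, Finset.mem_univ, true_and]
        constructor
        · exact fun h => ⟨h.1.1, h.2⟩
        · intro h
          exact ⟨⟨h.1, h.2 ▸ hl⟩, h.2⟩
      · simp only [hl, if_false, Finset.card_eq_zero]
        ext x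
        simp only [Finset.mem_filter, Finset.mem_univ, true_and, Finset.notMem_empty, iff_false]
        rintro ⟨⟨_, h1⟩, h2⟩
        rw [h2] at h1
        exact hl h1
    rw [h1]
    push_cast
    apply Finset.sum_congr rfl
    intro l _
    congr 1
    have h2 : (Nat.card {x // B x ∧ ℓ x = l} : ℝ) + Nat.card {x // ¬ B x ∧ ℓ x = l} =
        Nat.card {x // ℓ x = l} := by
      have h3 : Nat.card {x // B x ∧ ℓ x = l} + Nat.card {x // ¬ B x ∧ ℓ x = l} =
        Nat.card {x // ℓ x = l} := by
        rw [← card_pred_add (fun y : {x // ℓ x = l} => B y.1)]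
        congr 1
        · rw [card_sub_eq]
          apply Nat.card_congr
          apply Equiv.subtypeEquivRight
          intro x
          simp only [exists_prop]
          exact and_comm
        · rw [card_sub_eq]
          apply Nat.card_congr
          apply Equiv.subtypeEquivRight
          intro x
          simp only [exists_prop]
          exact and_comm
      exact_mod_cast h3
    linarith
  rw [e1, e2, Finset.mul_sum, ← Finset.sum_sub_distrib]
  refine (Finset.abs_sum_le_sum_abs _ _).trans ?_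
  have h4 : ∀ l ∈ (Finset.univ : Finset Λ),
      |(if R l then ((Nat.card {x // ℓ x = l} : ℝ) - Nat.card {x // B x ∧ ℓ x = l}) else 0) -
        (1 - η) * (if R l then (Nat.card {x // ℓ x = l} : ℝ) else 0)| ≤ K := by
    intro l _
    by_cases hl : R l
    · simp only [hl, if_true]
      have h5 := h l
      rw [abs_sub_comm] at h5
      refine le_trans (le_of_eq ?_) h5
      congr 1
      ring
    · simp only [hl, if_false]
      simpa using hK
  refine (Finset.sum_le_sum h4).trans ?_
  rw [Finset.sum_const, Finset.card_univ, nsmul_eq_mul]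

end Pool.Agent.Helper94
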