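import Mathlib
import Pool.Agent.Helper94.Delete

/-!
Proportional deletion for amenable groups which are stable in permutations.
-/

namespace Pool.Agent.Helper94

open Equiv

theorem pDel_of_amenable {G : Type} [Group G] (hG : FolnerAmenable G) (hs : AStab G) :
    PDel G {J | Finite J} := by
  classical
  refine ⟨fun _ => 1, fun _ => zero_le_one, ?_⟩
  intro T 𝓙 h𝓙 η ζ hη0 hη1 hζ
  -- the finite set of relevant elements
  have hfin : ((T : Set G) ∪ ⋃ J ∈ 𝓙, ((J : Subgroup G) : Set G)).Finite := by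
    apply Set.Finite.union T.finite_toSet
    apply Set.Finite.biUnion 𝓙.finite_toSet
    intro J hJ
    have : Finite J := h𝓙 J hJ
    exact Set.toFinite _
  set T₁ : Finset G := hfin.toFinset with hT₁
  have hTT₁ : ∀ t ∈ T, t ∈ T₁ := fun t ht => hfin.mem_toFinset.2 (Or.inl ht)
  have hJT₁ : ∀ J ∈ 𝓙, ∀ g ∈ J, g ∈ T₁ := by
    intro J hJ g hg
    apply hfin.mem_toFinset.2
    right
    exact Set.mem_biUnion hJ hg
  set m : ℝ := (T₁.card : ℝ) with hm
  have hm0 : 0 ≤ m := Nat.cast_nonneg _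
  set ε₁ : ℝ := ζ / (8 * (m + 1)) with hε₁
  have hε₁0 : 0 < ε₁ := by positivity
  have hε₁eq : ε₁ * (8 * (m + 1)) = ζ := div_mul_cancel₀ _ (by positivity)
  obtain ⟨T', δ, hδ, hstab⟩ := hs T₁ ε₁ hε₁0
  set κ : ℝ := min (δ / 8) ε₁ with hκ
  have hκ0 : 0 < κ := lt_min (by linarith) hε₁0
  have hκδ : κ ≤ δ / 8 := min_le_left _ _
  have hκε : κ ≤ ε₁ := min_le_right _ _
  obtain ⟨M, hM⟩ := exists_partition_of_amenable hG
    (T₁ ∪ (T' ∪ (T' ×ˢ T').image (fun q => q.1 * q.2))) κ hκ0
  obtain ⟨K₀, hK₀⟩ := exists_selection M ({J // J ∈ 𝓙} → Prop)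
  set K₁ : ℝ := (Fintype.card ({J // J ∈ 𝓙} → Prop) : ℝ) * K₀ with hK₁
  have hK₁0 : 0 ≤ K₁ := by positivity
  obtain ⟨N₁, hN₁⟩ := exists_nat_gt (K₁ / (min ζ 1 / 4))
  have hmin : 0 < min ζ 1 / 4 := by
    have : 0 < min ζ 1 := lt_min hζ one_pos
    linarith
  refine ⟨N₁ + 1, ?_⟩
  intro X _ hX a
  set N : ℝ := (Nat.card X : ℝ) with hN
  have hN1 : (N₁ : ℝ) + 1 ≤ N := by
    rw [hN]
    exact_mod_cast hX
  have hNpos : 0 < N := by
    have : (0 : ℝ) ≤ N₁ := Nat.cast_nonneg _
    linarith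
  have hK₁N : K₁ ≤ min ζ 1 / 4 * N := by
    rw [div_lt_iff₀ hmin] at hN₁
    nlinarith
  have hK₁N1 : K₁ ≤ ζ / 4 * N := by
    refine hK₁N.trans (mul_le_mul_of_nonneg_right ?_ hNpos.le)
    have := min_le_left ζ 1
    linarith
  have hK₁N2 : K₁ ≤ 1 / 4 * N := by
    refine hK₁N.trans (mul_le_mul_of_nonneg_right ?_ hNpos.le)
    have := min_le_right ζ 1
    linarith
  obtain ⟨p, hp1, hp2⟩ := hM X a
  let ℓ : X → ({J // J ∈ 𝓙} → Prop) := fun x J => ∀ g ∈ J.1, a g x = x
  obtain ⟨I, hI⟩ := hK₀ X p ℓ hp1 η hη0.le (by linarith)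
  have hsel := selection_sum (fun x => p x ∈ I) ℓ η K₀ hI (Nat.cast_nonneg _)
  let D : X → Prop := fun x => ¬ p x ∈ I
  have hDcard : |(Nat.card {x // D x} : ℝ) - (1 - η) * N| ≤ K₁ := by
    have h1 := hsel (fun _ => True)
    have e1 : Nat.card {x // ¬ p x ∈ I ∧ True} = Nat.card {x // D x} :=
      Nat.card_congr (Equiv.subtypeEquivRight (fun x => by rw [and_true]))
    have e2 : Nat.card {x : X // True} = Nat.card X :=
      Nat.card_congr (Equiv.subtypeUnivEquiv (fun _ => trivial))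
    rw [e1, e2] at h1
    exact h1
  have hDlow : N / 4 ≤ (Nat.card {x // D x} : ℝ) := by
    have h1 := (abs_le.1 hDcard).1
    nlinarith
  have hDpos : 0 < Nat.card {x // D x} := by
    have : (0 : ℝ) < Nat.card {x // D x} := by linarith
    exact_mod_cast this
  have hne : Nonempty {x // D x} := (Nat.card_pos_iff.1 hDpos).1
  have hDmem : ∀ g x, D x → p (a g x) = p x → D (a g x) := by
    intro g x hx he
    change ¬ p (a g x) ∈ I
    rw [he]
    exact hx
  choose ρ hρ using fun g : G => exists_restriction (Function.Embedding.subtype D) (a g)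
  have hρ' : ∀ g (y : {x // D x}), p (a g y.1) = p y.1 → (ρ g y : X) = a g y.1 := by
    intro g y he
    have h1 : D (a g y.1) := hDmem g y.1 y.2 he
    have h2 := hρ g y ⟨a g y.1, h1⟩ rfl
    rw [h2]
  have hρmul : ∀ s ∈ T', ∀ t ∈ T', permDist (ρ s * ρ t) (ρ (s * t)) ≤ δ := by
    intro s hs t ht
    have hc1 : (Nat.card {y : {x // D x} // (ρ s * ρ t) y ≠ ρ (s * t) y} : ℝ) ≤ 2 * κ * N := by
      have h1 : Nat.card {y : {x // D x} // (ρ s * ρ t) y ≠ ρ (s * t) y} ≤
          Nat.card {x // p (a t x) ≠ p x ∨ p (a (s * t) x) ≠ p x} := by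
        apply card_sub_le
        intro y hy
        by_contra hcon
        push Not at hcon
        obtain ⟨h1, h2⟩ := hcon
        apply hy
        apply Subtype.ext
        have h3 := hρ' t y h1
        have h4 := hρ' (s * t) y h2
        have h5 : a s (ρ t y : X) = a (s * t) y.1 := by
          rw [h3, map_mul, Perm.mul_apply]
        have h6 := hρ' s (ρ t y) (by rw [h5, h2, h3, h1])
        rw [Perm.mul_apply, h6, h5, h4]
      have h2 := hp2 t (Finset.mem_union_right _ (Finset.mem_union_left _ ht))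
      have h3 := hp2 (s * t) (Finset.mem_union_right _ (Finset.mem_union_right _
        (Finset.mem_image.2 ⟨(s, t), Finset.mem_product.2 ⟨hs, ht⟩, rfl⟩)))
      have h4 : (Nat.card {y : {x // D x} // (ρ s * ρ t) y ≠ ρ (s * t) y} : ℝ) ≤
          Nat.card {x // p (a t x) ≠ p x} + Nat.card {x // p (a (s * t) x) ≠ p x} := by
        exact_mod_cast h1.trans (card_or_le _ _)
      linarith
    unfold permDist
    rw [div_le_iff₀ (by exact_mod_cast hDpos)]
    refine hc1.trans ?_
    nlinarith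
  obtain ⟨b, hb⟩ := hstab {x // D x} ρ hρmul
  have hb' : ∀ t ∈ T₁, (Nat.card {y : {x // D x} // ρ t y ≠ b t y} : ℝ) ≤ ε₁ * N := by
    intro t ht
    have h1 := hb t ht
    unfold permDist at h1
    rw [div_le_iff₀ (by exact_mod_cast hDpos)] at h1
    refine h1.trans (mul_le_mul_of_nonneg_left ?_ hε₁0.le)
    rw [hN]
    exact_mod_cast Nat.card_le_card_of_injective _ Subtype.val_injective
  have hκN : ∀ t ∈ T₁, (Nat.card {x // p (a t x) ≠ p x} : ℝ) ≤ κ * N :=
    fun t ht => hp2 t (Finset.mem_union_left _ ht)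
  refine ⟨D, b, ?_, ?_⟩
  · intro t ht
    have h1 : nbad D b a t ≤ Nat.card {x // ¬ D x} + (Nat.card {x // p (a t x) ≠ p x} +
        Nat.card {y : {x // D x} // ρ t y ≠ b t y}) := by
      unfold nbad
      rw [card_sub_eq D (fun y => ρ t y ≠ b t y)]
      refine le_trans ?_ (Nat.add_le_add_left (card_or_le _ _) _)
      refine le_trans ?_ (card_or_le _ _)
      apply card_le_of_imp
      intro x hx
      by_contra hcon
      push Not at hcon
      obtain ⟨h1, h2, h3⟩ := hcon
      apply hx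
      refine ⟨h1, ?_⟩
      rw [← h3 h1]
      exact hρ' t ⟨x, h1⟩ h2
    have h2 : (Nat.card {x // D x} : ℝ) + Nat.card {x // ¬ D x} = N := by
      rw [hN]
      exact_mod_cast card_pred_add D
    have h3 := (abs_le.1 hDcard).1
    have h4 := hb' t (hTT₁ t ht)
    have h5 := hκN t (hTT₁ t ht)
    have h6 : (nbad D b a t : ℝ) ≤ Nat.card {x // ¬ D x} + (Nat.card {x // p (a t x) ≠ p x} +
        Nat.card {y : {x // D x} // ρ t y ≠ b t y}) := by exact_mod_cast h1
    have h7 : κ * N ≤ ε₁ * N := mul_le_mul_of_nonneg_right hκε hNpos.le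
    have h8 : ε₁ * N ≤ ζ / 8 * N := by
      apply mul_le_mul_of_nonneg_right _ hNpos.le
      rw [← hε₁eq]
      nlinarith
    have h9 : 0 ≤ ζ * N := by positivity
    nlinarith
  · intro J hJ
    -- points where everything is fine
    have hbadc : (Nat.card {y : {x // D x} // ¬ ∀ g : {g // g ∈ T₁},
        (p (a g.1 y.1) = p y.1 ∧ ρ g.1 y = b g.1 y)} : ℝ) ≤ m * (κ * N + ε₁ * N) := by
      have h1 : (Nat.card {y : {x // D x} // ¬ ∀ g : {g // g ∈ T₁},
          (p (a g.1 y.1) = p y.1 ∧ ρ g.1 y = b g.1 y)} : ℝ) ≤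
          ∑ g : {g // g ∈ T₁}, (Nat.card {y : {x // D x} // ¬ (p (a g.1 y.1) = p y.1 ∧
            ρ g.1 y = b g.1 y)} : ℝ) := by
        exact_mod_cast card_not_forall_le (fun (g : {g // g ∈ T₁}) (y : {x // D x}) =>
          (p (a g.1 y.1) = p y.1 ∧ ρ g.1 y = b g.1 y))
      refine h1.trans ?_
      have h2 : ∀ g ∈ (Finset.univ : Finset {g // g ∈ T₁}),
          (Nat.card {y : {x // D x} // ¬ (p (a g.1 y.1) = p y.1 ∧ ρ g.1 y = b g.1 y)} : ℝ) ≤
          κ * N + ε₁ * N := by
        intro g _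
        have h3 : (Nat.card {y : {x // D x} // ¬ (p (a g.1 y.1) = p y.1 ∧
            ρ g.1 y = b g.1 y)} : ℝ) ≤ Nat.card {y : {x // D x} // p (a g.1 y.1) ≠ p y.1} +
              Nat.card {y : {x // D x} // ρ g.1 y ≠ b g.1 y} := by
          apply card_le_add_of_imp
          intro y hy
          exact not_and_or.1 hy
        have h4 : (Nat.card {y : {x // D x} // p (a g.1 y.1) ≠ p y.1} : ℝ) ≤
            Nat.card {x // p (a g.1 x) ≠ p x} := by
          exact_mod_cast card_sub_le D (fun y => p (a g.1 y.1) ≠ p y.1)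
            (fun x => p (a g.1 x) ≠ p x) (fun y hy => hy)
        have h5 := hκN g.1 g.2
        have h6 := hb' g.1 g.2
        linarith
      refine (Finset.sum_le_sum h2).trans ?_
      rw [Finset.sum_const, nsmul_eq_mul, hm]
      apply le_of_eq
      congr 2
      rw [Finset.card_univ, Fintype.card_coe]
    have h1 : |(fixN b J : ℝ) - Nat.card {y : {x // D x} // ∀ g ∈ J, a g y.1 = y.1}| ≤
        m * (κ * N + ε₁ * N) := by
      refine le_trans ?_ hbadc
      unfold fixN
      apply card_abs_le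
      intro y hy
      rw [not_not] at hy
      constructor
      · intro h g hg
        have h2 := hy ⟨g, hJT₁ J hJ g hg⟩
        have h3 := h g hg
        rw [← h2.2] at h3
        rw [← hρ' g y h2.1, h3]
      · intro h g hg
        have h2 := hy ⟨g, hJT₁ J hJ g hg⟩
        rw [← h2.2]
        apply Subtype.ext
        rw [hρ' g y h2.1, h g hg]
    have h2 := hsel (fun l => l ⟨J, hJ⟩)
    have e1 : Nat.card {x // ¬ p x ∈ I ∧ ℓ x ⟨J, hJ⟩} =
        Nat.card {y : {x // D x} // ∀ g ∈ J, a g y.1 = y.1} := by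
      rw [card_sub_eq]
      apply Nat.card_congr
      apply Equiv.subtypeEquivRight
      intro x
      simp only [exists_prop]
      exact Iff.rfl
    have e2 : Nat.card {x // ℓ x ⟨J, hJ⟩} = fixN a J := rfl
    rw [e1, e2] at h2
    have h3 : |(fixN b J : ℝ) - (1 - η) * fixN a J| ≤ m * (κ * N + ε₁ * N) + K₁ := by
      have h4 : (fixN b J : ℝ) - (1 - η) * fixN a J =
          ((fixN b J : ℝ) - Nat.card {y : {x // D x} // ∀ g ∈ J, a g y.1 = y.1}) +
          ((Nat.card {y : {x // D x} // ∀ g ∈ J, a g y.1 = y.1} : ℝ) - (1 - η) * fixN a J) := by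
        ring
      rw [h4]
      exact (abs_add_le _ _).trans (add_le_add h1 h2)
    refine h3.trans ?_
    have h5 : κ * N ≤ ε₁ * N := mul_le_mul_of_nonneg_right hκε hNpos.le
    have h6 : m * (κ * N + ε₁ * N) ≤ m * (2 * (ε₁ * N)) := by
      apply mul_le_mul_of_nonneg_left _ hm0
      linarith
    have h7 : m * (2 * (ε₁ * N)) ≤ ζ / 4 * N := by
      have : m * (2 * ε₁) ≤ ζ / 4 := by
        rw [← hε₁eq]
        nlinarith
      calc m * (2 * (ε₁ * N)) = m * (2 * ε₁) * N := by ring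
        _ ≤ ζ / 4 * N := mul_le_mul_of_nonneg_right this hNpos.le
    have h8 : 0 ≤ ζ * N := by positivity
    linarith

end Pool.Agent.Helper94
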