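import Mathlib
import Pool.Agent.Helper94.Delete

/-!
Amenable groups which are stable in permutations are residually finite.
-/

namespace Pool.Agent.Helper94

open Equiv

theorem res_of_amenable {G : Type} [Group G] (hG : FolnerAmenable G) (hs : AStab G) (g : G)
    (hg : InRes G g) : g = 1 := by
  classical
  by_contra hg1
  obtain ⟨T', δ, hδ, hstab⟩ := hs {g} (1 / 4) (by norm_num)
  set κ : ℝ := min (δ / 2) (1 / 4) with hκ
  have hκ0 : 0 < κ := lt_min (by linarith) (by norm_num)
  obtain ⟨F, hF, hFne, hFb⟩ := hG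
    (((insert g (T' ∪ (T' ×ˢ T').image (fun q => q.1 * q.2)) : Finset G)) : Set G) κ
    (Finset.finite_toSet _) hκ0
  have : Finite F := hF
  have hne : Nonempty F := hFne.to_subtype
  set N : ℝ := (Nat.card F : ℝ) with hN
  have hNpos : 0 < N := by
    rw [hN]
    exact_mod_cast Nat.card_pos
  have hb : ∀ s, s ∈ insert g (T' ∪ (T' ×ˢ T').image (fun q => q.1 * q.2)) →
      (Nat.card {x : F // s * x.1 ∉ F} : ℝ) ≤ κ * N := by
    intro s hs
    refine le_trans (le_of_eq ?_) (hFb s (Finset.mem_coe.2 hs))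
    congr 1
    exact Nat.card_congr
      { toFun := fun x => ⟨x.1.1, x.1.2, x.2⟩
        invFun := fun x => ⟨⟨x.1, x.2.1⟩, x.2.2⟩
        left_inv := fun _ => rfl
        right_inv := fun _ => rfl }
  choose ρ hρ using fun s : G => exists_restriction
    (Function.Embedding.subtype (fun x => x ∈ F)) (Equiv.mulLeft s)
  have hρ' : ∀ s (x : F), s * x.1 ∈ F → (ρ s x : G) = s * x.1 := by
    intro s x hx
    have h1 := hρ s x ⟨s * x.1, hx⟩ rfl
    exact congrArg Subtype.val h1
  obtain ⟨ψ, hψ⟩ := hstab F ρ (by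
    intro s hs t ht
    unfold permDist
    rw [div_le_iff₀ hNpos]
    have h1 : (Nat.card {x : F // (ρ s * ρ t) x ≠ ρ (s * t) x} : ℝ) ≤
        Nat.card {x : F // t * x.1 ∉ F} + Nat.card {x : F // (s * t) * x.1 ∉ F} := by
      apply card_le_add_of_imp
      intro x hx
      by_contra hcon
      push Not at hcon
      obtain ⟨h1, h2⟩ := hcon
      apply hx
      apply Subtype.ext
      have h3 := hρ' t x h1
      have h4 : s * (ρ t x : G) = s * t * x.1 := by rw [h3, mul_assoc]
      rw [Perm.mul_apply, hρ' s (ρ t x) (by rw [h4]; exact h2), h4, hρ' (s * t) x h2]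
    have h2 := hb t (Finset.mem_insert_of_mem (Finset.mem_union_left _ ht))
    have h3 := hb (s * t) (Finset.mem_insert_of_mem (Finset.mem_union_right _
      (Finset.mem_image.2 ⟨(s, t), Finset.mem_product.2 ⟨hs, ht⟩, rfl⟩)))
    have h4 : κ ≤ δ / 2 := min_le_left _ _
    have h5 : κ * N ≤ δ / 2 * N := mul_le_mul_of_nonneg_right h4 hNpos.le
    linarith)
  have h1 := hψ g (Finset.mem_singleton_self g)
  have h2 : ψ g = 1 := hg (Perm F) ψ
  rw [h2] at h1
  unfold permDist at h1
  rw [div_le_iff₀ hNpos] at h1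
  have h3 : (Nat.card F : ℝ) ≤ Nat.card {x : F // ρ g x ≠ (1 : Perm F) x} +
      Nat.card {x : F // g * x.1 ∉ F} := by
    have e : Nat.card F = Nat.card {x : F // True} :=
      (Nat.card_congr (Equiv.subtypeUnivEquiv (fun _ => trivial))).symm
    rw [e]
    apply card_le_add_of_imp
    intro x _
    by_cases hx : g * x.1 ∈ F
    · left
      intro hcon
      have h4 := hρ' g x hx
      rw [hcon] at h4
      apply hg1
      have h5 : x.1 = g * x.1 := h4
      exact (mul_eq_right.1 h5.symm)
    · exact Or.inr hx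
  have h4 := hb g (Finset.mem_insert_self _ _)
  have h5 : κ ≤ 1 / 4 := min_le_right _ _
  have h6 : κ * N ≤ 1 / 4 * N := mul_le_mul_of_nonneg_right h5 hNpos.le
  linarith

end Pool.Agent.Helper94
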