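import Mathlib

/-!
Finite 2-groups of exponent 8 in which almost all, but not all, elements satisfy `y ^ 4 = 1`.
-/

namespace Pool.Agent.Helper94

/-- `F n` is the elementary abelian 2-group of rank `n`. -/
abbrev F (n : ℕ) := Fin n → ZMod 2

/-- Function space on `F n`. -/
abbrev U (n : ℕ) := F n → ZMod 2

/-- translation -/
def tau {n : ℕ} (f : F n) (u : U n) : U n := fun g => u (g + f)

/-- dot product -/
def dot {n : ℕ} (u v : U n) : ZMod 2 := ∑ g, u g * v g

lemma F_add_self {n : ℕ} (f : F n) : f + f = 0 := by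
  funext i
  exact CharTwo.add_self_eq_zero (f i)

lemma U_add_self {n : ℕ} (f : U n) : f + f = 0 := by
  funext i
  exact CharTwo.add_self_eq_zero (f i)

lemma dot_comm {n : ℕ} (u v : U n) : dot u v = dot v u := by
  unfold dot
  exact Finset.sum_congr rfl (fun g _ => mul_comm _ _)

lemma dot_add_left {n : ℕ} (u u' v : U n) : dot (u + u') v = dot u v + dot u' v := by
  unfold dot
  rw [← Finset.sum_add_distrib]
  exact Finset.sum_congr rfl (fun g _ => by simp [add_mul])

lemma dot_add_right {n : ℕ} (u v v' : U n) : dot u (v + v') = dot u v + dot u v' := by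
  rw [dot_comm, dot_add_left, dot_comm v, dot_comm v']

lemma dot_zero_left {n : ℕ} (v : U n) : dot 0 v = 0 := by
  simp [dot]

lemma dot_zero_right {n : ℕ} (v : U n) : dot v 0 = 0 := by
  simp [dot]

lemma tau_add {n : ℕ} (f : F n) (u v : U n) : tau f (u + v) = tau f u + tau f v := rfl

lemma tau_tau {n : ℕ} (f g : F n) (u : U n) : tau f (tau g u) = tau (f + g) u := by
  funext x
  simp only [tau]
  congr 1
  abel

lemma tau_zero {n : ℕ} (u : U n) : tau 0 u = u := by
  funext x
  simp [tau]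

lemma tau_tau_self {n : ℕ} (f : F n) (u : U n) : tau f (tau f u) = u := by
  rw [tau_tau, F_add_self, tau_zero]

lemma tau_zero_right {n : ℕ} (f : F n) : tau f 0 = 0 := rfl

lemma dot_tau_tau {n : ℕ} (f : F n) (u v : U n) : dot (tau f u) (tau f v) = dot u v := by
  unfold dot tau
  exact Fintype.sum_equiv (Equiv.addRight f) _ _ (fun g => rfl)

lemma dot_tau_left {n : ℕ} (f : F n) (u v : U n) : dot (tau f u) v = dot u (tau f v) := by
  rw [← dot_tau_tau f (tau f u) v, tau_tau, F_add_self, tau_zero]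

lemma dot_self_tau {n : ℕ} (f : F n) (hf : f ≠ 0) (u : U n) : dot u (tau f u) = 0 := by
  unfold dot tau
  refine Finset.sum_involution (fun g _ => g + f) ?_ ?_ ?_ ?_
  · intro g _
    simp only [add_assoc, F_add_self, add_zero]
    rw [mul_comm (u (g + f)) (u g)]
    exact CharTwo.add_self_eq_zero _
  · intro g _ _ h
    exact hf (by simpa using h)
  · intro g _
    exact Finset.mem_univ _
  · intro g _
    simp only [add_assoc, F_add_self, add_zero]

/-- The group `(D_8 ∘ ... ∘ D_8) : (C_2 × F n)`. -/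
@[ext]
structure Gp (n : ℕ) where
  c : ZMod 2
  u : U n
  v : U n
  s : ZMod 2
  f : F n
  deriving DecidableEq

namespace Gp

variable {n : ℕ}

/-- multiplication -/
def mul (x y : Gp n) : Gp n where
  c := x.c + y.c + x.s * dot y.u y.v +
    dot x.v ((1 + x.s) • tau x.f y.u + x.s • tau x.f y.v)
  u := x.u + ((1 + x.s) • tau x.f y.u + x.s • tau x.f y.v)
  v := x.v + ((1 + x.s) • tau x.f y.v + x.s • tau x.f y.u)
  s := x.s + y.s
  f := x.f + y.f

lemma zmod2_cases (a : ZMod 2) : a = 0 ∨ a = 1 := by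
  revert a
  decide

instance : Mul (Gp n) := ⟨mul⟩

instance : One (Gp n) := ⟨⟨0, 0, 0, 0, 0⟩⟩

lemma mul_def (x y : Gp n) : x * y = mul x y := rfl

lemma one_def : (1 : Gp n) = ⟨0, 0, 0, 0, 0⟩ := rfl

lemma two_eq_zero : (1 + 1 : ZMod 2) = 0 := by decide

lemma mul_zero_s (x y : Gp n) (h : x.s = 0) : x * y =
    ⟨x.c + y.c + dot x.v (tau x.f y.u), x.u + tau x.f y.u, x.v + tau x.f y.v, y.s, x.f + y.f⟩ := by
  rw [mul_def, mul, h]
  simp

lemma mul_one_s (x y : Gp n) (h : x.s = 1) : x * y =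
    ⟨x.c + y.c + dot y.u y.v + dot x.v (tau x.f y.v), x.u + tau x.f y.v, x.v + tau x.f y.u,
      1 + y.s, x.f + y.f⟩ := by
  rw [mul_def, mul, h, two_eq_zero]
  simp

lemma mul_s (x y : Gp n) : (x * y).s = x.s + y.s := rfl

protected lemma one_mul (x : Gp n) : 1 * x = x := by
  rw [mul_zero_s 1 x rfl]
  ext <;> simp [one_def, tau_zero, dot_zero_left]

protected lemma mul_one (x : Gp n) : x * 1 = x := by
  rcases zmod2_cases x.s with h | h
  · rw [mul_zero_s x 1 h]
    ext <;> simp [one_def, tau_zero_right, dot_zero_right, h]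
  · rw [mul_one_s x 1 h]
    ext <;> simp [one_def, tau_zero_right, dot_zero_right, h]

protected lemma mul_assoc (x y z : Gp n) : x * y * z = x * (y * z) := by
  have e00 : ∀ x y : Gp n, x.s = 0 → (x * y).c = x.c + y.c + dot x.v (tau x.f y.u) ∧
      (x * y).u = x.u + tau x.f y.u ∧ (x * y).v = x.v + tau x.f y.v ∧ (x * y).s = y.s ∧
      (x * y).f = x.f + y.f := by
    intro x y h
    rw [mul_zero_s x y h]
    exact ⟨rfl, rfl, rfl, rfl, rfl⟩
  have e11 : ∀ x y : Gp n, x.s = 1 → (x * y).c = x.c + y.c + dot y.u y.v +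
      dot x.v (tau x.f y.v) ∧
      (x * y).u = x.u + tau x.f y.v ∧ (x * y).v = x.v + tau x.f y.u ∧ (x * y).s = 1 + y.s ∧
      (x * y).f = x.f + y.f := by
    intro x y h
    rw [mul_one_s x y h]
    exact ⟨rfl, rfl, rfl, rfl, rfl⟩
  rcases zmod2_cases x.s with hx | hx <;> rcases zmod2_cases y.s with hy | hy
  · have hxy : (x * y).s = 0 := by rw [mul_s, hx, hy]; rfl
    obtain ⟨a1, a2, a3, a4, a5⟩ := e00 x y hx
    obtain ⟨b1, b2, b3, b4, b5⟩ := e00 y z hy
    obtain ⟨c1, c2, c3, c4, c5⟩ := e00 (x * y) z hxy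
    obtain ⟨d1, d2, d3, d4, d5⟩ := e00 x (y * z) hx
    ext1
    · rw [c1, d1, a1, b1, a3, b2, a5, tau_add, dot_add_left, dot_add_right, ← tau_tau x.f y.f,
        dot_tau_tau]
      ring
    · rw [c2, d2, a2, b2, a5, tau_add, tau_tau, add_assoc]
    · rw [c3, d3, a3, b3, a5, tau_add, tau_tau, add_assoc]
    · rw [c4, d4, b4]
    · rw [c5, d5, a5, b5, add_assoc]
  · have hxy : (x * y).s = 1 := by rw [mul_s, hx, hy]; rfl
    obtain ⟨a1, a2, a3, a4, a5⟩ := e00 x y hx
    obtain ⟨b1, b2, b3, b4, b5⟩ := e11 y z hy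
    obtain ⟨c1, c2, c3, c4, c5⟩ := e11 (x * y) z hxy
    obtain ⟨d1, d2, d3, d4, d5⟩ := e00 x (y * z) hx
    ext1
    · rw [c1, d1, a1, b1, a3, b2, a5, tau_add, dot_add_left, dot_add_right, ← tau_tau x.f y.f,
        dot_tau_tau]
      ring
    · rw [c2, d2, a2, b2, a5, tau_add, tau_tau, add_assoc]
    · rw [c3, d3, a3, b3, a5, tau_add, tau_tau, add_assoc]
    · rw [c4, d4, b4]
    · rw [c5, d5, a5, b5, add_assoc]
  · have hxy : (x * y).s = 1 := by rw [mul_s, hx, hy]; rfl
    obtain ⟨a1, a2, a3, a4, a5⟩ := e11 x y hx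
    obtain ⟨b1, b2, b3, b4, b5⟩ := e00 y z hy
    obtain ⟨c1, c2, c3, c4, c5⟩ := e11 (x * y) z hxy
    obtain ⟨d1, d2, d3, d4, d5⟩ := e11 x (y * z) hx
    ext1
    · rw [c1, d1, a1, b1, a3, b2, b3, a5, ← tau_tau x.f y.f]
      simp only [tau_add, dot_add_left, dot_add_right, dot_tau_tau]
      rw [dot_comm (tau y.f z.u) y.v]
      linear_combination (-dot y.v (tau y.f z.u)) * two_eq_zero
    · rw [c2, d2, a2, b3, a5, tau_add, tau_tau, add_assoc]
    · rw [c3, d3, a3, b2, a5, tau_add, tau_tau, add_assoc]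
    · rw [c4, d4, b4]
    · rw [c5, d5, a5, b5, add_assoc]
  · have hxy : (x * y).s = 0 := by rw [mul_s, hx, hy]; rfl
    obtain ⟨a1, a2, a3, a4, a5⟩ := e11 x y hx
    obtain ⟨b1, b2, b3, b4, b5⟩ := e11 y z hy
    obtain ⟨c1, c2, c3, c4, c5⟩ := e00 (x * y) z hxy
    obtain ⟨d1, d2, d3, d4, d5⟩ := e11 x (y * z) hx
    ext1
    · rw [c1, d1, a1, b1, a3, b2, b3, a5, ← tau_tau x.f y.f]
      simp only [tau_add, dot_add_left, dot_add_right, dot_tau_tau]
      rw [dot_comm (tau y.f z.v) y.v, dot_comm z.u z.v]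
      linear_combination (-dot y.v (tau y.f z.v) - dot z.v z.u) * two_eq_zero
    · rw [c2, d2, a2, b3, a5, tau_add, tau_tau, add_assoc]
    · rw [c3, d3, a3, b2, a5, tau_add, tau_tau, add_assoc]
    · rw [c4, d4, b4]
      linear_combination (-1 : ZMod 2) * two_eq_zero
    · rw [c5, d5, a5, b5, add_assoc]

instance : Monoid (Gp n) where
  mul_assoc := Gp.mul_assoc
  one_mul := Gp.one_mul
  mul_one := Gp.mul_one

/-- The fourth power of an element of `Gp n`. -/
lemma sq_sq (x : Gp n) : (x * x) * (x * x) =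
    ⟨x.s * (dot x.v (tau x.f x.v) + dot x.u (tau x.f x.u)), 0, 0, 0, 0⟩ := by
  rcases zmod2_cases x.s with h | h
  · have h1 : (x * x).s = 0 := by rw [mul_s, h]; rfl
    rw [mul_zero_s (x * x) _ h1, mul_zero_s x x h]
    ext1
    · simp only [F_add_self, tau_zero, dot_add_left, dot_add_right, dot_tau_left, tau_tau_self, h]
      linear_combination (x.c + x.c + dot x.v (tau x.f x.u) + dot x.v x.u + dot x.v (tau x.f x.u)) *
        two_eq_zero
    · simp only [F_add_self, tau_zero, U_add_self]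
    · simp only [F_add_self, tau_zero, U_add_self]
    · simp only [h]
    · simp only [F_add_self]
  · have h1 : (x * x).s = 0 := by rw [mul_s, h]; rfl
    rw [mul_zero_s (x * x) _ h1, mul_one_s x x h]
    ext1
    · simp only [F_add_self, tau_zero, dot_add_left, dot_add_right, dot_tau_left, tau_tau_self, h]
      rw [dot_comm x.v x.u]
      linear_combination (x.c + x.c + dot x.u x.v + dot x.u x.v + dot x.v (tau x.f x.v)) *
        two_eq_zero
    · simp only [F_add_self, tau_zero, U_add_self]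
    · simp only [F_add_self, tau_zero, U_add_self]
    · simp only [h]; rfl
    · simp only [F_add_self]

lemma pow_four (x : Gp n) : x ^ 4 =
    ⟨x.s * (dot x.v (tau x.f x.v) + dot x.u (tau x.f x.u)), 0, 0, 0, 0⟩ := by
  rw [← sq_sq x]
  have : x ^ 4 = (x ^ 2) * (x ^ 2) := by rw [← pow_add]
  rw [this, pow_two]

lemma pow_eight (x : Gp n) : x ^ 8 = 1 := by
  have : x ^ 8 = (x ^ 4) * (x ^ 4) := by rw [← pow_add]
  rw [this, pow_four, mul_zero_s _ _ rfl]
  ext1
  · simp only [tau_zero, dot_zero_left, one_def, add_zero]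
    exact CharTwo.add_self_eq_zero _
  · simp [tau_zero, one_def]
  · simp [tau_zero, one_def]
  · simp [one_def]
  · simp [one_def]

instance : Group (Gp n) where
  inv := fun x => x ^ 7
  inv_mul_cancel := fun x => by
    change x ^ 7 * x = 1
    rw [← pow_succ, pow_eight]

/-- the obvious equivalence with a product -/
def equivProd (n : ℕ) : Gp n ≃ ZMod 2 × U n × U n × ZMod 2 × F n where
  toFun := fun x => (x.c, x.u, x.v, x.s, x.f)
  invFun := fun p => ⟨p.1, p.2.1, p.2.2.1, p.2.2.2.1, p.2.2.2.2⟩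
  left_inv := fun _ => rfl
  right_inv := fun _ => rfl

instance : Fintype (Gp n) := Fintype.ofEquiv _ (equivProd n).symm

lemma card_eq : Fintype.card (Gp n) =
    2 * (Fintype.card (U n) * (Fintype.card (U n) * (2 * 2 ^ n))) := by
  rw [Fintype.card_congr (equivProd n)]
  simp [Fintype.card_prod]

/-- elements with nontrivial fourth power have `s = 1` and `f = 0`. -/
lemma bad_iff (x : Gp n) (h : x ^ 4 ≠ 1) : x.s = 1 ∧ x.f = 0 := by
  rw [pow_four] at h
  rcases zmod2_cases x.s with hs | hs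
  · exfalso
    apply h
    rw [hs]
    ext1 <;> simp [one_def]
  · refine ⟨hs, ?_⟩
    by_contra hf
    apply h
    rw [dot_self_tau _ hf, dot_self_tau _ hf]
    ext1 <;> simp [one_def]

lemma card_bad : (Finset.univ.filter (fun x : Gp n => x ^ 4 ≠ 1)).card * (2 * 2 ^ n) ≤
    Fintype.card (Gp n) := by
  have h1 : (Finset.univ.filter (fun x : Gp n => x ^ 4 ≠ 1)).card ≤
      2 * (Fintype.card (U n) * Fintype.card (U n)) := by
    have h2 : (Finset.univ.filter (fun x : Gp n => x ^ 4 ≠ 1)).card ≤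
        (Finset.univ : Finset (ZMod 2 × U n × U n)).card := by
      apply Finset.card_le_card_of_injOn (fun x => (x.c, x.u, x.v))
      · intro x _
        exact Finset.mem_univ _
      · intro x hx y hy hxy
        have hx' := bad_iff x (by simpa using hx)
        have hy' := bad_iff y (by simpa using hy)
        simp only [Prod.mk.injEq] at hxy
        ext1
        · exact hxy.1
        · exact hxy.2.1
        · exact hxy.2.2
        · rw [hx'.1, hy'.1]
        · rw [hx'.2, hy'.2]
    refine h2.trans (le_of_eq ?_)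
    rw [Finset.card_univ, Fintype.card_prod, Fintype.card_prod]
    rfl
  rw [card_eq]
  calc _ ≤ 2 * (Fintype.card (U n) * Fintype.card (U n)) * (2 * 2 ^ n) :=
        Nat.mul_le_mul_right _ h1
    _ = _ := by ring

/-- an element of order 8 -/
lemma exists_bad : ∃ x : Gp n, x ^ 4 ≠ 1 := by
  refine ⟨⟨0, Pi.single 0 1, 0, 1, 0⟩, ?_⟩
  rw [pow_four]
  intro h
  have := congrArg Gp.c h
  simp [one_def, tau_zero, dot, Pi.single_apply] at this

end Gp

end Pool.Agent.Helper94
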