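import Mathlib
import Pool.Agent.Helper94.MainP

/-!
Gluing almost matching actions on subsets of a given set, with control of the total size.
-/

namespace Pool.Agent.Helper94

open Equiv

/-- extension of a partial injection -/
lemma exists_embedding_extend {X Z : Type} [Finite X] [Finite Z] (P : X → Prop)
    (κ : {x // P x} → Z) (hκ : Function.Injective κ) (hcard : Nat.card Z ≤ Nat.card X) :
    ∃ j : Z ↪ X, ∀ x : {x // P x}, j (κ x) = x.1 := by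
  classical
  have := Fintype.ofFinite X
  have := Fintype.ofFinite Z
  let R : Z → Prop := fun z => ∃ x, κ x = z
  have e1 : Nat.card {z // R z} = Nat.card {x // P x} :=
    (Nat.card_congr (Equiv.ofInjective κ hκ)).symm
  have e2 := card_pred_add R
  have e3 := card_pred_add P
  have hle : Nat.card {z // ¬ R z} ≤ Nat.card {x // ¬ P x} := by omega
  rw [Nat.card_eq_fintype_card, Nat.card_eq_fintype_card] at hle
  obtain ⟨e'⟩ := Function.Embedding.nonempty_of_card_le hle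
  let f : Z → X := fun z => if h : R z then (h.choose).1 else (e' ⟨z, h⟩).1
  have hf1 : ∀ x : {x // P x}, f (κ x) = x.1 := by
    intro x
    have hR : R (κ x) := ⟨x, rfl⟩
    have h2 : f (κ x) = (hR.choose).1 := dif_pos hR
    rw [h2]
    exact congrArg Subtype.val (hκ hR.choose_spec)
  have hf2 : ∀ z (h : ¬ R z), f z = (e' ⟨z, h⟩).1 := fun z h => dif_neg h
  refine ⟨⟨f, ?_⟩, hf1⟩
  intro z z' hzz
  by_cases h : R z
  · by_cases h' : R z'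
    · obtain ⟨x, rfl⟩ := h
      obtain ⟨x', rfl⟩ := h'
      rw [hf1, hf1] at hzz
      rw [Subtype.ext hzz]
    · obtain ⟨x, rfl⟩ := h
      rw [hf1, hf2 z' h'] at hzz
      exact absurd (hzz ▸ x.2) (e' ⟨z', h'⟩).2
  · by_cases h' : R z'
    · obtain ⟨x, rfl⟩ := h'
      rw [hf1, hf2 z h] at hzz
      exact absurd (hzz.symm ▸ x.2) (e' ⟨z, h⟩).2
    · rw [hf2 z h, hf2 z' h'] at hzz
      exact congrArg Subtype.val (e'.injective (Subtype.ext hzz))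

lemma fixN_one {G : Type} [Group G] (X : Type) (J : Subgroup G) :
    fixN (1 : G →* Perm X) J = Nat.card X := by
  unfold fixN
  exact Nat.card_congr (Equiv.subtypeUnivEquiv (fun x g _ => rfl))

section core

variable {G₁ G₂ H : Type} [Group G₁] [Group G₂] [Group H] [Finite H]

/-- Gluing with control of the total size. -/
theorem exists_strict_core (i₁ : H →* G₁) (i₂ : H →* G₂)
    (hres : ∀ h, InRes G₁ (i₁ h) ↔ InRes G₂ (i₂ h)) [Fintype (Subgroup H)] :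
    ∃ C : ℕ, ∀ (X : Type) [Finite X] (D₁ D₂ : X → Prop) (b₁ : G₁ →* Perm {x // D₁ x})
      (b₂ : G₂ →* Perm {x // D₂ x}) (P : X → Prop) (M : ℕ)
      (_ : ∀ x, P x → D₁ x ∧ D₂ x)
      (_ : ∀ (h : H) (x : X) (h₁ : D₁ x) (h₂ : D₂ x), P x →
        P (b₁ (i₁ h) ⟨x, h₁⟩) ∧ (b₁ (i₁ h) ⟨x, h₁⟩ : X) = b₂ (i₂ h) ⟨x, h₂⟩)
      (_ : Nat.card {x // D₁ x} + C * ∑ J : Subgroup H,
        ((fixN (b₁.comp i₁) J - fixN (b₂.comp i₂) J) +
          (fixN (b₂.comp i₂) J - fixN (b₁.comp i₁) J)) ≤ M) (_ : M ≤ Nat.card X),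
      ∃ (D : X → Prop) (b : Amalgam i₁ i₂ →* Perm {x // D x}), Nat.card {x // D x} = M ∧
        (∀ (t : G₁) (x : X) (h₁ : D₁ x), P x → P (b₁ t ⟨x, h₁⟩) →
          ∃ hD : D x, (b (am₁ i₁ i₂ t) ⟨x, hD⟩ : X) = b₁ t ⟨x, h₁⟩) ∧
        (∀ (t : G₂) (x : X) (h₂ : D₂ x), P x → P (b₂ t ⟨x, h₂⟩) →
          ∃ hD : D x, (b (am₂ i₁ i₂ t) ⟨x, hD⟩ : X) = b₂ t ⟨x, h₂⟩) ∧
        (∀ J : Subgroup G₁, fixN b₁ J ≤ fixN (b.comp (am₁ i₁ i₂)) J ∧
          fixN (b.comp (am₁ i₁ i₂)) J + Nat.card {x // D₁ x} ≤ fixN b₁ J + M) ∧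
        (∀ J : Subgroup G₂, fixN b₂ J ≤ fixN (b.comp (am₂ i₁ i₂)) J ∧
          fixN (b.comp (am₂ i₁ i₂)) J + Nat.card {x // D₂ x} ≤ fixN b₂ J + M) := by
  classical
  obtain ⟨C, hC⟩ := exists_bound i₁ i₂ hres
  refine ⟨C, ?_⟩
  intro X _ D₁ D₂ b₁ b₂ P M hPD hP hM1 hM2
  set m₁ : Subgroup H → ℕ := fixN (b₁.comp i₁) with hm₁
  set m₂ : Subgroup H → ℕ := fixN (b₂.comp i₂) with hm₂
  have hmem : ((fun J => m₁ J - m₂ J, fun J => m₂ J - m₁ J) :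
      (Subgroup H → ℕ) × (Subgroup H → ℕ)) ∈ matchSub i₁ i₂ := by
    obtain ⟨B₁, B₂, hB⟩ := exists_match i₁ i₂ hres ⟨{x // D₁ x}, inferInstance, b₁⟩
      ⟨{x // D₂ x}, inferInstance, b₂⟩
    refine ⟨B₁, B₂, fun J => ?_⟩
    have h1 : m₁ J + marks i₁ B₁ J = m₂ J + marks i₂ B₂ J := hB J
    simp only
    omega
  obtain ⟨R₁, R₂, hR, hRc⟩ := hC _ hmem
  have := R₁.fin
  have := R₂.fin
  simp only at hR hRc
  have hk : Nat.card {x // D₁ x} + Nat.card R₁.X ≤ M := by omega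
  obtain ⟨k, hk⟩ := Nat.exists_eq_add_of_le hk
  let β₁ : G₁ →* Perm (({x // D₁ x} ⊕ R₁.X) ⊕ Fin k) := sumAct (sumAct b₁ R₁.a) 1
  let β₂ : G₂ →* Perm (({x // D₂ x} ⊕ R₂.X) ⊕ Fin k) := sumAct (sumAct b₂ R₂.a) 1
  have hβ₁fix : ∀ J : Subgroup G₁, fixN β₁ J = fixN b₁ J + fixN R₁.a J + k := by
    intro J
    rw [fixN_sumAct, fixN_sumAct, fixN_one, Nat.card_eq_fintype_card, Fintype.card_fin]
  have hβ₂fix : ∀ J : Subgroup G₂, fixN β₂ J = fixN b₂ J + fixN R₂.a J + k := by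
    intro J
    rw [fixN_sumAct, fixN_sumAct, fixN_one, Nat.card_eq_fintype_card, Fintype.card_fin]
  have hfix : ∀ J, fixN (β₁.comp i₁) J = fixN (β₂.comp i₂) J := by
    intro J
    have e1 : fixN (β₁.comp i₁) J = m₁ J + marks i₁ R₁ J + k := by
      have : β₁.comp i₁ = sumAct (sumAct (b₁.comp i₁) (R₁.a.comp i₁)) 1 := rfl
      rw [this, fixN_sumAct, fixN_sumAct, fixN_one, Nat.card_eq_fintype_card, Fintype.card_fin]
      rfl
    have e2 : fixN (β₂.comp i₂) J = m₂ J + marks i₂ R₂ J + k := by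
      have : β₂.comp i₂ = sumAct (sumAct (b₂.comp i₂) (R₂.a.comp i₂)) 1 := rfl
      rw [this, fixN_sumAct, fixN_sumAct, fixN_one, Nat.card_eq_fintype_card, Fintype.card_fin]
      rfl
    have h1 := hR J
    rw [e1, e2]
    omega
  let κ₁ : {x // P x} ↪ (({x // D₁ x} ⊕ R₁.X) ⊕ Fin k) :=
    ⟨fun x => Sum.inl (Sum.inl ⟨x.1, (hPD x.1 x.2).1⟩), by
      intro x x' h
      have h1 := Sum.inl_injective (Sum.inl_injective h)
      exact Subtype.ext (Subtype.mk.inj h1)⟩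
  let κ₂ : {x // P x} ↪ (({x // D₂ x} ⊕ R₂.X) ⊕ Fin k) :=
    ⟨fun x => Sum.inl (Sum.inl ⟨x.1, (hPD x.1 x.2).2⟩), by
      intro x x' h
      have h1 := Sum.inl_injective (Sum.inl_injective h)
      exact Subtype.ext (Subtype.mk.inj h1)⟩
  obtain ⟨e, he, heP⟩ := extend_iso (β₁.comp i₁) (β₂.comp i₂) κ₁ κ₂ (fun _ => True) (by
    intro h x _
    have h1 := hP h x.1 (hPD x.1 x.2).1 (hPD x.1 x.2).2 x.2
    refine ⟨⟨_, h1.1⟩, trivial, ?_, ?_⟩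
    · change Sum.inl (Sum.inl (b₁ (i₁ h) ⟨x.1, _⟩)) = Sum.inl (Sum.inl ⟨_, _⟩)
      rfl
    · change Sum.inl (Sum.inl (b₂ (i₂ h) ⟨x.1, _⟩)) = Sum.inl (Sum.inl ⟨_, _⟩)
      congr 2
      exact Subtype.ext h1.2.symm) hfix
  have hZ₁ : Nat.card (({x // D₁ x} ⊕ R₁.X) ⊕ Fin k) = M := by
    rw [Nat.card_sum, Nat.card_sum, Nat.card_eq_fintype_card (α := Fin k), Fintype.card_fin]
    exact hk.symm
  have hZ₂ : Nat.card (({x // D₂ x} ⊕ R₂.X) ⊕ Fin k) = M := by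
    rw [← Nat.card_congr e, hZ₁]
  have hZ₂' : Nat.card {x // D₂ x} + Nat.card R₂.X + k = M := by
    rw [← hZ₂, Nat.card_sum, Nat.card_sum, Nat.card_eq_fintype_card (α := Fin k),
      Fintype.card_fin]
  obtain ⟨j, hj⟩ := exists_embedding_extend P κ₁ κ₁.injective (by rw [hZ₁]; exact hM2)
  let β₂' : G₂ →* Perm (({x // D₁ x} ⊕ R₁.X) ⊕ Fin k) :=
    (e.symm.permCongrHom.toMonoidHom).comp β₂
  have hβ : ∀ h, β₁ (i₁ h) = β₂' (i₂ h) := by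
    intro h
    apply Equiv.ext
    intro z
    change β₁ (i₁ h) z = e.symm (β₂ (i₂ h) (e z))
    rw [Equiv.eq_symm_apply]
    exact he h z
  let E : (({x // D₁ x} ⊕ R₁.X) ⊕ Fin k) ≃ {x // x ∈ Set.range j} :=
    Equiv.ofInjective j j.injective
  let b : Amalgam i₁ i₂ →* Perm {x // x ∈ Set.range j} :=
    (E.permCongrHom.toMonoidHom).comp (amLift i₁ i₂ β₁ β₂' hβ)
  have hb₁ : ∀ (t : G₁) z, b (am₁ i₁ i₂ t) (E z) = E (β₁ t z) := by
    intro t z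
    change E (amLift i₁ i₂ β₁ β₂' hβ (am₁ i₁ i₂ t) (E.symm (E z))) = E (β₁ t z)
    rw [Equiv.symm_apply_apply]
    rfl
  have hb₂ : ∀ (t : G₂) z, b (am₂ i₁ i₂ t) (E z) = E (e.symm (β₂ t (e z))) := by
    intro t z
    change E (amLift i₁ i₂ β₁ β₂' hβ (am₂ i₁ i₂ t) (E.symm (E z))) = E (e.symm (β₂ t (e z)))
    rw [Equiv.symm_apply_apply]
    rfl
  have hE : ∀ (x : {x // P x}) (hD : x.1 ∈ Set.range j), (⟨x.1, hD⟩ : {x // x ∈ Set.range j}) =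
      E (κ₁ x) := fun x hD => Subtype.ext (hj x).symm
  refine ⟨fun x => x ∈ Set.range j, b, ?_, ?_, ?_, ?_, ?_⟩
  · rw [← hZ₁]
    exact (Nat.card_congr E).symm
  · intro t x h₁ hx hx'
    have hD : x ∈ Set.range j := ⟨κ₁ ⟨x, hx⟩, hj ⟨x, hx⟩⟩
    refine ⟨hD, ?_⟩
    rw [hE ⟨x, hx⟩ hD, hb₁]
    exact hj ⟨_, hx'⟩
  · intro t x h₂ hx hx'
    have hD : x ∈ Set.range j := ⟨κ₁ ⟨x, hx⟩, hj ⟨x, hx⟩⟩
    refine ⟨hD, ?_⟩
    rw [hE ⟨x, hx⟩ hD, hb₂, heP ⟨x, hx⟩ trivial]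
    have h3 : β₂ t (κ₂ ⟨x, hx⟩) = κ₂ ⟨_, hx'⟩ := rfl
    rw [h3, ← heP ⟨_, hx'⟩ trivial, Equiv.symm_apply_apply]
    exact hj ⟨_, hx'⟩
  · intro J
    have e1 : fixN (b.comp (am₁ i₁ i₂)) J = fixN β₁ J := by
      apply (ActIso.fixN_eq _ J).symm
      exact ⟨E, fun t z => (hb₁ t z).symm⟩
    rw [e1, hβ₁fix]
    have h1 := fixN_le_card R₁.a J
    constructor <;> omega
  · intro J
    have e1 : fixN (b.comp (am₂ i₁ i₂)) J = fixN β₂ J := by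
      apply ActIso.fixN_eq _ J
      refine ActIso.symm ⟨e.symm.trans E, fun t z => ?_⟩
      obtain ⟨z, rfl⟩ := e.surjective z
      rw [Equiv.trans_apply, Equiv.trans_apply, Equiv.symm_apply_apply]
      exact (hb₂ t z).symm
    rw [e1, hβ₂fix]
    have h1 := fixN_le_card R₂.a J
    constructor <;> omega

end core

end Pool.Agent.Helper94
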