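import Mathlib
import Pool.Agent.Helper94.Delete
import Pool.Agent.Helper94.StrictCore

/-!
The gluing step for strict stability.
-/

namespace Pool.Agent.Helper94

open Equiv

lemma fixN_map {H G X : Type} [Group H] [Group G] (i : H →* G) (a : G →* Perm X)
    (J : Subgroup H) : fixN a (J.map i) = fixN (a.comp i) J := by
  unfold fixN
  apply Nat.card_congr
  apply Equiv.subtypeEquivRight
  intro x
  constructor
  · intro h g hg
    exact h (i g) ⟨g, hg, rfl⟩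
  · rintro h _ ⟨g, hg, rfl⟩
    exact h g hg

section

variable {G₁ G₂ H : Type} [Group G₁] [Group G₂] [Group H] [Finite H]

/-- The gluing step. -/
theorem glue_step (i₁ : H →* G₁) (i₂ : H →* G₂)
    (hres : ∀ h, InRes G₁ (i₁ h) ↔ InRes G₂ (i₂ h)) (𝓕₁ : Set (Subgroup G₁))
    (𝓕₂ : Set (Subgroup G₂)) (h𝓕₁ : ∀ J : Subgroup H, J.map i₁ ∈ 𝓕₁)
    (h𝓕₂ : ∀ J : Subgroup H, J.map i₂ ∈ 𝓕₂) (hd₁ : PDel G₁ 𝓕₁) (hd₂ : PDel G₂ 𝓕₂) :
    ∃ (c₁ : G₁ → ℝ) (c₂ : G₂ → ℝ), (∀ t, 0 ≤ c₁ t) ∧ (∀ t, 0 ≤ c₂ t) ∧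
      ∀ (T₁ : Finset G₁) (T₂ : Finset G₂) (𝓙₁ : Finset (Subgroup G₁))
        (𝓙₂ : Finset (Subgroup G₂)), (∀ J ∈ 𝓙₁, J ∈ 𝓕₁) → (∀ J ∈ 𝓙₂, J ∈ 𝓕₂) →
        ∀ η ζ : ℝ, 0 < η → η ≤ 1 / 2 → 0 < ζ → ∃ (N₀ : ℕ) (δ : ℝ), 0 < δ ∧
          ∀ (X : Type) [Finite X], N₀ ≤ Nat.card X →
            ∀ (ψ₁ : G₁ →* Perm X) (ψ₂ : G₂ →* Perm X),
            (∀ h, (Nat.card {x // ψ₁ (i₁ h) x ≠ ψ₂ (i₂ h) x} : ℝ) ≤ δ * Nat.card X) →
            ∀ M : ℕ, (1 - η) * Nat.card X + ζ * Nat.card X ≤ M → M ≤ Nat.card X →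
            ∃ (D : X → Prop) (b : Amalgam i₁ i₂ →* Perm {x // D x}),
              Nat.card {x // D x} = M ∧
              (∀ t ∈ T₁, (nbad D (b.comp (am₁ i₁ i₂)) ψ₁ t : ℝ) ≤
                (c₁ t * η + ζ) * Nat.card X) ∧
              (∀ t ∈ T₂, (nbad D (b.comp (am₂ i₁ i₂)) ψ₂ t : ℝ) ≤
                (c₂ t * η + ζ) * Nat.card X) ∧
              (∀ J ∈ 𝓙₁, (1 - η) * fixN ψ₁ J - ζ * Nat.card X ≤
                  fixN (b.comp (am₁ i₁ i₂)) J ∧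
                (fixN (b.comp (am₁ i₁ i₂)) J : ℝ) ≤ (1 - η) * fixN ψ₁ J + ζ * Nat.card X +
                  (M - (1 - η) * Nat.card X)) ∧
              (∀ J ∈ 𝓙₂, (1 - η) * fixN ψ₂ J - ζ * Nat.card X ≤
                  fixN (b.comp (am₂ i₁ i₂)) J ∧
                (fixN (b.comp (am₂ i₁ i₂)) J : ℝ) ≤ (1 - η) * fixN ψ₂ J + ζ * Nat.card X +
                  (M - (1 - η) * Nat.card X)) := by
  classical
  have := Fintype.ofFinite H
  have := Fintype.ofFinite (Subgroup H)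
  obtain ⟨C, hC⟩ := exists_strict_core i₁ i₂ hres
  obtain ⟨c₁, hc₁, hd₁⟩ := hd₁
  obtain ⟨c₂, hc₂, hd₂⟩ := hd₂
  set n : ℝ := (Fintype.card H : ℝ) with hn
  set s : ℝ := (Fintype.card (Subgroup H) : ℝ) with hs
  have hn0 : 0 ≤ n := Nat.cast_nonneg _
  have hs0 : 0 ≤ s := Nat.cast_nonneg _
  set cs : ℝ := ∑ h : H, (c₁ (i₁ h) + c₂ (i₂ h)) with hcs
  have hcsnn : ∀ h : H, 0 ≤ c₁ (i₁ h) + c₂ (i₂ h) := fun h => add_nonneg (hc₁ _) (hc₂ _)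
  have hcs0 : 0 ≤ cs := Finset.sum_nonneg (fun h _ => hcsnn h)
  refine ⟨fun t => 2 * n * cs + c₁ t, fun t => 2 * n * cs + c₂ t,
    fun t => add_nonneg (by positivity) (hc₁ t), fun t => add_nonneg (by positivity) (hc₂ t), ?_⟩
  intro T₁ T₂ 𝓙₁ 𝓙₂ h𝓙₁ h𝓙₂ η ζ hη0 hη1 hζ
  set Kc : ℝ := 6 * n * n + 3 + C * (s * (2 + n)) with hKc
  have hKc0 : 0 < Kc := by positivity
  set ζ₁ : ℝ := ζ / Kc with hζ₁
  have hζ₁0 : 0 < ζ₁ := div_pos hζ hKc0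
  have hζ₁eq : ζ₁ * Kc = ζ := div_mul_cancel₀ _ hKc0.ne'
  obtain ⟨N₁, hN₁⟩ := hd₁ (T₁ ∪ Finset.univ.image i₁)
    (𝓙₁ ∪ Finset.univ.image (fun J : Subgroup H => J.map i₁)) (by
      intro J hJ
      rw [Finset.mem_union, Finset.mem_image] at hJ
      rcases hJ with hJ | ⟨J', _, rfl⟩
      · exact h𝓙₁ J hJ
      · exact h𝓕₁ J') η ζ₁ hη0 hη1 hζ₁0
  obtain ⟨N₂, hN₂⟩ := hd₂ (T₂ ∪ Finset.univ.image i₂)
    (𝓙₂ ∪ Finset.univ.image (fun J : Subgroup H => J.map i₂)) (by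
      intro J hJ
      rw [Finset.mem_union, Finset.mem_image] at hJ
      rcases hJ with hJ | ⟨J', _, rfl⟩
      · exact h𝓙₂ J hJ
      · exact h𝓕₂ J') η ζ₁ hη0 hη1 hζ₁0
  refine ⟨max N₁ N₂, ζ₁, hζ₁0, ?_⟩
  intro X _ hX ψ₁ ψ₂ hψ M hM1 hM2
  set N : ℝ := (Nat.card X : ℝ) with hN
  have hNnn : 0 ≤ N := Nat.cast_nonneg _
  obtain ⟨D₁, b₁, hb₁, hf₁⟩ := hN₁ X ((le_max_left _ _).trans hX) ψ₁
  obtain ⟨D₂, b₂, hb₂, hf₂⟩ := hN₂ X ((le_max_right _ _).trans hX) ψ₂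
  have hb₁H : ∀ h, (nbad D₁ b₁ ψ₁ (i₁ h) : ℝ) ≤ (c₁ (i₁ h) * η + ζ₁) * N := fun h =>
    hb₁ _ (Finset.mem_union_right _ (Finset.mem_image_of_mem _ (Finset.mem_univ h)))
  have hb₂H : ∀ h, (nbad D₂ b₂ ψ₂ (i₂ h) : ℝ) ≤ (c₂ (i₂ h) * η + ζ₁) * N := fun h =>
    hb₂ _ (Finset.mem_union_right _ (Finset.mem_image_of_mem _ (Finset.mem_univ h)))
  -- good points
  let Q : H → X → Prop := fun h x => (∃ h1 : D₁ x, (b₁ (i₁ h) ⟨x, h1⟩ : X) = ψ₁ (i₁ h) x) ∧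
    (∃ h2 : D₂ x, (b₂ (i₂ h) ⟨x, h2⟩ : X) = ψ₂ (i₂ h) x) ∧ ψ₁ (i₁ h) x = ψ₂ (i₂ h) x
  let G0 : X → Prop := fun x => ∀ h, Q h x
  let P : X → Prop := fun x => ∀ k : H, G0 (ψ₁ (i₁ k) x)
  have hQ : ∀ h, (Nat.card {x // ¬ Q h x} : ℝ) ≤
      ((c₁ (i₁ h) + c₂ (i₂ h)) * η + 3 * ζ₁) * N := by
    intro h
    have h1 : Nat.card {x // ¬ Q h x} ≤ nbad D₁ b₁ ψ₁ (i₁ h) + (nbad D₂ b₂ ψ₂ (i₂ h) +
        Nat.card {x // ψ₁ (i₁ h) x ≠ ψ₂ (i₂ h) x}) := by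
      unfold nbad
      refine le_trans ?_ (Nat.add_le_add_left (card_or_le _ _) _)
      refine le_trans ?_ (card_or_le _ _)
      apply card_le_of_imp
      intro x hx
      by_contra hcon
      rw [not_or, not_or, not_not, not_not, not_not] at hcon
      exact hx hcon
    have h2 : (Nat.card {x // ¬ Q h x} : ℝ) ≤ nbad D₁ b₁ ψ₁ (i₁ h) +
      (nbad D₂ b₂ ψ₂ (i₂ h) + Nat.card {x // ψ₁ (i₁ h) x ≠ ψ₂ (i₂ h) x}) := by exact_mod_cast h1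
    have h3 := hb₁H h
    have h4 := hb₂H h
    have h5 := hψ h
    have h6 : ((c₁ (i₁ h) + c₂ (i₂ h)) * η + 3 * ζ₁) * N = (c₁ (i₁ h) * η + ζ₁) * N +
      (c₂ (i₂ h) * η + ζ₁) * N + ζ₁ * N := by ring
    rw [h6]
    linarith
  have hG0 : (Nat.card {x // ¬ G0 x} : ℝ) ≤ (cs * η + 3 * n * ζ₁) * N := by
    have h1 : (Nat.card {x // ¬ G0 x} : ℝ) ≤ ∑ h : H, (Nat.card {x // ¬ Q h x} : ℝ) := by
      exact_mod_cast card_not_forall_le Q
    refine h1.trans ((Finset.sum_le_sum (fun h _ => hQ h)).trans (le_of_eq ?_))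
    rw [← Finset.sum_mul, Finset.sum_add_distrib, ← Finset.sum_mul, Finset.sum_const,
      Finset.card_univ, nsmul_eq_mul]
    ring
  have hPc : (Nat.card {x // ¬ P x} : ℝ) ≤ n * ((cs * η + 3 * n * ζ₁) * N) := by
    have h1 : (Nat.card {x // ¬ P x} : ℝ) ≤
        ∑ k : H, (Nat.card {x // ¬ G0 (ψ₁ (i₁ k) x)} : ℝ) := by
      exact_mod_cast card_not_forall_le (fun (k : H) x => G0 (ψ₁ (i₁ k) x))
    have h2 : ∀ k : H, Nat.card {x // ¬ G0 (ψ₁ (i₁ k) x)} = Nat.card {x // ¬ G0 x} :=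
      fun k => card_perm_eq (ψ₁ (i₁ k)) (fun x => ¬ G0 x)
    simp only [h2, Finset.sum_const, Finset.card_univ, nsmul_eq_mul] at h1
    exact h1.trans (mul_le_mul_of_nonneg_left hG0 hn0)
  have hP1 : ∀ x, P x → G0 x := by
    intro x hx
    have h1 := hx 1
    rw [map_one, map_one] at h1
    exact h1
  have hPD : ∀ x, P x → D₁ x ∧ D₂ x := by
    intro x hx
    have h1 := hP1 x hx 1
    exact ⟨h1.1.1, h1.2.1.1⟩
  have hPH : ∀ (h : H) (x : X) (h₁ : D₁ x) (h₂ : D₂ x), P x →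
      P (b₁ (i₁ h) ⟨x, h₁⟩) ∧ (b₁ (i₁ h) ⟨x, h₁⟩ : X) = b₂ (i₂ h) ⟨x, h₂⟩ := by
    intro h x h₁ h₂ hx
    have h3 := hP1 x hx h
    have h4 : (b₁ (i₁ h) ⟨x, h₁⟩ : X) = ψ₁ (i₁ h) x := h3.1.2
    have h5 : (b₂ (i₂ h) ⟨x, h₂⟩ : X) = ψ₂ (i₂ h) x := h3.2.1.2
    refine ⟨?_, ?_⟩
    · rw [h4]
      intro k
      have h6 := hx (k * h)
      rw [map_mul, map_mul] at h6
      exact h6
    · rw [h4, h5]
      exact h3.2.2
  -- marks
  have hbot₁ : |(Nat.card {x // D₁ x} : ℝ) - (1 - η) * N| ≤ ζ₁ * N := by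
    have h1 := hf₁ ((⊥ : Subgroup H).map i₁)
      (Finset.mem_union_right _ (Finset.mem_image_of_mem _ (Finset.mem_univ _)))
    rw [Subgroup.map_bot, fixN_bot, fixN_bot] at h1
    exact h1
  have hbot₂ : |(Nat.card {x // D₂ x} : ℝ) - (1 - η) * N| ≤ ζ₁ * N := by
    have h1 := hf₂ ((⊥ : Subgroup H).map i₂)
      (Finset.mem_union_right _ (Finset.mem_image_of_mem _ (Finset.mem_univ _)))
    rw [Subgroup.map_bot, fixN_bot, fixN_bot] at h1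
    exact h1
  have hmarks : ∀ J : Subgroup H,
      |(fixN (b₁.comp i₁) J : ℝ) - fixN (b₂.comp i₂) J| ≤ (2 + n) * ζ₁ * N := by
    intro J
    have h1 := hf₁ (J.map i₁)
      (Finset.mem_union_right _ (Finset.mem_image_of_mem _ (Finset.mem_univ _)))
    have h2 := hf₂ (J.map i₂)
      (Finset.mem_union_right _ (Finset.mem_image_of_mem _ (Finset.mem_univ _)))
    rw [fixN_map, fixN_map] at h1 h2
    have h3 : |(fixN (ψ₁.comp i₁) J : ℝ) - fixN (ψ₂.comp i₂) J| ≤ n * (ζ₁ * N) := by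
      have h4 : |(fixN (ψ₁.comp i₁) J : ℝ) - fixN (ψ₂.comp i₂) J| ≤
          Nat.card {x // ¬ ∀ h : H, ψ₁ (i₁ h) x = ψ₂ (i₂ h) x} := by
        unfold fixN
        apply card_abs_le
        intro x hx
        rw [not_not] at hx
        constructor
        · intro h5 g hg
          have h6 : (ψ₂.comp i₂) g x = (ψ₁.comp i₁) g x := (hx g).symm
          rw [h6]
          exact h5 g hg
        · intro h5 g hg
          have h6 : (ψ₁.comp i₁) g x = (ψ₂.comp i₂) g x := hx g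
          rw [h6]
          exact h5 g hg
      refine h4.trans ?_
      have h5 : (Nat.card {x // ¬ ∀ h : H, ψ₁ (i₁ h) x = ψ₂ (i₂ h) x} : ℝ) ≤
          ∑ h : H, (Nat.card {x // ¬ ψ₁ (i₁ h) x = ψ₂ (i₂ h) x} : ℝ) := by
        exact_mod_cast card_not_forall_le (fun (h : H) x => ψ₁ (i₁ h) x = ψ₂ (i₂ h) x)
      refine h5.trans ((Finset.sum_le_sum (fun h _ => hψ h)).trans (le_of_eq ?_))
      rw [Finset.sum_const, Finset.card_univ, nsmul_eq_mul]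
    have hη2 : |1 - η| ≤ 1 := by
      rw [abs_le]
      constructor <;> linarith
    have h7 : |(1 - η) * ((fixN (ψ₁.comp i₁) J : ℝ) - fixN (ψ₂.comp i₂) J)| ≤
        n * (ζ₁ * N) := by
      rw [abs_mul]
      calc _ ≤ 1 * (n * (ζ₁ * N)) := mul_le_mul hη2 h3 (abs_nonneg _) zero_le_one
        _ = _ := one_mul _
    rw [abs_le] at h1 h2 h7 ⊢
    constructor
    · nlinarith [h1.1, h2.2, h7.1]
    · nlinarith [h1.2, h2.1, h7.2]
  have hsum : ((∑ J : Subgroup H, ((fixN (b₁.comp i₁) J - fixN (b₂.comp i₂) J) +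
      (fixN (b₂.comp i₂) J - fixN (b₁.comp i₁) J)) : ℕ) : ℝ) ≤ s * ((2 + n) * ζ₁ * N) := by
    rw [Nat.cast_sum]
    have h1 : ∀ J ∈ (Finset.univ : Finset (Subgroup H)),
        (((fixN (b₁.comp i₁) J - fixN (b₂.comp i₂) J) +
          (fixN (b₂.comp i₂) J - fixN (b₁.comp i₁) J) : ℕ) : ℝ) ≤ (2 + n) * ζ₁ * N := by
      intro J _
      refine le_trans (le_of_eq ?_) (hmarks J)
      rcases le_total (fixN (b₁.comp i₁) J) (fixN (b₂.comp i₂) J) with h | h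
      · rw [Nat.sub_eq_zero_of_le h, zero_add, Nat.cast_sub h, abs_sub_comm, abs_of_nonneg]
        have : (fixN (b₁.comp i₁) J : ℝ) ≤ fixN (b₂.comp i₂) J := by exact_mod_cast h
        linarith
      · rw [Nat.sub_eq_zero_of_le h, add_zero, Nat.cast_sub h, abs_of_nonneg]
        have : (fixN (b₂.comp i₂) J : ℝ) ≤ fixN (b₁.comp i₁) J := by exact_mod_cast h
        linarith
    refine (Finset.sum_le_sum h1).trans ?_
    rw [Finset.sum_const, Finset.card_univ, nsmul_eq_mul]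
  have hζN : 0 ≤ ζ₁ * N := by positivity
  have hM : Nat.card {x // D₁ x} + C * ∑ J : Subgroup H,
      ((fixN (b₁.comp i₁) J - fixN (b₂.comp i₂) J) +
        (fixN (b₂.comp i₂) J - fixN (b₁.comp i₁) J)) ≤ M := by
    have h1 : ((Nat.card {x // D₁ x} + C * ∑ J : Subgroup H,
      ((fixN (b₁.comp i₁) J - fixN (b₂.comp i₂) J) +
        (fixN (b₂.comp i₂) J - fixN (b₁.comp i₁) J)) : ℕ) : ℝ) ≤ M := by
      rw [Nat.cast_add, Nat.cast_mul]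
      have h2 := (abs_le.1 hbot₁).2
      have h3 : (C : ℝ) * ((∑ J : Subgroup H, ((fixN (b₁.comp i₁) J - fixN (b₂.comp i₂) J) +
        (fixN (b₂.comp i₂) J - fixN (b₁.comp i₁) J)) : ℕ) : ℝ) ≤
          C * (s * ((2 + n) * ζ₁ * N)) := mul_le_mul_of_nonneg_left hsum (Nat.cast_nonneg _)
      have h4 : ζ * N = (6 * n * n + 3) * (ζ₁ * N) + C * (s * ((2 + n) * ζ₁ * N)) := by
        rw [← hζ₁eq, hKc]
        ring
      have h5 : 0 ≤ (6 * n * n + 2) * (ζ₁ * N) := by positivity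
      nlinarith
    exact_mod_cast h1
  obtain ⟨D, b, hD, hg₁, hg₂, hF₁, hF₂⟩ := hC X D₁ D₂ b₁ b₂ P M hPD hPH hM hM2
  have hζbig : (6 * n * n + 3) * (ζ₁ * N) ≤ ζ * N := by
    have h4 : ζ * N = (6 * n * n + 3) * (ζ₁ * N) + C * (s * ((2 + n) * ζ₁ * N)) := by
      rw [← hζ₁eq, hKc]
      ring
    have h5 : 0 ≤ C * (s * ((2 + n) * ζ₁ * N)) := by positivity
    linarith
  have h6nn : 0 ≤ 6 * n * n * (ζ₁ * N) := by positivity
  refine ⟨D, b, hD, ?_, ?_, ?_, ?_⟩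
  · intro t ht
    have h1 : nbad D (b.comp (am₁ i₁ i₂)) ψ₁ t ≤ nbad D₁ b₁ ψ₁ t +
        (Nat.card {x // ¬ P x} + Nat.card {x // ¬ P (ψ₁ t x)}) := by
      unfold nbad
      refine le_trans ?_ (Nat.add_le_add_left (card_or_le _ _) _)
      refine le_trans ?_ (card_or_le _ _)
      apply card_le_of_imp
      intro x hx
      by_contra hcon
      rw [not_or, not_or, not_not, not_not, not_not] at hcon
      obtain ⟨⟨h1, h2⟩, h3, h4⟩ := hcon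
      apply hx
      obtain ⟨hD', h5⟩ := hg₁ t x h1 h3 (by rw [h2]; exact h4)
      exact ⟨hD', h5.trans h2⟩
    have h2 : Nat.card {x // ¬ P (ψ₁ t x)} = Nat.card {x // ¬ P x} :=
      card_perm_eq (ψ₁ t) (fun x => ¬ P x)
    rw [h2] at h1
    have h3 : (nbad D (b.comp (am₁ i₁ i₂)) ψ₁ t : ℝ) ≤ nbad D₁ b₁ ψ₁ t +
        (Nat.card {x // ¬ P x} + Nat.card {x // ¬ P x}) := by exact_mod_cast h1
    have h4 := hb₁ t (Finset.mem_union_left _ ht)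
    have h5 : ((2 * n * cs + c₁ t) * η + ζ) * N = 2 * n * cs * η * N + c₁ t * η * N + ζ * N := by
      ring
    rw [h5]
    have h6 : n * ((cs * η + 3 * n * ζ₁) * N) = n * cs * η * N + 3 * n * n * (ζ₁ * N) := by ring
    rw [h6] at hPc
    have h7 : (c₁ t * η + ζ₁) * N = c₁ t * η * N + ζ₁ * N := by ring
    rw [h7] at h4
    linarith
  · intro t ht
    have h1 : nbad D (b.comp (am₂ i₁ i₂)) ψ₂ t ≤ nbad D₂ b₂ ψ₂ t +
        (Nat.card {x // ¬ P x} + Nat.card {x // ¬ P (ψ₂ t x)}) := by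
      unfold nbad
      refine le_trans ?_ (Nat.add_le_add_left (card_or_le _ _) _)
      refine le_trans ?_ (card_or_le _ _)
      apply card_le_of_imp
      intro x hx
      by_contra hcon
      rw [not_or, not_or, not_not, not_not, not_not] at hcon
      obtain ⟨⟨h1, h2⟩, h3, h4⟩ := hcon
      apply hx
      obtain ⟨hD', h5⟩ := hg₂ t x h1 h3 (by rw [h2]; exact h4)
      exact ⟨hD', h5.trans h2⟩
    have h2 : Nat.card {x // ¬ P (ψ₂ t x)} = Nat.card {x // ¬ P x} :=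
      card_perm_eq (ψ₂ t) (fun x => ¬ P x)
    rw [h2] at h1
    have h3 : (nbad D (b.comp (am₂ i₁ i₂)) ψ₂ t : ℝ) ≤ nbad D₂ b₂ ψ₂ t +
        (Nat.card {x // ¬ P x} + Nat.card {x // ¬ P x}) := by exact_mod_cast h1
    have h4 := hb₂ t (Finset.mem_union_left _ ht)
    have h5 : ((2 * n * cs + c₂ t) * η + ζ) * N = 2 * n * cs * η * N + c₂ t * η * N + ζ * N := by
      ring
    rw [h5]
    have h6 : n * ((cs * η + 3 * n * ζ₁) * N) = n * cs * η * N + 3 * n * n * (ζ₁ * N) := by ring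
    rw [h6] at hPc
    have h7 : (c₂ t * η + ζ₁) * N = c₂ t * η * N + ζ₁ * N := by ring
    rw [h7] at h4
    linarith
  · intro J hJ
    have h1 := hf₁ J (Finset.mem_union_left _ hJ)
    have h2 := hF₁ J
    have h3 : (fixN b₁ J : ℝ) ≤ fixN (b.comp (am₁ i₁ i₂)) J := by exact_mod_cast h2.1
    have h4 : (fixN (b.comp (am₁ i₁ i₂)) J : ℝ) + Nat.card {x // D₁ x} ≤ fixN b₁ J + M := by
      exact_mod_cast h2.2
    rw [abs_le] at h1 hbot₁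
    constructor
    · linarith [h1.1]
    · linarith [h1.2, hbot₁.1]
  · intro J hJ
    have h1 := hf₂ J (Finset.mem_union_left _ hJ)
    have h2 := hF₂ J
    have h3 : (fixN b₂ J : ℝ) ≤ fixN (b.comp (am₂ i₁ i₂)) J := by exact_mod_cast h2.1
    have h4 : (fixN (b.comp (am₂ i₁ i₂)) J : ℝ) + Nat.card {x // D₂ x} ≤ fixN b₂ J + M := by
      exact_mod_cast h2.2
    rw [abs_le] at h1 hbot₂
    constructor
    · linarith [h1.1]
    · linarith [h1.2, hbot₂.1]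

end

end Pool.Agent.Helper94
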