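import Mathlib
import Pool.Agent.Helper94.GlueStep
import Pool.Agent.Helper94.AmenDel
import Pool.Agent.Helper94.AmenRes

/-!
Stability in permutations passes to amalgamated free products over finite groups, in the presence
of proportional deletion.
-/

namespace Pool.Agent.Helper94

open Equiv

lemma permDist_mul_right {X : Type} (σ τ ρ : Perm X) :
    permDist (σ * ρ) (τ * ρ) = permDist σ τ := by
  unfold permDist
  congr 2
  exact Nat.card_congr (ρ.subtypeEquiv (fun _ => Iff.rfl))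

lemma permDist_le_one {X : Type} [Finite X] [Nonempty X] (σ τ : Perm X) : permDist σ τ ≤ 1 := by
  unfold permDist
  rw [div_le_iff₀ (by exact_mod_cast Nat.card_pos), one_mul]
  exact_mod_cast Nat.card_le_card_of_injective _ Subtype.val_injective

/-- It suffices to control the elements of a generating set. -/
theorem aStab_of_gen {G : Type} [Group G] (U : Set G) (hU : Subgroup.closure U = ⊤)
    (h : ∀ (T : Finset G), (∀ t ∈ T, t ∈ U) → ∀ ε : ℝ, 0 < ε → ∃ (T' : Finset G) (δ : ℝ), 0 < δ ∧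
      ∀ (X : Type) [Finite X] [Nonempty X] (φ : G → Perm X),
        (∀ a ∈ T', ∀ b ∈ T', permDist (φ a * φ b) (φ (a * b)) ≤ δ) →
        ∃ ψ : G →* Perm X, ∀ t ∈ T, permDist (φ t) (ψ t) ≤ ε) : AStab G := by
  classical
  have key : ∀ t : G, ∀ ε : ℝ, 0 < ε → ∃ (T : Finset G) (T' : Finset G) (δ : ℝ), 0 < δ ∧
      (∀ u ∈ T, u ∈ U) ∧ ∀ (X : Type) [Finite X] [Nonempty X] (φ : G → Perm X)
        (ψ : G →* Perm X), (∀ a ∈ T', ∀ b ∈ T', permDist (φ a * φ b) (φ (a * b)) ≤ δ) →
        (∀ u ∈ T, permDist (φ u) (ψ u) ≤ δ) → permDist (φ t) (ψ t) ≤ ε := by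
    intro t
    have ht : t ∈ Subgroup.closure U := by
      rw [hU]
      exact Subgroup.mem_top t
    induction ht using Subgroup.closure_induction with
    | mem u hu =>
      intro ε hε
      refine ⟨{u}, ∅, ε, hε, ?_, ?_⟩
      · intro v hv
        rw [Finset.mem_singleton.1 hv]
        exact hu
      · intro X _ _ φ ψ _ h2
        exact h2 u (Finset.mem_singleton_self u)
    | one =>
      intro ε hε
      refine ⟨∅, {1}, ε, hε, ?_, ?_⟩
      · intro v hv
        exact absurd hv (Finset.notMem_empty v)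
      · intro X _ _ φ ψ h1 _
        have h2 := h1 1 (Finset.mem_singleton_self 1) 1 (Finset.mem_singleton_self 1)
        rw [mul_one] at h2
        have h3 : permDist (φ 1 * φ 1) (φ 1) = permDist (φ 1) 1 := by
          have h4 := permDist_mul_left (φ 1) 1 (φ 1)
          rwa [mul_one] at h4
        rw [h3] at h2
        rw [map_one]
        exact h2
    | mul a b _ _ iha ihb =>
      intro ε hε
      obtain ⟨Ta, Ta', δa, hδa, hTa, ha⟩ := iha (ε / 3) (by linarith)
      obtain ⟨Tb, Tb', δb, hδb, hTb, hb⟩ := ihb (ε / 3) (by linarith)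
      refine ⟨Ta ∪ Tb, (Ta' ∪ Tb') ∪ {a, b}, min (min δa δb) (ε / 3),
        lt_min (lt_min hδa hδb) (by linarith), ?_, ?_⟩
      · intro u hu
        rcases Finset.mem_union.1 hu with hu | hu
        · exact hTa u hu
        · exact hTb u hu
      · intro X _ _ φ ψ h1 h2
        have e1 := ha X φ ψ (fun x hx y hy => (h1 x (Finset.mem_union_left _
          (Finset.mem_union_left _ hx)) y (Finset.mem_union_left _
          (Finset.mem_union_left _ hy))).trans ((min_le_left _ _).trans (min_le_left _ _)))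
          (fun u hu => (h2 u (Finset.mem_union_left _ hu)).trans
            ((min_le_left _ _).trans (min_le_left _ _)))
        have e2 := hb X φ ψ (fun x hx y hy => (h1 x (Finset.mem_union_left _
          (Finset.mem_union_right _ hx)) y (Finset.mem_union_left _
          (Finset.mem_union_right _ hy))).trans ((min_le_left _ _).trans (min_le_right _ _)))
          (fun u hu => (h2 u (Finset.mem_union_right _ hu)).trans
            ((min_le_left _ _).trans (min_le_right _ _)))
        have e3 := (h1 a (Finset.mem_union_right _ (by simp)) b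
          (Finset.mem_union_right _ (by simp))).trans (min_le_right _ _)
        have e4 : permDist (φ a * φ b) (ψ a * φ b) ≤ ε / 3 := by
          rw [permDist_mul_right]
          exact e1
        have e5 : permDist (ψ a * φ b) (ψ a * ψ b) ≤ ε / 3 := by
          rw [permDist_mul_left]
          exact e2
        rw [permDist_comm] at e3
        rw [map_mul]
        have e6 := permDist_triangle (φ (a * b)) (φ a * φ b) (ψ a * ψ b)
        have e7 := permDist_triangle (φ a * φ b) (ψ a * φ b) (ψ a * ψ b)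
        linarith
    | inv a _ iha =>
      intro ε hε
      obtain ⟨Ta, Ta', δa, hδa, hTa, ha⟩ := iha (ε / 3) (by linarith)
      refine ⟨Ta, Ta' ∪ {a, a⁻¹, 1}, min δa (ε / 3), lt_min hδa (by linarith), hTa, ?_⟩
      intro X _ _ φ ψ h1 h2
      have e1 := ha X φ ψ (fun x hx y hy => (h1 x (Finset.mem_union_left _ hx) y
        (Finset.mem_union_left _ hy)).trans (min_le_left _ _))
        (fun u hu => (h2 u hu).trans (min_le_left _ _))
      have e2 := (h1 a (Finset.mem_union_right _ (by simp)) a⁻¹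
        (Finset.mem_union_right _ (by simp))).trans (min_le_right _ _)
      have e3 := (h1 1 (Finset.mem_union_right _ (by simp)) 1
        (Finset.mem_union_right _ (by simp))).trans (min_le_right _ _)
      rw [mul_inv_cancel] at e2
      rw [mul_one] at e3
      have h3 : permDist (φ 1 * φ 1) (φ 1) = permDist (φ 1) 1 := by
        have h4 := permDist_mul_left (φ 1) 1 (φ 1)
        rwa [mul_one] at h4
      rw [h3] at e3
      have e4 : permDist (ψ a * φ a⁻¹) (φ a * φ a⁻¹) ≤ ε / 3 := by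
        rw [permDist_mul_right, permDist_comm]
        exact e1
      have e5 : permDist (φ a⁻¹) (ψ a⁻¹) = permDist (ψ a * φ a⁻¹) 1 := by
        rw [← permDist_mul_left _ _ (ψ a), ← map_mul, mul_inv_cancel, map_one]
      rw [e5]
      have e6 := permDist_triangle (ψ a * φ a⁻¹) (φ a * φ a⁻¹) 1
      have e7 := permDist_triangle (φ a * φ a⁻¹) (φ 1) 1
      linarith
  intro T ε hε
  choose S S' δ hδ hSU hS using fun t => key t ε hε
  -- collect
  set U₀ : Finset G := T.biUnion S with hU₀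
  have hδmin : ∃ δ₀ : ℝ, 0 < δ₀ ∧ ∀ t ∈ T, δ₀ ≤ δ t := by
    rcases T.eq_empty_or_nonempty with hT | hT
    · refine ⟨1, one_pos, ?_⟩
      intro t ht
      rw [hT] at ht
      exact absurd ht (Finset.notMem_empty t)
    · refine ⟨T.inf' hT δ, ?_, ?_⟩
      · rw [Finset.lt_inf'_iff]
        exact fun t _ => hδ t
      · exact fun t ht => Finset.inf'_le _ ht
  obtain ⟨δ₀, hδ₀, hδ₀le⟩ := hδmin
  obtain ⟨T', δ', hδ', hmain⟩ := h U₀ (by
    intro u hu
    obtain ⟨t, ht, hut⟩ := Finset.mem_biUnion.1 hu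
    exact hSU t u hut) δ₀ hδ₀
  refine ⟨T' ∪ T.biUnion S', min δ' δ₀, lt_min hδ' hδ₀, ?_⟩
  intro X _ _ φ hφ
  obtain ⟨ψ, hψ⟩ := hmain X φ (fun a ha b hb => (hφ a (Finset.mem_union_left _ ha) b
    (Finset.mem_union_left _ hb)).trans (min_le_left _ _))
  refine ⟨ψ, fun t ht => ?_⟩
  apply hS t X φ ψ
  · intro a ha b hb
    exact (hφ a (Finset.mem_union_right _ (Finset.mem_biUnion.2 ⟨t, ht, ha⟩)) b
      (Finset.mem_union_right _ (Finset.mem_biUnion.2 ⟨t, ht, hb⟩))).trans
        ((min_le_right _ _).trans (hδ₀le t ht))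
  · intro u hu
    exact (hψ u (Finset.mem_biUnion.2 ⟨t, ht, hu⟩)).trans (hδ₀le t ht)

/-- It suffices to control the elements of a generating set. -/
theorem pDel_of_gen {G : Type} [Group G] (𝓕 : Set (Subgroup G)) (U : Set G)
    (hU : Subgroup.closure U = ⊤) (hU1 : 1 ∈ U)
    (h : ∃ c : G → ℝ, (∀ t, 0 ≤ c t) ∧ ∀ (T : Finset G), (∀ t ∈ T, t ∈ U) →
      ∀ (𝓙 : Finset (Subgroup G)), (∀ J ∈ 𝓙, J ∈ 𝓕) →
      ∀ η ζ : ℝ, 0 < η → η ≤ 1 / 2 → 0 < ζ → ∃ N₀ : ℕ, ∀ (X : Type) [Finite X],
        N₀ ≤ Nat.card X → ∀ a : G →* Perm X, ∃ (D : X → Prop) (b : G →* Perm {x // D x}),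
          (∀ t ∈ T, (nbad D b a t : ℝ) ≤ (c t * η + ζ) * Nat.card X) ∧
          (∀ J ∈ 𝓙, |(fixN b J : ℝ) - (1 - η) * fixN a J| ≤ ζ * Nat.card X)) :
    PDel G 𝓕 := by
  classical
  have key : ∀ t : G, ∃ (T : Finset G) (L : ℕ), (∀ u ∈ T, u ∈ U) ∧
      ∀ (X : Type) [Finite X] (D : X → Prop) (b : G →* Perm {x // D x}) (a : G →* Perm X),
        nbad D b a t ≤ L * ∑ u ∈ T, nbad D b a u := by
    intro t
    have ht : t ∈ Subgroup.closure U := by
      rw [hU]
      exact Subgroup.mem_top t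
    induction ht using Subgroup.closure_induction with
    | mem u hu =>
      refine ⟨{u}, 1, ?_, ?_⟩
      · intro v hv
        rw [Finset.mem_singleton.1 hv]
        exact hu
      · intro X _ D b a
        simp
    | one =>
      refine ⟨{1}, 1, ?_, ?_⟩
      · intro v hv
        rw [Finset.mem_singleton.1 hv]
        exact hU1
      · intro X _ D b a
        simp
    | mul x y _ _ ihx ihy =>
      obtain ⟨Tx, Lx, hTx, hx⟩ := ihx
      obtain ⟨Ty, Ly, hTy, hy⟩ := ihy
      refine ⟨Tx ∪ Ty, Lx + Ly, ?_, ?_⟩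
      · intro u hu
        rcases Finset.mem_union.1 hu with hu | hu
        · exact hTx u hu
        · exact hTy u hu
      · intro X _ D b a
        have h1 := hx X D b a
        have h2 := hy X D b a
        have h3 : ∑ u ∈ Tx, nbad D b a u ≤ ∑ u ∈ Tx ∪ Ty, nbad D b a u :=
          Finset.sum_le_sum_of_subset Finset.subset_union_left
        have h4 : ∑ u ∈ Ty, nbad D b a u ≤ ∑ u ∈ Tx ∪ Ty, nbad D b a u :=
          Finset.sum_le_sum_of_subset Finset.subset_union_right
        have h5 := Nat.mul_le_mul_left Lx h3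
        have h6 := Nat.mul_le_mul_left Ly h4
        have h7 := nbad_mul D b a x y
        rw [add_mul]
        omega
    | inv x _ ihx =>
      obtain ⟨Tx, Lx, hTx, hx⟩ := ihx
      exact ⟨Tx, Lx, hTx, fun X _ D b a => (nbad_inv_le D b a x).trans (hx X D b a)⟩
  choose S L hSU hS using key
  obtain ⟨c, hc0, hc⟩ := h
  refine ⟨fun t => L t * ∑ u ∈ S t, c u, fun t => mul_nonneg (Nat.cast_nonneg _)
    (Finset.sum_nonneg (fun u _ => hc0 u)), ?_⟩
  intro T 𝓙 h𝓙 η ζ hη0 hη1 hζ
  set K : ℝ := 1 + ∑ t ∈ T, (L t : ℝ) * (S t).card with hK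
  have hKnn : ∀ t ∈ T, (0 : ℝ) ≤ (L t : ℝ) * (S t).card := fun t _ => by positivity
  have hK1 : 1 ≤ K := by
    have := Finset.sum_nonneg hKnn
    linarith
  have hKt : ∀ t ∈ T, (L t : ℝ) * (S t).card ≤ K := by
    intro t ht
    have := Finset.single_le_sum hKnn ht
    linarith
  have hK0 : 0 < K := lt_of_lt_of_le one_pos hK1
  clear_value K
  obtain ⟨ζ₁, hζ₁0, hζ₁eq⟩ : ∃ ζ₁ : ℝ, 0 < ζ₁ ∧ ζ₁ * K = ζ :=
    ⟨ζ / K, div_pos hζ hK0, div_mul_cancel₀ _ hK0.ne'⟩
  obtain ⟨N₀, hN₀⟩ := hc (T.biUnion S) (by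
    intro u hu
    obtain ⟨t, _, hut⟩ := Finset.mem_biUnion.1 hu
    exact hSU t u hut) 𝓙 h𝓙 η ζ₁ hη0 hη1 hζ₁0
  refine ⟨N₀, ?_⟩
  intro X _ hX a
  obtain ⟨D, b, h1, h2⟩ := hN₀ X hX a
  have hNnn : (0 : ℝ) ≤ Nat.card X := Nat.cast_nonneg _
  refine ⟨D, b, ?_, ?_⟩
  · intro t ht
    have h3 : (nbad D b a t : ℝ) ≤ L t * ∑ u ∈ S t, (nbad D b a u : ℝ) := by
      exact_mod_cast hS t X D b a
    have h4 : ∑ u ∈ S t, (nbad D b a u : ℝ) ≤ ∑ u ∈ S t, (c u * η + ζ₁) * Nat.card X :=
      Finset.sum_le_sum (fun u hu => h1 u (Finset.mem_biUnion.2 ⟨t, ht, hu⟩))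
    have h5 : ∑ u ∈ S t, (c u * η + ζ₁) * (Nat.card X : ℝ) =
        ((∑ u ∈ S t, c u) * η + (S t).card * ζ₁) * Nat.card X := by
      rw [← Finset.sum_mul, Finset.sum_add_distrib, ← Finset.sum_mul, Finset.sum_const,
        nsmul_eq_mul]
    rw [h5] at h4
    have h6 := mul_le_mul_of_nonneg_left h4 (Nat.cast_nonneg (L t) : (0 : ℝ) ≤ L t)
    refine h3.trans (h6.trans ?_)
    rw [← mul_assoc]
    apply mul_le_mul_of_nonneg_right _ hNnn
    have h7 : (L t : ℝ) * (S t).card * ζ₁ ≤ K * ζ₁ :=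
      mul_le_mul_of_nonneg_right (hKt t ht) hζ₁0.le
    have h8 : (L t : ℝ) * ((∑ u ∈ S t, c u) * η + (S t).card * ζ₁) =
        L t * (∑ u ∈ S t, c u) * η + (L t : ℝ) * (S t).card * ζ₁ := by ring
    rw [h8]
    linarith
  · intro J hJ
    refine (h2 J hJ).trans (mul_le_mul_of_nonneg_right ?_ hNnn)
    rw [← hζ₁eq]
    nlinarith

lemma exists_finset_preimage {α β : Type} (f : α → β) (A : Set α) (T : Finset β) :
    ∃ S : Finset α, (∀ s ∈ S, s ∈ A) ∧ ∀ t ∈ T, t ∈ f '' A → ∃ s ∈ S, f s = t := by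
  classical
  induction T using Finset.induction_on with
  | empty =>
    refine ⟨∅, ?_, ?_⟩
    · intro s hs
      exact absurd hs (Finset.notMem_empty s)
    · intro t ht
      exact absurd ht (Finset.notMem_empty t)
  | insert b T _ ih =>
    obtain ⟨S, hS1, hS2⟩ := ih
    by_cases hb : b ∈ f '' A
    · obtain ⟨a, ha, hab⟩ := hb
      refine ⟨insert a S, ?_, ?_⟩
      · intro s hs
        rcases Finset.mem_insert.1 hs with rfl | hs
        · exact ha
        · exact hS1 s hs
      · intro t ht htA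
        rcases Finset.mem_insert.1 ht with rfl | ht
        · exact ⟨a, Finset.mem_insert_self _ _, hab⟩
        · obtain ⟨s, hs, hst⟩ := hS2 t ht htA
          exact ⟨s, Finset.mem_insert_of_mem hs, hst⟩
    · refine ⟨S, hS1, ?_⟩
      intro t ht htA
      rcases Finset.mem_insert.1 ht with rfl | ht
      · exact absurd htA hb
      · exact hS2 t ht htA

end Pool.Agent.Helper94
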