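import Mathlib
import Pool.Agent.Helper94.StrictAmalgam

/-!
The class of groups with strict stability and proportional deletion is closed under amalgamated
free products over finite groups.
-/

namespace Pool.Agent.Helper94

open Equiv

/-- Strict stability with control of a family of finite subgroups. -/
structure Good (G : Type) [Group G] (𝓕 : Set (Subgroup G)) : Prop where
  stab : AStab G
  res : ∀ J ∈ 𝓕, ∀ g ∈ J, InRes G g → g = 1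
  del : PDel G 𝓕

theorem good_of_amenable {G : Type} [Group G] (hG : FolnerAmenable G) (hs : AStab G) :
    Good G {J | Finite J} where
  stab := hs
  res := fun _ _ g _ hg => res_of_amenable hG hs g hg
  del := pDel_of_amenable hG hs

section

variable {G₁ G₂ H : Type} [Group G₁] [Group G₂] [Group H] [Finite H]

lemma closure_ranges (i₁ : H →* G₁) (i₂ : H →* G₂) :
    Subgroup.closure (Set.range (am₁ i₁ i₂) ∪ Set.range (am₂ i₁ i₂)) = ⊤ := by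
  have h := closure_am i₁ i₂ (id : G₁ → G₁) (id : G₂ → G₂)
    (by rw [Set.range_id]; exact Subgroup.closure_univ)
    (by rw [Set.range_id]; exact Subgroup.closure_univ)
  rw [Set.Sum.elim_range] at h
  exact h

lemma card_lt_one_eq {X : Type} [Finite X] {P : X → Prop} (h : (Nat.card {x // ¬ P x} : ℝ) < 1) :
    ∀ x, P x := by
  intro x
  by_contra hx
  have h1 : Nat.card {x // ¬ P x} < 1 := by exact_mod_cast h
  have h2 : Nat.card {x // ¬ P x} = 0 := by omega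
  have : Nonempty {x // ¬ P x} := ⟨⟨x, hx⟩⟩
  exact absurd h2 Nat.card_pos.ne'

/-- Strict stability of the amalgam. -/
theorem aStab_amalgam (i₁ : H →* G₁) (i₂ : H →* G₂) (𝓕₁ : Set (Subgroup G₁))
    (𝓕₂ : Set (Subgroup G₂)) (h𝓕₁ : ∀ J : Subgroup H, J.map i₁ ∈ 𝓕₁)
    (h𝓕₂ : ∀ J : Subgroup H, J.map i₂ ∈ 𝓕₂) (hres : ∀ h, InRes G₁ (i₁ h) ↔ InRes G₂ (i₂ h))
    (h₁ : Good G₁ 𝓕₁) (h₂ : Good G₂ 𝓕₂) : AStab (Amalgam i₁ i₂) := by
  classical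
  have := Fintype.ofFinite H
  obtain ⟨c₁, c₂, hc₁, hc₂, hglue⟩ := glue_step i₁ i₂ hres 𝓕₁ 𝓕₂ h𝓕₁ h𝓕₂ h₁.del h₂.del
  apply aStab_of_gen (Set.range (am₁ i₁ i₂) ∪ Set.range (am₂ i₁ i₂)) (closure_ranges i₁ i₂)
  intro T hT ε hε
  obtain ⟨T₁, -, hT₁⟩ := exists_finset_preimage (am₁ i₁ i₂) Set.univ T
  obtain ⟨T₂, -, hT₂⟩ := exists_finset_preimage (am₂ i₁ i₂) Set.univ T
  rw [Set.image_univ] at hT₁ hT₂
  -- constants
  obtain ⟨cs, hcs0, hcs₁, hcs₂⟩ : ∃ cs : ℝ, 0 ≤ cs ∧ (∀ t ∈ T₁, c₁ t ≤ cs) ∧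
      (∀ t ∈ T₂, c₂ t ≤ cs) := by
    refine ⟨∑ t ∈ T₁, c₁ t + ∑ t ∈ T₂, c₂ t, add_nonneg (Finset.sum_nonneg (fun t _ => hc₁ t))
      (Finset.sum_nonneg (fun t _ => hc₂ t)), ?_, ?_⟩
    · intro t ht
      have e1 := Finset.single_le_sum (f := c₁) (fun t _ => hc₁ t) ht
      have e2 : 0 ≤ ∑ t ∈ T₂, c₂ t := Finset.sum_nonneg (fun t _ => hc₂ t)
      linarith
    · intro t ht
      have e1 := Finset.single_le_sum (f := c₂) (fun t _ => hc₂ t) ht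
      have e2 : 0 ≤ ∑ t ∈ T₁, c₁ t := Finset.sum_nonneg (fun t _ => hc₁ t)
      linarith
  obtain ⟨η, hη0, hη1, hηε⟩ : ∃ η : ℝ, 0 < η ∧ η ≤ 1 / 2 ∧ cs * η ≤ ε / 4 := by
    refine ⟨min (1 / 2) (ε / (4 * (cs + 1))), lt_min (by norm_num) (by positivity),
      min_le_left _ _, ?_⟩
    calc cs * min (1 / 2) (ε / (4 * (cs + 1))) ≤ cs * (ε / (4 * (cs + 1))) :=
          mul_le_mul_of_nonneg_left (min_le_right _ _) hcs0
      _ ≤ (cs + 1) * (ε / (4 * (cs + 1))) := by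
          apply mul_le_mul_of_nonneg_right (by linarith)
          positivity
      _ = ε / 4 := by
          field_simp
  obtain ⟨ζ, hζ0, hζη, hζε⟩ : ∃ ζ : ℝ, 0 < ζ ∧ ζ ≤ η ∧ ζ ≤ ε / 4 :=
    ⟨min η (ε / 4), lt_min hη0 (by linarith), min_le_left _ _, min_le_right _ _⟩
  obtain ⟨N₀, δ', hδ', hmain⟩ := hglue T₁ T₂ ∅ ∅
    (fun J hJ => absurd hJ (Finset.notMem_empty J))
    (fun J hJ => absurd hJ (Finset.notMem_empty J)) η ζ hη0 hη1 hζ0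
  obtain ⟨ε₁, hε₁0, hε₁a, hε₁b, hε₁c⟩ : ∃ ε₁ : ℝ, 0 < ε₁ ∧ ε₁ ≤ ε / 4 ∧ 2 * ε₁ ≤ δ' ∧
      2 * ε₁ * (N₀ + 1) < 1 := by
    refine ⟨min (ε / 4) (min (δ' / 2) (1 / (4 * (N₀ + 1)))),
      lt_min (by linarith) (lt_min (by linarith) (by positivity)), min_le_left _ _, ?_, ?_⟩
    · have e1 := (min_le_right (ε / 4) (min (δ' / 2) (1 / (4 * ((N₀ : ℝ) + 1))))).trans
        (min_le_left _ _)
      linarith
    · have e1 := (min_le_right (ε / 4) (min (δ' / 2) (1 / (4 * ((N₀ : ℝ) + 1))))).trans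
        (min_le_right _ _)
      have e2 : (0 : ℝ) < N₀ + 1 := by positivity
      calc 2 * min (ε / 4) (min (δ' / 2) (1 / (4 * ((N₀ : ℝ) + 1)))) * (N₀ + 1)
          ≤ 2 * (1 / (4 * ((N₀ : ℝ) + 1))) * (N₀ + 1) := by
            apply mul_le_mul_of_nonneg_right _ e2.le
            linarith
        _ = 1 / 2 := by
            field_simp
            norm_num
        _ < 1 := by norm_num
  obtain ⟨T₁', δ₁, hδ₁, hs₁⟩ := h₁.stab (T₁ ∪ Finset.univ.image i₁) ε₁ hε₁0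
  obtain ⟨T₂', δ₂, hδ₂, hs₂⟩ := h₂.stab (T₂ ∪ Finset.univ.image i₂) ε₁ hε₁0
  refine ⟨T₁'.image (am₁ i₁ i₂) ∪ T₂'.image (am₂ i₁ i₂), min δ₁ δ₂, lt_min hδ₁ hδ₂, ?_⟩
  intro X _ _ φ hφ
  obtain ⟨ψ₁, hψ₁⟩ := hs₁ X (fun t => φ (am₁ i₁ i₂ t)) (by
    intro a ha b hb
    have e := hφ (am₁ i₁ i₂ a) (Finset.mem_union_left _ (Finset.mem_image_of_mem _ ha))
      (am₁ i₁ i₂ b) (Finset.mem_union_left _ (Finset.mem_image_of_mem _ hb))
    rw [← map_mul] at e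
    exact e.trans (min_le_left _ _))
  obtain ⟨ψ₂, hψ₂⟩ := hs₂ X (fun t => φ (am₂ i₁ i₂ t)) (by
    intro a ha b hb
    have e := hφ (am₂ i₁ i₂ a) (Finset.mem_union_right _ (Finset.mem_image_of_mem _ ha))
      (am₂ i₁ i₂ b) (Finset.mem_union_right _ (Finset.mem_image_of_mem _ hb))
    rw [← map_mul] at e
    exact e.trans (min_le_right _ _))
  have hNpos : (0 : ℝ) < Nat.card X := by exact_mod_cast Nat.card_pos
  have hH : ∀ h, (Nat.card {x // ψ₁ (i₁ h) x ≠ ψ₂ (i₂ h) x} : ℝ) ≤ 2 * ε₁ * Nat.card X := by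
    intro h
    have e1 := hψ₁ (i₁ h) (Finset.mem_union_right _ (Finset.mem_image_of_mem _ (Finset.mem_univ h)))
    have e2 := hψ₂ (i₂ h) (Finset.mem_union_right _ (Finset.mem_image_of_mem _ (Finset.mem_univ h)))
    rw [← am_eq] at e2
    have e3 := permDist_triangle (ψ₁ (i₁ h)) (φ (am₁ i₁ i₂ (i₁ h))) (ψ₂ (i₂ h))
    rw [permDist_comm] at e1
    have e4 : permDist (ψ₁ (i₁ h)) (ψ₂ (i₂ h)) ≤ 2 * ε₁ := by linarith
    unfold permDist at e4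
    rw [div_le_iff₀ hNpos] at e4
    exact e4
  by_cases hX : N₀ ≤ Nat.card X
  · obtain ⟨D, b, hD, hn₁, hn₂, -, -⟩ := hmain X hX ψ₁ ψ₂ (fun h => (hH h).trans
      (mul_le_mul_of_nonneg_right hε₁b hNpos.le)) (Nat.card X) (by nlinarith) le_rfl
    have hDall : ∀ x, D x := by
      have e1 := card_pred_add D
      have e2 : Nat.card {x // ¬ D x} = 0 := by omega
      apply card_lt_one_eq
      rw [e2]
      norm_num
    let E : {x // D x} ≃ X := Equiv.subtypeUnivEquiv hDall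
    refine ⟨(E.permCongrHom.toMonoidHom).comp b, ?_⟩
    have hgen : ∀ (s : Amalgam i₁ i₂) (σ : Perm X) (r : ℝ), permDist (φ s) σ ≤ ε₁ →
        (Nat.card {x : X // ¬ ∃ h : D x, (b s ⟨x, h⟩ : X) = σ x} : ℝ) ≤ r * Nat.card X →
        permDist (φ s) (((E.permCongrHom.toMonoidHom).comp b) s) ≤ ε₁ + r := by
      intro s σ r e1 e2
      refine (permDist_triangle _ σ _).trans (add_le_add e1 ?_)
      unfold permDist
      rw [div_le_iff₀ hNpos]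
      refine le_trans ?_ e2
      have e3 : Nat.card {x // σ x ≠ (((E.permCongrHom.toMonoidHom).comp b) s) x} ≤
          Nat.card {x : X // ¬ ∃ h : D x, (b s ⟨x, h⟩ : X) = σ x} := by
        apply card_le_of_imp
        rintro x hx ⟨h, hh⟩
        exact hx hh.symm
      exact_mod_cast e3
    intro t ht
    rcases hT t ht with ht' | ht'
    · obtain ⟨t₁, ht₁, rfl⟩ := hT₁ t ht ht'
      have e1 := hψ₁ t₁ (Finset.mem_union_left _ ht₁)
      have e2 := hgen (am₁ i₁ i₂ t₁) (ψ₁ t₁) _ e1 (hn₁ t₁ ht₁)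
      have e3 : c₁ t₁ * η ≤ cs * η := mul_le_mul_of_nonneg_right (hcs₁ t₁ ht₁) hη0.le
      linarith
    · obtain ⟨t₂, ht₂, rfl⟩ := hT₂ t ht ht'
      have e1 := hψ₂ t₂ (Finset.mem_union_left _ ht₂)
      have e2 := hgen (am₂ i₁ i₂ t₂) (ψ₂ t₂) _ e1 (hn₂ t₂ ht₂)
      have e3 : c₂ t₂ * η ≤ cs * η := mul_le_mul_of_nonneg_right (hcs₂ t₂ ht₂) hη0.le
      linarith
  · push Not at hX
    have hX' : (Nat.card X : ℝ) ≤ N₀ + 1 := by
      have : (Nat.card X : ℝ) < N₀ := by exact_mod_cast hX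
      linarith
    have hHeq : ∀ h, ψ₁ (i₁ h) = ψ₂ (i₂ h) := by
      intro h
      apply Equiv.ext
      apply card_lt_one_eq
      refine lt_of_le_of_lt (hH h) (lt_of_le_of_lt ?_ hε₁c)
      exact mul_le_mul_of_nonneg_left hX' (by linarith)
    refine ⟨amLift i₁ i₂ ψ₁ ψ₂ hHeq, ?_⟩
    intro t ht
    rcases hT t ht with ht' | ht'
    · obtain ⟨t₁, ht₁, rfl⟩ := hT₁ t ht ht'
      rw [amLift_am₁]
      have e1 := hψ₁ t₁ (Finset.mem_union_left _ ht₁)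
      exact e1.trans (by linarith)
    · obtain ⟨t₂, ht₂, rfl⟩ := hT₂ t ht ht'
      rw [amLift_am₂]
      have e1 := hψ₂ t₂ (Finset.mem_union_left _ ht₂)
      exact e1.trans (by linarith)

/-- Proportional deletion in the amalgam. -/
theorem pDel_amalgam (i₁ : H →* G₁) (i₂ : H →* G₂) (𝓕₁ : Set (Subgroup G₁))
    (𝓕₂ : Set (Subgroup G₂)) (h𝓕₁ : ∀ J : Subgroup H, J.map i₁ ∈ 𝓕₁)
    (h𝓕₂ : ∀ J : Subgroup H, J.map i₂ ∈ 𝓕₂) (hres : ∀ h, InRes G₁ (i₁ h) ↔ InRes G₂ (i₂ h))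
    (h₁ : Good G₁ 𝓕₁) (h₂ : Good G₂ 𝓕₂) :
    PDel (Amalgam i₁ i₂) ((Subgroup.map (am₁ i₁ i₂)) '' 𝓕₁ ∪ (Subgroup.map (am₂ i₁ i₂)) '' 𝓕₂) := by
  classical
  obtain ⟨c₁, c₂, hc₁, hc₂, hglue⟩ := glue_step i₁ i₂ hres 𝓕₁ 𝓕₂ h𝓕₁ h𝓕₂ h₁.del h₂.del
  apply pDel_of_gen _ (Set.range (am₁ i₁ i₂) ∪ Set.range (am₂ i₁ i₂)) (closure_ranges i₁ i₂)
    (Or.inl ⟨1, map_one _⟩)
  refine ⟨fun t => c₁ (Function.invFun (am₁ i₁ i₂) t) + c₂ (Function.invFun (am₂ i₁ i₂) t),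
    fun t => add_nonneg (hc₁ _) (hc₂ _), ?_⟩
  intro T hT 𝓙 h𝓙 η ζ hη0 hη1 hζ
  obtain ⟨𝓙₁, h𝓙₁, h𝓙₁'⟩ := exists_finset_preimage (Subgroup.map (am₁ i₁ i₂)) 𝓕₁ 𝓙
  obtain ⟨𝓙₂, h𝓙₂, h𝓙₂'⟩ := exists_finset_preimage (Subgroup.map (am₂ i₁ i₂)) 𝓕₂ 𝓙
  obtain ⟨ζ₁, hζ₁0, hζ₁ζ, hζ₁η⟩ : ∃ ζ₁ : ℝ, 0 < ζ₁ ∧ ζ₁ ≤ ζ / 4 ∧ 2 * ζ₁ ≤ η :=
    ⟨min (ζ / 4) (η / 2), lt_min (by linarith) (by linarith), min_le_left _ _, by
      have := min_le_right (ζ / 4) (η / 2)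
      linarith⟩
  obtain ⟨N₁, δ', hδ', hmain⟩ := hglue (T.image (Function.invFun (am₁ i₁ i₂)))
    (T.image (Function.invFun (am₂ i₁ i₂))) 𝓙₁ 𝓙₂ h𝓙₁ h𝓙₂ η ζ₁ hη0 hη1 hζ₁0
  obtain ⟨N₂, hN₂⟩ := exists_nat_gt (1 / ζ₁)
  refine ⟨max N₁ (N₂ + 1), ?_⟩
  intro X _ hX a
  set N : ℝ := (Nat.card X : ℝ) with hN
  have hNpos : 0 < N := by
    have : 0 < Nat.card X := by
      have := (le_max_right N₁ (N₂ + 1)).trans hX
      omega
    rw [hN]
    exact_mod_cast this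
  have hN1 : 1 ≤ ζ₁ * N := by
    have e1 : (N₂ : ℝ) + 1 ≤ N := by
      rw [hN]
      exact_mod_cast (le_max_right N₁ (N₂ + 1)).trans hX
    rw [div_lt_iff₀ hζ₁0] at hN₂
    nlinarith
  -- choice of the size
  obtain ⟨M, hM1, hM2⟩ : ∃ M : ℕ, (1 - η) * N + ζ₁ * N ≤ M ∧
      (M : ℝ) ≤ (1 - η) * N + 2 * (ζ₁ * N) := by
    refine ⟨⌈(1 - η) * N + ζ₁ * N⌉₊, Nat.le_ceil _, ?_⟩
    have e1 : (0 : ℝ) ≤ (1 - η) * N + ζ₁ * N := by
      have : 0 ≤ (1 - η) * N := mul_nonneg (by linarith) hNpos.le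
      linarith
    have := Nat.ceil_lt_add_one e1
    linarith
  have hMX : M ≤ Nat.card X := by
    have e1 : (M : ℝ) ≤ N := by
      have : 2 * ζ₁ * N ≤ η * N := mul_le_mul_of_nonneg_right hζ₁η hNpos.le
      linarith
    rw [hN] at e1
    exact_mod_cast e1
  obtain ⟨D, b, hD, hn₁, hn₂, hm₁, hm₂⟩ := hmain X ((le_max_left _ _).trans hX)
    (a.comp (am₁ i₁ i₂)) (a.comp (am₂ i₁ i₂)) (by
      intro h
      have e1 : Nat.card {x // (a.comp (am₁ i₁ i₂)) (i₁ h) x ≠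
          (a.comp (am₂ i₁ i₂)) (i₂ h) x} = 0 := by
        rw [Nat.card_eq_zero]
        left
        constructor
        rintro ⟨x, hx⟩
        apply hx
        rw [MonoidHom.comp_apply, MonoidHom.comp_apply, am_eq]
      rw [e1]
      simp only [Nat.cast_zero]
      positivity) M hM1 hMX
  refine ⟨D, b, ?_, ?_⟩
  · intro t ht
    rcases hT t ht with ht' | ht'
    · have e1 : am₁ i₁ i₂ (Function.invFun (am₁ i₁ i₂) t) = t := Function.invFun_eq ht'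
      have e2 := hn₁ _ (Finset.mem_image_of_mem _ ht)
      have e3 : nbad D (b.comp (am₁ i₁ i₂)) (a.comp (am₁ i₁ i₂))
          (Function.invFun (am₁ i₁ i₂) t) = nbad D b a t := by
        conv_rhs => rw [← e1]
        rfl
      rw [e3] at e2
      refine e2.trans (mul_le_mul_of_nonneg_right ?_ hNpos.le)
      have e4 := hc₂ (Function.invFun (am₂ i₁ i₂) t)
      nlinarith
    · have e1 : am₂ i₁ i₂ (Function.invFun (am₂ i₁ i₂) t) = t := Function.invFun_eq ht'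
      have e2 := hn₂ _ (Finset.mem_image_of_mem _ ht)
      have e3 : nbad D (b.comp (am₂ i₁ i₂)) (a.comp (am₂ i₁ i₂))
          (Function.invFun (am₂ i₁ i₂) t) = nbad D b a t := by
        conv_rhs => rw [← e1]
        rfl
      rw [e3] at e2
      refine e2.trans (mul_le_mul_of_nonneg_right ?_ hNpos.le)
      have e4 := hc₁ (Function.invFun (am₁ i₁ i₂) t)
      nlinarith
  · intro J hJ
    have hζN : 0 ≤ ζ * N := by positivity
    have hζζ : ζ₁ * N ≤ ζ / 4 * N := mul_le_mul_of_nonneg_right hζ₁ζ hNpos.le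
    rcases h𝓙 J hJ with hJ' | hJ'
    · obtain ⟨J₁, hJ₁, rfl⟩ := h𝓙₁' J hJ hJ'
      have e1 := hm₁ J₁ hJ₁
      rw [fixN_map, fixN_map, abs_le]
      constructor
      · linarith [e1.1]
      · linarith [e1.2]
    · obtain ⟨J₂, hJ₂, rfl⟩ := h𝓙₂' J hJ hJ'
      have e1 := hm₂ J₂ hJ₂
      rw [fixN_map, fixN_map, abs_le]
      constructor
      · linarith [e1.1]
      · linarith [e1.2]

end

end Pool.Agent.Helper94
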