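import Mathlib
import Pool.Agent.Helper94.GoodAmalgam

/-!
The class of groups with strict stability and proportional deletion is closed under amalgamated
free products over finite groups (conclusion).
-/

namespace Pool.Agent.Helper94

open Equiv

section

variable {G₁ G₂ H : Type} [Group G₁] [Group G₂] [Group H] [Finite H]

lemma exists_amalgam_action (i₁ : H →* G₁) (i₂ : H →* G₂) (A₁ : FAct G₁) (A₂ : FAct G₂)
    (hm : ∀ J : Subgroup H, marks i₁ A₁ J = marks i₂ A₂ J) :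
    ∃ (b : Amalgam i₁ i₂ →* Perm A₁.X) (e : A₁.X ≃ A₂.X),
      (∀ t, b (am₁ i₁ i₂ t) = A₁.a t) ∧ ∀ t z, e (b (am₂ i₁ i₂ t) z) = A₂.a t (e z) := by
  have := A₁.fin
  have := A₂.fin
  obtain ⟨e, he⟩ := actIso_of_fixN _ _ _ (A₁.a.comp i₁) (A₂.a.comp i₂) rfl hm
  have hβ : ∀ h, A₁.a (i₁ h) = ((e.symm.permCongrHom.toMonoidHom).comp A₂.a) (i₂ h) := by
    intro h
    apply Equiv.ext
    intro z
    change A₁.a (i₁ h) z = e.symm (A₂.a (i₂ h) (e z))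
    rw [Equiv.eq_symm_apply]
    exact he h z
  refine ⟨amLift i₁ i₂ A₁.a ((e.symm.permCongrHom.toMonoidHom).comp A₂.a) hβ, e, fun t => rfl, ?_⟩
  intro t z
  change e (e.symm (A₂.a t (e z))) = A₂.a t (e z)
  rw [Equiv.apply_symm_apply]

/-- left multiplication on a finite quotient -/
def quotAct {G Q : Type} [Group G] [Group Q] [Finite Q] (q : G →* Q) : FAct G :=
  ⟨Q, inferInstance, (MulAction.toPermHom Q Q).comp q⟩

lemma inRes_am₁ (i₁ : H →* G₁) (i₂ : H →* G₂)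
    (hres : ∀ h, InRes G₁ (i₁ h) ↔ InRes G₂ (i₂ h)) (x : G₁)
    (hx : InRes (Amalgam i₁ i₂) (am₁ i₁ i₂ x)) : InRes G₁ x := by
  intro Q _ _ q
  obtain ⟨B₁, B₂, hB⟩ := exists_match i₁ i₂ hres (quotAct q) FAct.empty
  obtain ⟨b, e, hb, _⟩ := exists_amalgam_action i₁ i₂ ((quotAct q).add B₁) (FAct.empty.add B₂) (by
    intro J
    rw [marks_add, marks_add]
    exact hB J)
  have : Finite ((quotAct q).add B₁).X := ((quotAct q).add B₁).fin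
  have h1 := hx _ b
  rw [hb] at h1
  have h2 := Equiv.congr_fun h1 (Sum.inl (1 : Q))
  have h3 : (Sum.inl (q x * 1) : Q ⊕ B₁.X) = Sum.inl (1 : Q) := h2
  have h4 := Sum.inl_injective h3
  rwa [mul_one] at h4

lemma inRes_am₂ (i₁ : H →* G₁) (i₂ : H →* G₂)
    (hres : ∀ h, InRes G₁ (i₁ h) ↔ InRes G₂ (i₂ h)) (x : G₂)
    (hx : InRes (Amalgam i₁ i₂) (am₂ i₁ i₂ x)) : InRes G₂ x := by
  intro Q _ _ q
  obtain ⟨B₁, B₂, hB⟩ := exists_match i₁ i₂ hres FAct.empty (quotAct q)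
  obtain ⟨b, e, _, hb⟩ := exists_amalgam_action i₁ i₂ (FAct.empty.add B₁) ((quotAct q).add B₂) (by
    intro J
    rw [marks_add, marks_add]
    exact hB J)
  have : Finite (FAct.empty.add B₁).X := (FAct.empty.add B₁).fin
  have h1 := hx _ b
  obtain ⟨z, hz⟩ := e.surjective (Sum.inl (1 : Q) : Q ⊕ B₂.X)
  have h2 := hb x z
  rw [h1, hz] at h2
  have h2' : e z = ((quotAct q).add B₂).a x (Sum.inl (1 : Q) : Q ⊕ B₂.X) := h2
  rw [hz] at h2'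
  have h3 : (Sum.inl (1 : Q) : Q ⊕ B₂.X) = Sum.inl (q x * 1) := h2'
  have h4 := Sum.inl_injective h3
  rw [mul_one] at h4
  exact h4.symm

/-- The class is closed under amalgamated free products over finite groups. -/
theorem good_amalgam (i₁ : H →* G₁) (i₂ : H →* G₂) (hi₁ : Function.Injective i₁)
    (hi₂ : Function.Injective i₂) (𝓕₁ : Set (Subgroup G₁))
    (𝓕₂ : Set (Subgroup G₂)) (h𝓕₁ : ∀ J : Subgroup H, J.map i₁ ∈ 𝓕₁)
    (h𝓕₂ : ∀ J : Subgroup H, J.map i₂ ∈ 𝓕₂)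
    (h₁ : Good G₁ 𝓕₁) (h₂ : Good G₂ 𝓕₂) :
    Good (Amalgam i₁ i₂)
      ((Subgroup.map (am₁ i₁ i₂)) '' 𝓕₁ ∪ (Subgroup.map (am₂ i₁ i₂)) '' 𝓕₂) := by
  have hres : ∀ h, InRes G₁ (i₁ h) ↔ InRes G₂ (i₂ h) := by
    intro h
    have k1 : InRes G₁ (i₁ h) → h = 1 := by
      intro hh
      have e := h₁.res _ (h𝓕₁ ⊤) (i₁ h) ⟨h, Subgroup.mem_top h, rfl⟩ hh
      exact hi₁ (e.trans (map_one i₁).symm)
    have k2 : InRes G₂ (i₂ h) → h = 1 := by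
      intro hh
      have e := h₂.res _ (h𝓕₂ ⊤) (i₂ h) ⟨h, Subgroup.mem_top h, rfl⟩ hh
      exact hi₂ (e.trans (map_one i₂).symm)
    constructor
    · intro hh
      rw [k1 hh, map_one]
      intro Q _ _ f
      exact map_one f
    · intro hh
      rw [k2 hh, map_one]
      intro Q _ _ f
      exact map_one f
  refine ⟨aStab_amalgam i₁ i₂ 𝓕₁ 𝓕₂ h𝓕₁ h𝓕₂ hres h₁ h₂, ?_,
    pDel_amalgam i₁ i₂ 𝓕₁ 𝓕₂ h𝓕₁ h𝓕₂ hres h₁ h₂⟩
  rintro J (⟨J₁, hJ₁, rfl⟩ | ⟨J₂, hJ₂, rfl⟩) g hg hgr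
  · obtain ⟨x, hx, rfl⟩ := hg
    rw [h₁.res J₁ hJ₁ x hx (inRes_am₁ i₁ i₂ hres x hgr), map_one]
  · obtain ⟨x, hx, rfl⟩ := hg
    rw [h₂.res J₂ hJ₂ x hx (inRes_am₂ i₁ i₂ hres x hgr), map_one]

end

end Pool.Agent.Helper94
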