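import Mathlib

/-!
Definitions: stability in Hilbert-Schmidt norm.
-/

namespace Pool.Agent.Helper94

/-- The square of the (unnormalized) Hilbert-Schmidt norm of a matrix. -/
noncomputable def hsSq {X Y : Type} [Fintype X] [Fintype Y] (M : Matrix X Y ℂ) : ℝ :=
  ∑ i, ∑ j, ‖M i j‖ ^ 2

/-- The distance of two square matrices in the normalized Hilbert-Schmidt norm. -/
noncomputable def hsDist {X : Type} [Fintype X] (A B : Matrix X X ℂ) : ℝ :=
  Real.sqrt (hsSq (A - B) / Fintype.card X)

/-- Stability in Hilbert-Schmidt norm: every sequence of maps into finite-dimensional unitary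
groups that is asymptotically multiplicative is asymptotically close to a sequence of
homomorphisms. -/
def HSStable (G : Type) [Group G] : Prop :=
  ∀ (X : ℕ → Type) [∀ n, Fintype (X n)] [∀ n, DecidableEq (X n)] [∀ n, Nonempty (X n)]
    (φ : ∀ n, G → Matrix.unitaryGroup (X n) ℂ),
    (∀ a b : G, Filter.Tendsto
      (fun n => hsDist (φ n a * φ n b : Matrix (X n) (X n) ℂ) (φ n (a * b)))
      Filter.atTop (nhds 0)) →
    ∃ ψ : ∀ n, G →* Matrix.unitaryGroup (X n) ℂ,
      ∀ a : G, Filter.Tendsto (fun n => hsDist (φ n a : Matrix (X n) (X n) ℂ) (ψ n a))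
        Filter.atTop (nhds 0)

/-- The condition of flexible stability in Hilbert-Schmidt norm, for the family `g : S → G`. The
space `ℂ^X` is regarded as a subspace of `ℂ^Y` through the injection `ι` of `X` into `Y`; the
compression of a matrix to this subspace is its submatrix with rows and columns in `ι X`. -/
def FlexHSStableOn {G : Type} [Group G] (S : Type) (g : S → G) : Prop :=
  ∀ ε : ℝ, 0 < ε → ∃ δ : ℝ, 0 < δ ∧ ∃ E : Finset (FreeGroup S),
    (∀ e ∈ E, FreeGroup.lift g e = 1) ∧
    ∀ (X : Type) [Fintype X] [DecidableEq X] [Nonempty X]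
      (φ : FreeGroup S →* Matrix.unitaryGroup X ℂ),
      (∀ e ∈ E, hsDist (φ e : Matrix X X ℂ) 1 ≤ δ) →
      ∃ (Y : Type) (_ : Fintype Y) (_ : DecidableEq Y) (ι : X ↪ Y)
        (ψ : G →* Matrix.unitaryGroup Y ℂ),
        (Fintype.card Y : ℝ) ≤ (1 + ε) * (Fintype.card X : ℝ) ∧
        ∀ s : S, hsDist (φ (FreeGroup.of s) : Matrix X X ℂ)
          ((ψ (g s) : Matrix Y Y ℂ).submatrix ι ι) ≤ ε

/-- Flexible stability in Hilbert-Schmidt norm of a finitely generated group. -/
def FlexHSStable (G : Type) [Group G] : Prop :=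
  Group.FG G ∧ ∀ (S : Type) [Finite S] (g : S → G), Subgroup.closure (Set.range g) = ⊤ →
    FlexHSStableOn S g

end Pool.Agent.Helper94
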