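import Mathlib
import Pool.Agent.Helper94.StabDefs
import Pool.Agent.Helper94.HSDefs

/-!
Definitions: sofic groups and hyperlinear groups.
-/

namespace Pool.Agent.Helper94

open Equiv

/-- `G` is sofic: some asymptotically multiplicative sequence of maps into finite symmetric groups
keeps every nontrivial element away from the identity. -/
def IsSofic (G : Type) [Group G] : Prop :=
  ∃ (X : ℕ → Type) (_ : ∀ n, Finite (X n)) (_ : ∀ n, Nonempty (X n)) (φ : ∀ n, G → Perm (X n)),
    (∀ a b : G, Filter.Tendsto (fun n => permDist (φ n a * φ n b) (φ n (a * b)))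
      Filter.atTop (nhds 0)) ∧
    ∀ a : G, a ≠ 1 → ∃ c : ℝ, 0 < c ∧ ∀ᶠ n in Filter.atTop, c ≤ permDist (φ n a) 1

/-- `G` is hyperlinear: some asymptotically multiplicative sequence of maps into
finite-dimensional unitary groups keeps every nontrivial element away from the identity. -/
def IsHyperlinear (G : Type) [Group G] : Prop :=
  ∃ (X : ℕ → Type) (_ : ∀ n, Fintype (X n)) (_ : ∀ n, DecidableEq (X n))
    (_ : ∀ n, Nonempty (X n)) (φ : ∀ n, G → Matrix.unitaryGroup (X n) ℂ),
    (∀ a b : G, Filter.Tendsto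
      (fun n => hsDist (φ n a * φ n b : Matrix (X n) (X n) ℂ) (φ n (a * b)))
      Filter.atTop (nhds 0)) ∧
    ∀ a : G, a ≠ 1 → ∃ c : ℝ, 0 < c ∧ ∀ᶠ n in Filter.atTop,
      c ≤ hsDist (φ n a : Matrix (X n) (X n) ℂ) 1

end Pool.Agent.Helper94
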