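import Mathlib
import Pool.Agent.Helper94.TreeDefs
import Pool.Agent.Helper94.GoodClosed

/-!
Fundamental groups of finite trees of amenable groups stable in permutations, with finite edge
groups, are stable in permutations.
-/

namespace Pool.Agent.Helper94

open Equiv

lemma fg_amalgam {G₁ G₂ H : Type} [Group G₁] [Group G₂] [Group H] (i₁ : H →* G₁)
    (i₂ : H →* G₂) (h₁ : Group.FG G₁) (h₂ : Group.FG G₂) : Group.FG (Amalgam i₁ i₂) := by
  obtain ⟨T₁, hT₁, hT₁f⟩ := Group.fg_iff.1 h₁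
  obtain ⟨T₂, hT₂, hT₂f⟩ := Group.fg_iff.1 h₂
  have : Finite T₁ := hT₁f
  have : Finite T₂ := hT₂f
  have hr₁ : Subgroup.closure (Set.range (Subtype.val : T₁ → G₁)) = ⊤ := by
    rw [Subtype.range_coe]
    exact hT₁
  have hr₂ : Subgroup.closure (Set.range (Subtype.val : T₂ → G₂)) = ⊤ := by
    rw [Subtype.range_coe]
    exact hT₂
  have hcl := closure_am i₁ i₂ (Subtype.val : T₁ → G₁) (Subtype.val : T₂ → G₂) hr₁ hr₂
  rw [Group.fg_iff]
  exact ⟨_, hcl, Set.finite_range _⟩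

/-- the two descriptions of the amalgamated free product agree -/
lemma exists_mulEquiv_amalgam {G₁ G₂ H G : Type} [Group G₁] [Group G₂] [Group H] [Group G]
    (i₁ : H →* G₁) (i₂ : H →* G₂) (j₁ : G₁ →* G) (j₂ : G₂ →* G) (hG : IsAmalgam i₁ i₂ j₁ j₂) :
    ∃ e : Amalgam i₁ i₂ ≃* G, e.toMonoidHom.comp (am₁ i₁ i₂) = j₁ ∧
      e.toMonoidHom.comp (am₂ i₁ i₂) = j₂ := by
  obtain ⟨hcomm, huniv⟩ := hG
  have hcomm' : ∀ h, j₁ (i₁ h) = j₂ (i₂ h) := fun h => DFunLike.congr_fun hcomm h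
  let f : Amalgam i₁ i₂ →* G := amLift i₁ i₂ j₁ j₂ hcomm'
  have ham : (am₁ i₁ i₂).comp i₁ = (am₂ i₁ i₂).comp i₂ := MonoidHom.ext (fun h => am_eq i₁ i₂ h)
  obtain ⟨g, ⟨hg₁, hg₂⟩, _⟩ := huniv (Amalgam i₁ i₂) (am₁ i₁ i₂) (am₂ i₁ i₂) ham
  have hfg : f.comp g = MonoidHom.id G := by
    obtain ⟨b, _, hb⟩ := huniv G j₁ j₂ hcomm
    rw [hb (f.comp g), hb (MonoidHom.id G)]
    · exact ⟨MonoidHom.id_comp _, MonoidHom.id_comp _⟩
    · constructor
      · rw [MonoidHom.comp_assoc, hg₁]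
        rfl
      · rw [MonoidHom.comp_assoc, hg₂]
        rfl
  have hgf : g.comp f = MonoidHom.id _ := by
    have hcl := closure_am i₁ i₂ (id : G₁ → G₁) (id : G₂ → G₂)
      (by rw [Set.range_id]; exact Subgroup.closure_univ)
      (by rw [Set.range_id]; exact Subgroup.closure_univ)
    apply MonoidHom.eq_of_eqOn_dense hcl
    rintro _ ⟨s | s, rfl⟩
    · exact DFunLike.congr_fun hg₁ s
    · exact DFunLike.congr_fun hg₂ s
  exact ⟨MonoidHom.toMulEquiv f g hgf hfg, rfl, rfl⟩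

lemma aStab_of_mulEquiv {G G' : Type} [Group G] [Group G'] (e : G ≃* G') (h : AStab G) :
    AStab G' := by
  classical
  intro T ε hε
  obtain ⟨T', δ, hδ, hmain⟩ := h (T.image e.symm) ε hε
  refine ⟨T'.image e, δ, hδ, ?_⟩
  intro X _ _ φ hφ
  obtain ⟨ψ, hψ⟩ := hmain X (fun g => φ (e g)) (by
    intro a ha b hb
    have h1 := hφ (e a) (Finset.mem_image_of_mem _ ha) (e b) (Finset.mem_image_of_mem _ hb)
    rwa [← map_mul] at h1)
  refine ⟨ψ.comp e.symm.toMonoidHom, ?_⟩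
  intro t ht
  have h1 := hψ (e.symm t) (Finset.mem_image_of_mem _ ht)
  rw [MulEquiv.apply_symm_apply] at h1
  exact h1

lemma pDel_of_mulEquiv {G G' : Type} [Group G] [Group G'] (e : G ≃* G')
    (𝓕 : Set (Subgroup G)) (h : PDel G 𝓕) : PDel G' (Subgroup.map e.toMonoidHom '' 𝓕) := by
  classical
  obtain ⟨c, hc, h⟩ := h
  refine ⟨fun t => c (e.symm t), fun t => hc _, ?_⟩
  intro T 𝓙 h𝓙 η ζ hη0 hη1 hζ
  obtain ⟨𝓙', h𝓙', h𝓙''⟩ := exists_finset_preimage (Subgroup.map e.toMonoidHom) 𝓕 𝓙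
  obtain ⟨N₀, hN₀⟩ := h (T.image e.symm) 𝓙' h𝓙' η ζ hη0 hη1 hζ
  refine ⟨N₀, ?_⟩
  intro X _ hX a
  obtain ⟨D, b, h1, h2⟩ := hN₀ X hX (a.comp e.toMonoidHom)
  refine ⟨D, b.comp e.symm.toMonoidHom, ?_, ?_⟩
  · intro t ht
    have h3 := h1 (e.symm t) (Finset.mem_image_of_mem _ ht)
    have h4 : nbad D b (a.comp e.toMonoidHom) (e.symm t) =
        nbad D (b.comp e.symm.toMonoidHom) a t := by
      unfold nbad
      apply Nat.card_congr
      apply Equiv.subtypeEquivRight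
      intro x
      have h5 : (a.comp e.toMonoidHom) (e.symm t) = a t := by
        change a (e (e.symm t)) = a t
        rw [MulEquiv.apply_symm_apply]
      rw [h5]
      rfl
    rw [h4] at h3
    exact h3
  · intro J hJ
    obtain ⟨J', hJ', rfl⟩ := h𝓙'' J hJ (h𝓙 J hJ)
    have h3 := h2 J' hJ'
    rw [fixN_map, fixN_map]
    have h4 : (b.comp e.symm.toMonoidHom).comp e.toMonoidHom = b := by
      apply MonoidHom.ext
      intro g
      change b (e.symm (e g)) = b g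
      rw [MulEquiv.symm_apply_apply]
    rw [h4]
    exact h3

lemma good_of_mulEquiv {G G' : Type} [Group G] [Group G'] (e : G ≃* G')
    (𝓕 : Set (Subgroup G)) (h : Good G 𝓕) : Good G' (Subgroup.map e.toMonoidHom '' 𝓕) where
  stab := aStab_of_mulEquiv e h.stab
  res := by
    rintro _ ⟨J, hJ, rfl⟩ _ ⟨g, hg, rfl⟩ hr
    have h1 : InRes G g := by
      intro Q _ _ f
      have h2 := hr Q (f.comp e.symm.toMonoidHom)
      have h3 : (f.comp e.symm.toMonoidHom) (e.toMonoidHom g) = f g := by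
        change f (e.symm (e g)) = f g
        rw [MulEquiv.symm_apply_apply]
      rwa [h3] at h2
    rw [h.res J hJ g hg h1, map_one]
  del := pDel_of_mulEquiv e 𝓕 h.del

/-- Everything we know about tree products. -/
theorem treeProduct_good {G : Type} [Group G] {𝓕 : Set (Subgroup G)} (h : TreeProduct G 𝓕) :
    Group.FG G ∧ Good G 𝓕 ∧ ∀ J ∈ 𝓕, ∀ K : Subgroup G, K ≤ J → K ∈ 𝓕 := by
  induction h with
  | vertex G hfg ham hst =>
    have := countable_of_fg hfg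
    refine ⟨hfg, good_of_amenable ham (aStab_of_pStable hst), ?_⟩
    intro J hJ K hK
    have : Finite J := hJ
    exact Finite.of_injective _ (Subgroup.inclusion_injective hK)
  | @edge G₁ G₂ H G _ _ _ _ _ 𝓕₁ 𝓕₂ i₁ i₂ j₁ j₂ hG _ _ hi₁ hi₂ hr₁ hr₂ ih₁ ih₂ =>
    obtain ⟨f₁, g₁, c₁⟩ := ih₁
    obtain ⟨f₂, g₂, c₂⟩ := ih₂
    have k₁ : ∀ J : Subgroup H, J.map i₁ ∈ 𝓕₁ := fun J => by
      apply c₁ _ hr₁
      rw [MonoidHom.range_eq_map]
      exact Subgroup.map_mono le_top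
    have k₂ : ∀ J : Subgroup H, J.map i₂ ∈ 𝓕₂ := fun J => by
      apply c₂ _ hr₂
      rw [MonoidHom.range_eq_map]
      exact Subgroup.map_mono le_top
    obtain ⟨e, he₁, he₂⟩ := exists_mulEquiv_amalgam i₁ i₂ j₁ j₂ hG
    have hfam : Subgroup.map e.toMonoidHom ''
        ((Subgroup.map (am₁ i₁ i₂)) '' 𝓕₁ ∪ (Subgroup.map (am₂ i₁ i₂)) '' 𝓕₂) =
        Subgroup.map j₁ '' 𝓕₁ ∪ Subgroup.map j₂ '' 𝓕₂ := by
      rw [Set.image_union, Set.image_image, Set.image_image]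
      simp only [Subgroup.map_map, he₁, he₂]
    have hgood := good_of_mulEquiv e _ (good_amalgam i₁ i₂ hi₁ hi₂ 𝓕₁ 𝓕₂ k₁ k₂ g₁ g₂)
    rw [hfam] at hgood
    have hfg : Group.FG G := by
      have := fg_amalgam i₁ i₂ f₁ f₂
      exact Group.fg_of_surjective (f := e.toMonoidHom) e.surjective
    refine ⟨hfg, hgood, ?_⟩
    have aux : ∀ {A B : Type} [Group A] [Group B] (f : A →* B) (J : Subgroup A) (K : Subgroup B),
        K ≤ J.map f → ∃ J' : Subgroup A, J' ≤ J ∧ J'.map f = K := by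
      intro A B _ _ f J K hK
      refine ⟨J ⊓ K.comap f, inf_le_left, ?_⟩
      apply le_antisymm
      · rintro _ ⟨x, hx, rfl⟩
        exact hx.2
      · intro y hy
        obtain ⟨x, hx, rfl⟩ := hK hy
        exact ⟨x, ⟨hx, hy⟩, rfl⟩
    rintro J (⟨J₁, hJ₁, rfl⟩ | ⟨J₂, hJ₂, rfl⟩) K hK
    · obtain ⟨J', hJ', rfl⟩ := aux _ J₁ K hK
      exact Or.inl ⟨J', c₁ _ hJ₁ _ hJ', rfl⟩
    · obtain ⟨J', hJ', rfl⟩ := aux _ J₂ K hK
      exact Or.inr ⟨J', c₂ _ hJ₂ _ hJ', rfl⟩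

theorem pStable_of_treeProduct {G : Type} [Group G] {𝓕 : Set (Subgroup G)}
    (h : TreeProduct G 𝓕) : PStable G := by
  obtain ⟨h1, h2, _⟩ := treeProduct_good h
  have := countable_of_fg h1
  exact pStable_of_aStab h2.stab

end Pool.Agent.Helper94
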