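import Mathlib
import Pool.Agent.Helper94.HSDefs
import Pool.Agent.Helper94.TreeDefs

/-!
Definition: finite trees of amenable groups stable in Hilbert-Schmidt norm, with finite edge groups.
-/

namespace Pool.Agent.Helper94

/-- Fundamental groups of finite trees of groups with finite edge groups, whose vertex groups are
finitely generated amenable groups which are stable in Hilbert-Schmidt norm. `TreeProductHS G 𝓕`
says that `G` is built in this way and that `𝓕` is the set of the images in `G` of the finite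
subgroups of the vertex groups. -/
inductive TreeProductHS : (G : Type) → [Group G] → Set (Subgroup G) → Prop
  | vertex (G : Type) [Group G] (hfg : Group.FG G) (ham : FolnerAmenable G)
      (hst : HSStable G) : TreeProductHS G {J | Finite J}
  | edge {G₁ G₂ H G : Type} [Group G₁] [Group G₂] [Group H] [Group G] [Finite H]
      {𝓕₁ : Set (Subgroup G₁)} {𝓕₂ : Set (Subgroup G₂)} (i₁ : H →* G₁) (i₂ : H →* G₂)
      (j₁ : G₁ →* G) (j₂ : G₂ →* G) (hG : IsAmalgam i₁ i₂ j₁ j₂)
      (h₁ : TreeProductHS G₁ 𝓕₁) (h₂ : TreeProductHS G₂ 𝓕₂) (hi₁ : Function.Injective i₁)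
      (hi₂ : Function.Injective i₂) (hr₁ : i₁.range ∈ 𝓕₁) (hr₂ : i₂.range ∈ 𝓕₂) :
      TreeProductHS G (Subgroup.map j₁ '' 𝓕₁ ∪ Subgroup.map j₂ '' 𝓕₂)

end Pool.Agent.Helper94
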