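import Mathlib
import Pool.Agent.Helper94.SoficDefs
import Pool.Agent.Helper94.PStab

/-!
Sofic flexibly stable groups are residually finite.
-/

namespace Pool.Agent.Helper94

open Equiv Filter

lemma permDist_self {X : Type} (σ : Perm X) : permDist σ σ = 0 := by
  unfold permDist
  have : IsEmpty {x : X // σ x ≠ σ x} := ⟨fun x => x.2 rfl⟩
  rw [Nat.card_of_isEmpty]
  simp

lemma permDist_mul_right {X : Type} (σ τ ρ : Perm X) :
    permDist (σ * ρ) (τ * ρ) = permDist σ τ := by
  unfold permDist
  congr 2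
  refine Nat.card_congr (ρ.subtypeEquiv (fun x => ?_))
  rw [Perm.mul_apply, Perm.mul_apply]

section

variable {G S : Type} [Group G] (g : S → G) (X : ℕ → Type) [∀ n, Finite (X n)]
  (φ : ∀ n, G → Perm (X n))
  (hφ : ∀ a b : G, Tendsto (fun n => permDist (φ n a * φ n b) (φ n (a * b))) atTop (nhds 0))

include hφ

omit [∀ n, Finite (X n)] in
lemma tendsto_one : Tendsto (fun n => permDist (φ n 1) 1) atTop (nhds 0) := by
  have h1 := hφ 1 1
  refine h1.congr (fun n => ?_)
  rw [one_mul]
  conv_lhs => rw [← mul_one (φ n 1), mul_assoc, one_mul]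
  exact permDist_mul_left _ _ _

lemma tendsto_inv (a : G) : Tendsto (fun n => permDist (φ n a)⁻¹ (φ n a⁻¹)) atTop (nhds 0) := by
  have h1 := (hφ a a⁻¹).add (tendsto_one X φ hφ)
  rw [add_zero] at h1
  refine squeeze_zero (fun n => permDist_nonneg _ _) (fun n => ?_) h1
  rw [← permDist_mul_left _ _ (φ n a), mul_inv_cancel, permDist_comm]
  have h2 := permDist_triangle (φ n a * φ n a⁻¹) (φ n 1) 1
  rw [mul_inv_cancel]
  exact h2

lemma tendsto_word (w : FreeGroup S) :
    Tendsto (fun n => permDist (FreeGroup.lift (fun s => φ n (g s)) w)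
      (φ n (FreeGroup.lift g w))) atTop (nhds 0) := by
  induction w using FreeGroup.induction_on with
  | C1 =>
    simp only [map_one]
    refine (tendsto_one X φ hφ).congr (fun n => ?_)
    rw [permDist_comm]
  | of s =>
    simp only [FreeGroup.lift_apply_of, permDist_self]
    exact tendsto_const_nhds
  | inv_of s _ =>
    simp only [map_inv, FreeGroup.lift_apply_of]
    exact tendsto_inv X φ hφ (g s)
  | mul v w hv hw =>
    have h1 := (hv.add hw).add (hφ (FreeGroup.lift g v) (FreeGroup.lift g w))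
    rw [add_zero, add_zero] at h1
    refine squeeze_zero (fun n => permDist_nonneg _ _) (fun n => ?_) h1
    rw [map_mul, map_mul]
    refine (permDist_triangle _ (φ n (FreeGroup.lift g v) * φ n (FreeGroup.lift g w)) _).trans ?_
    apply add_le_add_left
    refine (permDist_triangle _
      (φ n (FreeGroup.lift g v) * FreeGroup.lift (fun s => φ n (g s)) w) _).trans ?_
    rw [permDist_mul_right, permDist_mul_left]

end

/-- Sofic flexibly stable groups are residually finite. -/
theorem not_inRes_of_sofic {G : Type} [Group G] (hs : IsSofic G) (hf : FlexPStable G) (a : G)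
    (ha : a ≠ 1) : ¬ InRes G a := by
  classical
  intro hres
  obtain ⟨X, fX, nX, φ, hφ, hsep⟩ := hs
  obtain ⟨hfg, hf⟩ := hf
  obtain ⟨T, hT, hTf⟩ := Group.fg_iff.1 hfg
  have : Finite T := hTf
  have hr : Subgroup.closure (Set.range (Subtype.val : T → G)) = ⊤ := by
    rw [Subtype.range_coe]
    exact hT
  have k := flexOn'_of_flexOn _ (hf T Subtype.val hr)
  rw [← FreeGroup.lift_surjective_iff_closure_range_eq_top] at hr
  obtain ⟨w, hw⟩ := hr a
  obtain ⟨L, hL⟩ := exists_word_bound w
  obtain ⟨c, hc, hca⟩ := hsep a ha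
  set ε : ℝ := c / (2 * (L + 1)) with hε
  have hL1 : (0 : ℝ) < 2 * (L + 1) := by positivity
  have hε0 : 0 < ε := div_pos hc hL1
  have hεL : ε * (2 * (L + 1)) = c := div_mul_cancel₀ _ hL1.ne'
  obtain ⟨δ, hδ, E, hE, hmain⟩ := k ε hε0
  have e1 : ∀ᶠ n in atTop, ∀ e ∈ E,
      permDist (FreeGroup.lift (fun s : T => φ n (Subtype.val s)) e) 1 < δ := by
    rw [Finset.eventually_all]
    intro e he
    have h1 := (tendsto_word (Subtype.val : T → G) X φ hφ e).add (tendsto_one X φ hφ)
    rw [add_zero] at h1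
    filter_upwards [h1.eventually (gt_mem_nhds hδ)] with n hn
    refine lt_of_le_of_lt ?_ hn
    rw [hE e he]
    exact permDist_triangle _ _ _
  have e2 : ∀ᶠ n in atTop, permDist (FreeGroup.lift (fun s : T => φ n (Subtype.val s)) w)
      (φ n (FreeGroup.lift (Subtype.val : T → G) w)) < c / 4 :=
    (tendsto_word (Subtype.val : T → G) X φ hφ w).eventually (gt_mem_nhds (by linarith))
  obtain ⟨n, h1, h2, h3⟩ := (e1.and (e2.and hca)).exists
  have hX : (0 : ℝ) < Nat.card (X n) := by exact_mod_cast Nat.card_pos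
  obtain ⟨Y, hY, ι, ψ, _, hb⟩ := hmain (X n) (FreeGroup.lift (fun s : T => φ n (Subtype.val s)))
    (fun e he => (permDist_one_le _ _).1 (h1 e he).le)
  have h4 := hL (X n) Y (FreeGroup.lift (fun s : T => φ n (Subtype.val s)))
    (ψ.comp (FreeGroup.lift (Subtype.val : T → G))) ι (ε * Nat.card (X n)) hb (by positivity)
  have h5 : bad (FreeGroup.lift (fun s : T => φ n (Subtype.val s)))
      (ψ.comp (FreeGroup.lift (Subtype.val : T → G))) ι w =
      Nat.card {x // FreeGroup.lift (fun s : T => φ n (Subtype.val s)) w x ≠ x} := by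
    unfold bad
    refine Nat.card_congr (Equiv.subtypeEquivRight (fun x => ?_))
    rw [MonoidHom.comp_apply, hw, hres (Perm Y) ψ, Perm.one_apply, ι.injective.ne_iff]
    exact ne_comm
  rw [h5] at h4
  rw [hw] at h2
  have h6 := permDist_triangle (φ n a) (FreeGroup.lift (fun s : T => φ n (Subtype.val s)) w) 1
  rw [permDist_comm (φ n a) (FreeGroup.lift (fun s : T => φ n (Subtype.val s)) w)] at h6
  have h7 : permDist (FreeGroup.lift (fun s : T => φ n (Subtype.val s)) w) 1 * Nat.card (X n) =
      Nat.card {x // FreeGroup.lift (fun s : T => φ n (Subtype.val s)) w x ≠ x} := by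
    unfold permDist
    rw [div_mul_cancel₀ _ hX.ne']
    rfl
  have h8 : 3 / 4 * c ≤ permDist (FreeGroup.lift (fun s : T => φ n (Subtype.val s)) w) 1 := by
    linarith
  have h9 : 3 / 4 * c * Nat.card (X n) ≤ L * (ε * Nat.card (X n)) := by
    rw [← h7] at h4
    exact (mul_le_mul_of_nonneg_right h8 hX.le).trans h4
  have h10 : (L : ℝ) * (ε * Nat.card (X n)) ≤ c / 2 * Nat.card (X n) := by
    rw [← mul_assoc]
    apply mul_le_mul_of_nonneg_right _ hX.le
    have h11 : ε * (2 * (L + 1)) = 2 * (L * ε) + 2 * ε := by ring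
    linarith
  have h11 : 3 / 4 * c * Nat.card (X n) ≤ c / 2 * Nat.card (X n) := h9.trans h10
  have h12 := le_of_mul_le_mul_right h11 hX
  linarith

end Pool.Agent.Helper94
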